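import Pool.Agent.MP_7e0f10_lc.R.Ratio

set_option linter.all false

section

/-! Definitions and statements of the steps for the upper bounds on the number of moves.
Chains are indexed by natural numbers: joints `p 0, …, p n`, links `0, …, n - 1`. -/

namespace Pool.Agent.MP_7e0f10_lc.R

open Finset

/-- Cross product. -/
def cr (u v : ℂ) : ℝ := u.re * v.im - u.im * v.re

/-- Dot product. -/
def dt (u v : ℂ) : ℝ := u.re * v.re + u.im * v.im

/-- Link number `i`. -/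
def lk (p : ℕ → ℂ) (i : ℕ) : Set ℂ := segment ℝ (p i) (p (i + 1))

/-- Simple chain with `n` links. -/
def Simp (n : ℕ) (p : ℕ → ℂ) : Prop :=
  (∀ i < n, p i ≠ p (i + 1)) ∧
    ∀ i j, i < j → j < n → ∀ x ∈ lk p i, x ∈ lk p j → j = i + 1 ∧ x = p j

/-- Not all joints on one line. -/
def NonCol (n : ℕ) (p : ℕ → ℂ) : Prop :=
  ∃ i ≤ n, ∃ j ≤ n, ∃ k ≤ n, cr (p j - p i) (p k - p i) ≠ 0

/-- Symmetric stress in equilibrium. -/
def Equil (n : ℕ) (p : ℕ → ℂ) (σ : ℕ → ℕ → ℝ) : Prop :=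
  (∀ i j, σ i j = σ j i) ∧ ∀ i ≤ n, ∑ j ∈ range (n + 1), (σ i j : ℂ) * (p j - p i) = 0

/-- Weight: 2 if the line through `x` with direction `u` separates `a` from `b`. -/
noncomputable def wt (x u a b : ℂ) : ℝ :=
  1 - Real.sign (cr u (a - x)) * Real.sign (cr u (b - x))

/-- The height function of the stress, computed along the line through `x` with direction `u`. -/
noncomputable def airy (n : ℕ) (p : ℕ → ℂ) (σ : ℕ → ℕ → ℝ) (x u : ℂ) : ℝ :=
  ∑ i ∈ range (n + 1), ∑ j ∈ range (n + 1),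
    σ i j * (|cr (p i - x) (p j - x)| * wt x u (p i) (p j))

open Classical in
/-- The jump of the slope of the height function at `x` in direction `u`. -/
noncomputable def kink (n : ℕ) (p : ℕ → ℂ) (σ : ℕ → ℕ → ℝ) (x u : ℂ) : ℝ :=
  ∑ i ∈ range (n + 1), ∑ j ∈ range (n + 1),
    if cr (p i - x) (p j - x) = 0 then σ i j * (|cr u (p j - p i)| * wt x u (p i) (p j)) else 0

/-- Expansive velocities `v` with angular velocities `c` of the links; straight joints stay
straight and some joint moves. -/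
def Expa (n : ℕ) (p v : ℕ → ℂ) (c : ℕ → ℝ) : Prop :=
  (∀ m < n, v (m + 1) - v m = Complex.I * (c m : ℂ) * (p (m + 1) - p m)) ∧
  (∀ i ≤ n, ∀ j ≤ n, 0 ≤ dt (v j - v i) (p j - p i)) ∧
  (∀ m, m + 2 ≤ n → cr (p (m + 1) - p m) (p (m + 2) - p (m + 1)) = 0 → c m = c (m + 1)) ∧
  ∃ m, m + 2 ≤ n ∧ c m ≠ c (m + 1)

/-- Delete joint `k + 1`. -/
def del (k : ℕ) (p : ℕ → ℂ) (m : ℕ) : ℂ := if m ≤ k then p m else p (m + 1)

/-- The chain with link lengths `l` and link directions `φ`. -/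
noncomputable def pos (l φ : ℕ → ℝ) (k : ℕ) : ℂ :=
  ∑ m ∈ range k, (l m : ℂ) * Complex.exp ((φ m : ℂ) * Complex.I)

/-- Turning angle at joint `m + 1`. -/
def tau (φ : ℕ → ℝ) (m : ℕ) : ℝ := φ (m + 1) - φ m

/-- Total absolute turning. -/
noncomputable def pot (n : ℕ) (φ : ℕ → ℝ) : ℝ := ∑ m ∈ range (n - 1), |tau φ m|

/-- Distance in angle space. -/
noncomputable def dst (n : ℕ) (φ ψ : ℕ → ℝ) : ℝ := ∑ m ∈ range (n - 1), |tau φ m - tau ψ m|

/-- All turning angles lie in `(-π, π)`. -/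
def Tame (n : ℕ) (φ : ℕ → ℝ) : Prop := ∀ m, m + 2 ≤ n → |tau φ m| < Real.pi

open Classical in
/-- Number of joints that are not straight. -/
noncomputable def bent (n : ℕ) (φ : ℕ → ℝ) : ℕ := ((range (n - 1)).filter fun m => tau φ m ≠ 0).card

/-- The segment from `φ` to `ψ`. -/
def mix (φ ψ : ℕ → ℝ) (t : ℝ) (m : ℕ) : ℝ := φ m + t * (ψ m - φ m)

/-- The segment from `φ` to `ψ` consists of simple chains. -/
def Seg (n : ℕ) (l φ ψ : ℕ → ℝ) : Prop := ∀ t ∈ Set.Icc (0 : ℝ) 1, Simp n (pos l (mix φ ψ t))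

/-- All elliptic distances are at least `E`. -/
def Sep (n : ℕ) (p : ℕ → ℂ) (E : ℝ) : Prop :=
  ∀ v ≤ n, ∀ i < n, v ≠ i → v ≠ i + 1 → E ≤ ‖p v - p i‖ + ‖p v - p (i + 1)‖ - ‖p (i + 1) - p i‖

/-- Joint `v` in the frame of link `i`. -/
noncomputable def rel (l φ : ℕ → ℝ) (v i : ℕ) : ℂ :=
  (pos l φ v - pos l φ i) * Complex.exp (-(φ i : ℂ) * Complex.I)

/-- Four half-planes that avoid the segment from `0` to `b` with margin `μ`. -/
def Side (a : Fin 4) (μ b : ℝ) (z : ℂ) : Prop :=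
  (a = 0 ∧ μ ≤ z.im) ∨ (a = 1 ∧ z.im ≤ -μ) ∨ (a = 2 ∧ z.re ≤ -μ) ∨ (a = 3 ∧ b + μ ≤ z.re)

def SInd : Prop :=
  ∀ n p σ, Equil n p σ → ∀ x u u' : ℂ, u ≠ 0 → u' ≠ 0 → airy n p σ x u = airy n p σ x u'

def SKink : Prop :=
  ∀ n p σ (x u : ℂ), ∃ t0 : ℝ, 0 < t0 ∧ ∀ t : ℝ, 0 < t → t < t0 →
    airy n p σ (x + t * u) u + airy n p σ (x - t * u) u - 2 * airy n p σ x u =
      2 * t * kink n p σ x u

def SLip : Prop :=
  ∀ n p σ, Equil n p σ → (Continuous fun x => airy n p σ x 1) ∧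
    ∃ R : ℝ, ∀ x : ℂ, R ≤ ‖x‖ → airy n p σ x 1 = 0

def SMax : Prop :=
  ∀ (f : ℂ → ℝ) (R : ℝ), Continuous f → (∀ x, R ≤ ‖x‖ → f x = 0) →
    (∀ x, ∃ w : ℂ, w ≠ 0 ∧ 2 * f x ≤ f (x + w) + f (x - w)) → ∀ x, f x ≤ 0

def SBar : Prop :=
  ∀ x u a b : ℂ, cr (a - x) (b - x) = 0 → x ∉ segment ℝ a b → |cr u (b - a)| * wt x u a b = 0

def SConv : Prop :=
  ∀ n p σ, Simp n p → Equil n p σ → (∀ i j, i + 2 ≤ j → j ≤ n → 0 ≤ σ i j) →
    ∀ x : ℂ, ∃ u : ℂ, u ≠ 0 ∧ 0 ≤ kink n p σ x u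

def SInj : Prop := ∀ n p, Simp n p → ∀ i j, i < j → j ≤ n → p i ≠ p j

def SHull : Prop :=
  ∀ n (p : ℕ → ℂ), (∀ i j, i < j → j ≤ n → p i ≠ p j) → NonCol n p →
    ∃ i k j, i < k ∧ k < j ∧ j ≤ n ∧ cr (p j - p i) (p k - p i) ≠ 0 ∧
      ((∀ m ≤ n, 0 ≤ cr (p j - p i) (p m - p i)) ∨ ∀ m ≤ n, cr (p j - p i) (p m - p i) ≤ 0)

def SGap : Prop :=
  ∀ n p, Simp n p → ∀ i k j, i < k → k < j → j ≤ n → cr (p j - p i) (p k - p i) ≠ 0 →
    ∃ x ∈ segment ℝ (p i) (p j), ∀ m < n, x ∉ lk p m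

def SNo : Prop :=
  ∀ n p σ, Simp n p → NonCol n p → Equil n p σ → (∀ i j, i + 2 ≤ j → j ≤ n → 0 < σ i j) → False

def SSep : Prop :=
  ∀ n p, Simp n p → NonCol n p → ∃ v : ℕ → ℂ,
    (∀ i < n, dt (v (i + 1) - v i) (p (i + 1) - p i) = 0) ∧
    (∀ i ≤ n, ∀ j ≤ n, 0 ≤ dt (v j - v i) (p j - p i)) ∧
    ∃ i ≤ n, ∃ j ≤ n, 0 < dt (v j - v i) (p j - p i)

def SDel : Prop :=
  ∀ n p k, Simp (n + 1) p → k + 1 ≤ n → cr (p (k + 1) - p k) (p (k + 2) - p (k + 1)) = 0 →
    Simp n (del k p) ∧ ∃ μ : ℝ, 0 < μ ∧ μ < 1 ∧ p (k + 1) = p k + μ * (p (k + 2) - p k)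

def SFrz : Prop :=
  ∀ n p, Simp n p → (∃ m, m + 2 ≤ n ∧ cr (p (m + 1) - p m) (p (m + 2) - p (m + 1)) ≠ 0) →
    ∃ v c, Expa n p v c

def SStay : Prop :=
  ∀ n (γ : ℝ → ℕ → ℂ), (∀ k, Continuous fun t => γ t k) → Simp n (γ 0) →
    (∀ t ∈ Set.Icc (0 : ℝ) 1, (∀ i < n, γ t i ≠ γ t (i + 1)) ∧
      ∀ v ≤ n, ∀ i < n, v ≠ i → v ≠ i + 1 → γ t v ∉ lk (γ t) i) →
    ∀ t ∈ Set.Icc (0 : ℝ) 1, Simp n (γ t)

def SDist : Prop :=
  ∀ n (l φ c : ℕ → ℝ) (v : ℕ → ℂ) (t : ℝ), (∀ m < n, 0 < l m) → Expa n (pos l φ) v c →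
    (∀ m < n, |c m| ≤ 1) → 0 ≤ t → t ≤ 1 → ∀ i ≤ n, ∀ j ≤ n,
      ‖pos l φ j - pos l φ i‖ - (∑ m ∈ range n, l m) * t ^ 2 ≤
        ‖pos l (fun m => φ m + t * c m) j - pos l (fun m => φ m + t * c m) i‖

def SDir : Prop :=
  ∀ n (l φ : ℕ → ℝ), (∀ m < n, 0 < l m) → Simp n (pos l φ) → Tame n φ → pot n φ ≠ 0 →
    ∃ v c, Expa n (pos l φ) v c ∧ (∀ m < n, |c m| ≤ 1) ∧ pot n c = 1 ∧
      ∀ m, m + 2 ≤ n → tau c m * tau φ m ≤ 0 ∧ (tau φ m = 0 → tau c m = 0)

def SStep : Prop :=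
  ∀ n (l φ : ℕ → ℝ) (E s : ℝ), (∀ m < n, 0 < l m) → Simp n (pos l φ) → Tame n φ →
    Sep n (pos l φ) E → 0 < s → s ≤ 1 → 2 * (∑ m ∈ range n, l m) * s ^ 2 < E → pot n φ ≠ 0 →
    ∃ (ψ : ℕ → ℝ) (t : ℝ), 0 < t ∧ t ≤ s ∧ Seg n l φ ψ ∧ Tame n ψ ∧ pot n ψ = pot n φ - t ∧
      dst n φ ψ = t ∧ Sep n (pos l ψ) (E - 2 * (∑ m ∈ range n, l m) * t ^ 2) ∧
      bent n ψ ≤ bent n φ ∧ (t = s ∨ bent n ψ < bent n φ)

def SPath : Prop :=
  ∀ n (l φ : ℕ → ℝ) (E s : ℝ), (∀ m < n, 0 < l m) → Simp n (pos l φ) → Tame n φ →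
    Sep n (pos l φ) E → 0 < s → s ≤ 1 → 4 * (∑ m ∈ range n, l m) * s ^ 2 < E →
    4 * (∑ m ∈ range n, l m) * s * pot n φ ≤ E →
    ∃ (M : ℕ) (Φ : ℕ → ℕ → ℝ), Φ 0 = φ ∧ (M : ℝ) ≤ pot n φ / s + n ∧
      (∀ k < M, Seg n l (Φ k) (Φ (k + 1))) ∧
      (∀ k ≤ M, Simp n (pos l (Φ k)) ∧ Sep n (pos l (Φ k)) (E / 2)) ∧ pot n (Φ M) = 0 ∧
      ∀ k k', k ≤ k' → k' ≤ M → dst n (Φ k) (Φ k') ≤ pot n (Φ k) - pot n (Φ k')

def SSide : Prop :=
  ∀ n (l φ : ℕ → ℝ) (E : ℝ), (∀ m < n, 0 < l m) → Sep n (pos l φ) E →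
    ∀ v ≤ n, ∀ i < n, v ≠ i → v ≠ i + 1 → ∃ a, Side a (E / 4) (l i) (rel l φ v i)

def SChord : Prop :=
  ∀ n (l φ ψ : ℕ → ℝ) (μ s : ℝ), (∀ m < n, 0 < l m) → Simp n (pos l φ) → dst n φ ψ ≤ s →
    s ≤ 1 → 2 * (∑ m ∈ range n, l m) * s ^ 2 < μ →
    (∀ v ≤ n, ∀ i < n, v ≠ i → v ≠ i + 1 →
      ∃ a, Side a μ (l i) (rel l φ v i) ∧ Side a μ (l i) (rel l ψ v i)) → Seg n l φ ψ

def SShort : Prop :=
  ∀ (T : Type) [Fintype T] (M : ℕ) (Q : ℕ → ℕ → Prop) (ty : ℕ → T), (∀ k < M, Q k (k + 1)) →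
    (∀ k k', k ≤ k' → k' ≤ M → ty k = ty k' → Q k k') →
    ∃ (m : ℕ) (a : ℕ → ℕ), m ≤ 2 * Fintype.card T ∧ a 0 = 0 ∧ a m = M ∧
      ∀ i < m, Q (a i) (a (i + 1))

def SUp : Prop :=
  ∀ n, ∃ C : ℝ, 0 ≤ C ∧ ∀ (l φ : ℕ → ℝ) (E L : ℝ), (∀ m < n, 0 < l m ∧ l m ≤ L) →
    Simp n (pos l φ) → Tame n φ → 0 < E → Sep n (pos l φ) E →
    ∃ (m : ℕ) (Ψ : ℕ → ℕ → ℝ), (m : ℝ) ≤ C * (√(L / E) + 1) ∧ Ψ 0 = φ ∧
      (∀ k < m, Seg n l (Ψ k) (Ψ (k + 1))) ∧ pot n (Ψ m) = 0

def SFinA : Prop :=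
  ∀ n (p : Fin (n + 1) → ℂ), IsSimple p → ∃ l φ : ℕ → ℝ,
    (∀ i : Fin n, l i = linkLength p i) ∧ Tame n φ ∧ Simp n (pos l φ) ∧
      ∀ k : Fin (n + 1), p k = p 0 + pos l φ k

def SFinB : Prop :=
  ∀ n (l : ℕ → ℝ) (z : ℂ), (∀ m < n, 0 < l m) →
    (∀ φ ψ, Seg n l φ ψ →
      IsMove (fun k : Fin (n + 1) => z + pos l φ k) (fun k : Fin (n + 1) => z + pos l ψ k)) ∧
    ∀ φ, pot n φ = 0 → IsStraight (fun k : Fin (n + 1) => z + pos l φ k)

end Pool.Agent.MP_7e0f10_lc.R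

end

section

namespace Pool.Agent.MP_7e0f10_lc.R

open Finset

theorem sgn_Ind (a : ℝ) : a = Real.sign a * |a| := by
  rcases lt_trichotomy a 0 with h | h | h
  · rw [Real.sign_of_neg h, abs_of_neg h]; ring
  · rw [h, abs_zero, mul_zero]
  · rw [Real.sign_of_pos h, abs_of_pos h]; ring

theorem fin_Ind {a b c d x y : ℝ} (hx : 0 ≤ x) (hy : 0 ≤ y) (ha : a = -1 ∨ a = 0 ∨ a = 1)
    (hb : b = -1 ∨ b = 0 ∨ b = 1) (hc : c = -1 ∨ c = 0 ∨ c = 1) (hd : d = -1 ∨ d = 0 ∨ d = 1) :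
    |a * d * x - b * c * y| * (a * b - c * d) = (a * d * x - b * c * y) * (b * d - a * c) := by
  rcases abs_cases (a * d * x - b * c * y) with ⟨e, e'⟩ | ⟨e, e'⟩ <;> rw [e] <;> clear e <;>
  rcases ha with rfl | rfl | rfl <;> rcases hb with rfl | rfl | rfl <;>
  rcases hc with rfl | rfl | rfl <;> rcases hd with rfl | rfl | rfl <;> linarith

theorem real_Ind (a b c d : ℝ) :
    |a * d - b * c| * (Real.sign a * Real.sign b - Real.sign c * Real.sign d) =
      (a * d - b * c) * (Real.sign b * Real.sign d - Real.sign a * Real.sign c) := by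
  have h := fin_Ind (mul_nonneg (abs_nonneg a) (abs_nonneg d))
    (mul_nonneg (abs_nonneg b) (abs_nonneg c)) (Real.sign_apply_eq a) (Real.sign_apply_eq b)
    (Real.sign_apply_eq c) (Real.sign_apply_eq d)
  have e1 : Real.sign a * Real.sign d * (|a| * |d|) = a * d := by
    conv_rhs => rw [sgn_Ind a, sgn_Ind d]
    ring
  have e2 : Real.sign b * Real.sign c * (|b| * |c|) = b * c := by
    conv_rhs => rw [sgn_Ind b, sgn_Ind c]
    ring
  rwa [e1, e2] at h

theorem row_Ind {n : ℕ} {p : ℕ → ℂ} {σ : ℕ → ℕ → ℝ} (h : Equil n p σ) (x : ℂ) {i : ℕ}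
    (hi : i ∈ range (n + 1)) : ∑ j ∈ range (n + 1), σ i j * cr (p i - x) (p j - x) = 0 := by
  have e := h.2 i (Nat.lt_succ_iff.1 (mem_range.1 hi))
  have e1 := congrArg Complex.re e
  have e2 := congrArg Complex.im e
  rw [Complex.re_sum] at e1
  rw [Complex.im_sum] at e2
  simp only [Complex.re_ofReal_mul, Complex.im_ofReal_mul, Complex.zero_re, Complex.zero_im] at e1 e2
  have : ∑ j ∈ range (n + 1), σ i j * cr (p i - x) (p j - x) =
      (p i - x).re * ∑ j ∈ range (n + 1), σ i j * (p j - p i).im -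
        (p i - x).im * ∑ j ∈ range (n + 1), σ i j * (p j - p i).re := by
    rw [mul_sum, mul_sum, ← sum_sub_distrib]
    refine sum_congr rfl fun j _ => ?_
    simp only [cr, Complex.sub_re, Complex.sub_im]
    ring
  rw [this, e1, e2]
  ring

theorem zero_Ind {n : ℕ} {p : ℕ → ℂ} {σ : ℕ → ℕ → ℝ} (h : Equil n p σ) (x : ℂ) (T : ℕ → ℝ) :
    ∑ i ∈ range (n + 1), ∑ j ∈ range (n + 1),
      σ i j * (cr (p i - x) (p j - x) * (T j - T i)) = 0 := by
  have e1 : ∑ i ∈ range (n + 1), ∑ j ∈ range (n + 1),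
      T i * (σ i j * cr (p i - x) (p j - x)) = 0 :=
    sum_eq_zero fun i hi => by rw [← mul_sum, row_Ind h x hi, mul_zero]
  have e2 : ∑ i ∈ range (n + 1), ∑ j ∈ range (n + 1),
      T j * (σ j i * cr (p j - x) (p i - x)) = 0 := by rw [sum_comm]; exact e1
  have : ∀ i j, σ i j * (cr (p i - x) (p j - x) * (T j - T i)) =
      -(T j * (σ j i * cr (p j - x) (p i - x))) - T i * (σ i j * cr (p i - x) (p j - x)) := by
    intro i j
    rw [h.1 j i]
    simp only [cr]
    ring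
  simp only [this, sum_sub_distrib, sum_neg_distrib, e1, e2]
  ring

theorem gen_Ind {n : ℕ} {p : ℕ → ℂ} {σ : ℕ → ℕ → ℝ} (h : Equil n p σ) (x u u' : ℂ)
    (hD : cr u u' ≠ 0) : airy n p σ x u = airy n p σ x u' := by
  have z := zero_Ind h x fun i => Real.sign (cr u (p i - x)) * Real.sign (cr u' (p i - x))
  have k : |cr u u'| * (airy n p σ x u' - airy n p σ x u) = cr u u' * 0 := by
    rw [← z]
    unfold airy
    rw [← sum_sub_distrib, mul_sum, mul_sum]
    refine sum_congr rfl fun i _ => ?_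
    rw [← sum_sub_distrib, mul_sum, mul_sum]
    refine sum_congr rfl fun j _ => ?_
    have r := real_Ind (cr u (p i - x)) (cr u (p j - x)) (cr u' (p i - x)) (cr u' (p j - x))
    have pl : cr u (p i - x) * cr u' (p j - x) - cr u (p j - x) * cr u' (p i - x) =
        cr u u' * cr (p i - x) (p j - x) := by
      simp only [cr]
      ring
    rw [pl, abs_mul] at r
    unfold wt
    linear_combination σ i j * r
  rw [mul_zero, mul_eq_zero] at k
  rcases k with k | k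
  · exact absurd (abs_eq_zero.1 k) hD
  · exact (sub_eq_zero.1 k).symm

theorem s_ind : SInd := by
  intro n p σ h x u u' hu hu'
  by_cases hD : cr u u' = 0
  · have n1 : 0 < u.re * u.re + u.im * u.im := by
      have := Complex.normSq_pos.2 hu
      rwa [Complex.normSq_apply] at this
    have n2 : 0 < u'.re * u'.re + u'.im * u'.im := by
      have := Complex.normSq_pos.2 hu'
      rwa [Complex.normSq_apply] at this
    have c1 : cr u (Complex.I * u) = u.re * u.re + u.im * u.im := by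
      simp [cr]
    have c2 : cr u' (Complex.I * u) = u'.re * u.re + u'.im * u.im := by
      simp [cr]
    rw [gen_Ind h x u (Complex.I * u) (by rw [c1]; exact n1.ne'),
      gen_Ind h x u' (Complex.I * u) (fun e => ?_)]
    rw [c2] at e
    unfold cr at hD
    have := mul_pos n1 n2
    have q : (u.re * u.re + u.im * u.im) * (u'.re * u'.re + u'.im * u'.im) =
      (u'.re * u.re + u'.im * u.im) ^ 2 + (u.re * u'.im - u.im * u'.re) ^ 2 := by ring
    rw [q, e, hD] at this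
    norm_num at this
  · exact gen_Ind h x u u' hD

end Pool.Agent.MP_7e0f10_lc.R

end

section

namespace Pool.Agent.MP_7e0f10_lc.R

open Finset

theorem seg_No {a b x : ℂ} (h : x ∈ segment ℝ a b) :
    ∃ s : ℝ, 0 ≤ s ∧ s ≤ 1 ∧ x = a + s * (b - a) := by
  rw [segment_eq_image'] at h
  obtain ⟨s, hs, rfl⟩ := h
  exact ⟨s, hs.1, hs.2, rfl⟩

theorem cl_No (p : ℕ → ℂ) (s : Finset ℕ) : IsClosed (⋃ m ∈ s, lk p m) := by
  refine isClosed_biUnion_finset fun m _ => ?_
  rw [lk, segment_eq_image']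
  exact (isCompact_Icc.image (by fun_prop)).isClosed

theorem last_No (p : ℕ → ℂ) {j : ℕ} (hj : 0 < j) : p j ∈ lk p (j - 1) := by
  rw [lk, Nat.sub_add_cancel hj]
  exact right_mem_segment _ _ _

theorem wt0_No {x u a b : ℂ} (h : 0 < cr u (a - x) * cr u (b - x)) : wt x u a b = 0 := by
  rcases mul_pos_iff.1 h with h | h
  · rw [wt, Real.sign_of_pos h.1, Real.sign_of_pos h.2]; norm_num
  · rw [wt, Real.sign_of_neg h.1, Real.sign_of_neg h.2]; norm_num

theorem wt2_No {x u a b : ℂ} (h : cr u (a - x) * cr u (b - x) < 0) : wt x u a b = 2 := by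
  rcases mul_neg_iff.1 h with h | h
  · rw [wt, Real.sign_of_pos h.1, Real.sign_of_neg h.2]; norm_num
  · rw [wt, Real.sign_of_neg h.1, Real.sign_of_pos h.2]; norm_num

theorem wt_No (x u a b : ℂ) : 0 ≤ wt x u a b := by
  unfold wt
  rcases Real.sign_apply_eq (cr u (a - x)) with h | h | h <;>
    rcases Real.sign_apply_eq (cr u (b - x)) with h' | h' | h' <;> rw [h, h'] <;> norm_num

theorem s_gap : SGap := by
  intro n p hp i k j hik hkj hj hc
  by_contra h
  have h1 : segment ℝ (p i) (p j) ⊆ (⋃ m ∈ range k, lk p m) ∪ ⋃ m ∈ Ico k n, lk p m := by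
    intro x hx
    obtain ⟨m, hm, h2⟩ : ∃ m < n, x ∈ lk p m := by
      by_contra h2
      exact h ⟨x, hx, fun m hm h3 => h2 ⟨m, hm, h3⟩⟩
    rcases lt_or_ge m k with h3 | h3
    · exact Or.inl (Set.mem_biUnion (mem_range.2 h3) h2)
    · exact Or.inr (Set.mem_biUnion (mem_Ico.2 ⟨h3, hm⟩) h2)
  obtain ⟨x, hx, h2, h3⟩ := isPreconnected_closed_iff.1 (convex_segment (p i) (p j)).isPreconnected
    _ _ (cl_No p _) (cl_No p _) h1
    ⟨p i, left_mem_segment _ _ _, Set.mem_biUnion (mem_range.2 hik) (left_mem_segment _ _ _)⟩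
    ⟨p j, right_mem_segment _ _ _, Set.mem_biUnion (x := j - 1) (mem_Ico.2 ⟨by omega, by omega⟩)
      (last_No p (by omega))⟩
  obtain ⟨a, ha, h2⟩ := Set.mem_iUnion₂.1 h2
  obtain ⟨b, hb, h3⟩ := Set.mem_iUnion₂.1 h3
  rw [mem_range] at ha
  rw [mem_Ico] at hb
  obtain ⟨h4, h5⟩ := hp.2 a b (by omega) hb.2 x h2 h3
  obtain rfl : b = k := by omega
  obtain ⟨s, -, -, h6⟩ := seg_No hx
  refine hc ?_
  rw [← h5, h6]
  simp [cr]
  ring

theorem s_no (h1 : SInd) (h2 : SKink) (h3 : SLip) (h4 : SMax) (h5 : SBar) (h6 : SConv) (h7 : SInj)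
    (h8 : SHull) : SNo := by
  intro n p σ hp hn he hσ
  obtain ⟨hc, R, hR⟩ := h3 n p σ he
  have hf := h4 _ R hc hR fun x => by
    obtain ⟨u, hu, k1⟩ := h6 n p σ hp he (fun i j a b => (hσ i j a b).le) x
    obtain ⟨t, ht, k2⟩ := h2 n p σ x u
    have k3 := k2 (t / 2) (by linarith) (by linarith)
    simp only [h1 n p σ he _ u 1 hu one_ne_zero] at k3
    refine ⟨(t / 2 : ℝ) * u, mul_ne_zero (Complex.ofReal_ne_zero.2 (by linarith)) hu, ?_⟩
    nlinarith
  obtain ⟨i, k, j, hik, hkj, hj, hcr, hs⟩ := h8 n p (h7 n p hp) hn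
  obtain ⟨x, hx, hx'⟩ := s_gap n p hp i k j hik hkj hj hcr
  obtain ⟨s, s0, s1, hxs⟩ := seg_No hx
  have s0' : 0 < s := s0.lt_of_ne fun e => hx' i (by omega) (by
    rw [hxs, ← e]
    simpa [lk] using left_mem_segment ℝ (p i) (p (i + 1)))
  have s1' : s < 1 := s1.lt_of_ne fun e => hx' (j - 1) (by omega) (by
    rw [hxs, e]
    simpa using last_No p (j := j) (by omega))
  obtain ⟨ε, e1, e2⟩ : ∃ ε : ℝ, ε * ε = 1 ∧ ∀ m ≤ n, 0 ≤ ε * cr (p j - p i) (p m - p i) := by
    rcases hs with hs | hs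
    · exact ⟨1, one_mul _, fun m hm => by simpa using hs m hm⟩
    · exact ⟨-1, by norm_num, fun m hm => by simpa using hs m hm⟩
  obtain ⟨d, hd⟩ : ∃ d, d = p j - p i := ⟨_, rfl⟩
  have d0 : d ≠ 0 := hd ▸ sub_ne_zero.2 (h7 n p hp i j (by omega) hj).symm
  have d1 : 0 < d.re * d.re + d.im * d.im := Complex.normSq_pos.2 d0
  rw [← hd] at hxs e2
  obtain ⟨u, hu⟩ : ∃ u : ℂ, u = -(ε * Complex.I * d) := ⟨_, rfl⟩
  have c1 : cr u d = ε * (d.re * d.re + d.im * d.im) := by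
    simp [hu, cr]
    ring
  have c2 : cr u d * cr u d = (d.re * d.re + d.im * d.im) ^ 2 := by
    rw [c1]
    linear_combination (d.re * d.re + d.im * d.im) ^ 2 * e1
  have c3 : 0 < cr u d * cr u d := by rw [c2]; positivity
  have u0 : u ≠ 0 := fun e => by simp [e, cr] at c3
  have z1 : ∀ t : ℝ, 0 < t → airy n p σ (x + t * u) 1 = 0 := fun t ht => by
    have k1 : ∀ m ≤ n, 0 < ε * cr d (p m - (x + t * u)) := fun m hm => by
      have : ε * cr d (p m - (x + t * u)) =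
          ε * cr d (p m - p i) + t * (ε * ε) * (d.re * d.re + d.im * d.im) := by
        simp [hxs, hu, cr]
        ring
      rw [this, e1]
      have := e2 m hm
      positivity
    rw [h1 n p σ he _ 1 d one_ne_zero d0]
    refine sum_eq_zero fun a ha => sum_eq_zero fun b hb => ?_
    have k2 := mul_pos (k1 a (by simpa [Nat.lt_succ_iff] using ha))
      (k1 b (by simpa [Nat.lt_succ_iff] using hb))
    rw [mul_mul_mul_comm, e1, one_mul] at k2
    rw [wt0_No k2, mul_zero, mul_zero]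
  have z0 : airy n p σ x 1 = 0 := by
    have k1 : Continuous fun t : ℝ => airy n p σ (x + t * u) 1 := hc.comp (by fun_prop)
    have k2 : (0 : ℝ) ∈ closure (Set.Ioi (0 : ℝ)) := by simp
    simpa using (isClosed_eq k1 continuous_const).closure_subset_iff.2 z1 k2
  have kp : 0 < kink n p σ x u := by
    have nn : ∀ a ≤ n, ∀ b ≤ n, 0 ≤ (if cr (p a - x) (p b - x) = 0 then
        σ a b * (|cr u (p b - p a)| * wt x u (p a) (p b)) else 0) := by
      intro a ha b hb
      split_ifs with h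
      swap
      · exact le_rfl
      have k1 := mul_nonneg (abs_nonneg (cr u (p b - p a))) (wt_No x u (p a) (p b))
      rcases (by omega : a + 2 ≤ b ∨ b + 2 ≤ a ∨ b = a + 1 ∨ a = b + 1 ∨ a = b) with
        k | k | rfl | rfl | rfl
      · exact mul_nonneg (hσ a b k hb).le k1
      · exact mul_nonneg (he.1 a b ▸ (hσ b a k ha).le) k1
      · rw [h5 x u _ _ h (hx' a hb), mul_zero]
      · rw [h5 x u _ _ h (by rw [segment_symm]; exact hx' b ha), mul_zero]
      · simp [cr]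
    have a1 : p i - x = (-s : ℝ) * d := by rw [hxs]; push_cast; ring
    have a2 : p j - x = (1 - s : ℝ) * d := by rw [hxs, hd]; push_cast; ring
    have a3 : ∀ r : ℝ, cr u (r * d) = r * cr u d := fun r => by
      simp [cr]
      ring
    refine sum_pos' (fun a ha => sum_nonneg fun b hb => nn a (Nat.lt_succ_iff.1 (mem_range.1 ha))
      b (Nat.lt_succ_iff.1 (mem_range.1 hb))) ⟨i, mem_range.2 (by omega), sum_pos'
        (fun b hb => nn i (by omega) b (Nat.lt_succ_iff.1 (mem_range.1 hb)))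
        ⟨j, mem_range.2 (by omega), ?_⟩⟩
    rw [if_pos (by rw [a1, a2]; simp [cr]; ring), wt2_No, ← hd]
    · exact mul_pos (hσ i j (by omega) hj)
        (mul_pos (abs_pos.2 (left_ne_zero_of_mul c3.ne')) two_pos)
    · rw [a1, a2, a3, a3, mul_mul_mul_comm]
      exact mul_neg_of_neg_of_pos (mul_neg_of_neg_of_pos (by linarith) (by linarith)) c3
  obtain ⟨t, ht, k2⟩ := h2 n p σ x u
  have k3 := k2 (t / 2) (by linarith) (by linarith)
  simp only [h1 n p σ he _ u 1 u0 one_ne_zero] at k3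
  have k4 := hf (x - (t / 2 : ℝ) * u)
  rw [z1 _ (by linarith), z0] at k3
  nlinarith

end Pool.Agent.MP_7e0f10_lc.R

end

section

namespace Pool.Agent.MP_7e0f10_lc.R

open Finset

theorem mem_Stay {a b x : ℂ} :
    x ∈ segment ℝ a b ↔ ∃ s : ℝ, 0 ≤ s ∧ s ≤ 1 ∧ x = a + s * (b - a) := by
  rw [segment_eq_image']
  constructor
  · rintro ⟨s, ⟨h0, h1⟩, rfl⟩
    exact ⟨s, h0, h1, by simp⟩
  · rintro ⟨s, h0, h1, rfl⟩
    exact ⟨s, ⟨h0, h1⟩, by simp⟩

/-- Of two points on a ray, one lies between the origin of the ray and the other. -/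
theorem ray_Stay (x u : ℂ) {α β : ℝ} (hα : 0 ≤ α) (hβ : 0 ≤ β) :
    x + α * u ∈ segment ℝ x (x + β * u) ∨ x + β * u ∈ segment ℝ x (x + α * u) := by
  have key : ∀ {α β : ℝ}, 0 ≤ α → α ≤ β → x + α * u ∈ segment ℝ x (x + β * u) := by
    intro α β hα h
    rcases eq_or_lt_of_le (hα.trans h) with h0 | h0
    · have h1 : α = 0 := by linarith
      rw [h1]
      simpa using left_mem_segment ℝ x _
    · refine mem_Stay.2 ⟨α / β, div_nonneg hα h0.le, (div_le_one h0).2 h, ?_⟩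
      have h2 : (β : ℂ) ≠ 0 := by exact_mod_cast h0.ne'
      push_cast
      field_simp
      ring
  rcases le_total α β with h | h
  · exact Or.inl (key hα h)
  · exact Or.inr (key hβ h)

theorem adj_Stay {a b c x : ℂ} (h1 : x ∈ segment ℝ a b) (h2 : x ∈ segment ℝ b c)
    (ha : a ∉ segment ℝ b c) (hc : c ∉ segment ℝ a b) : x = b := by
  by_contra hx
  rw [segment_symm] at h1 hc
  obtain ⟨s, s0, -, hs⟩ := mem_Stay.1 h1
  obtain ⟨r, r0, -, hr⟩ := mem_Stay.1 h2
  have s1 : (s : ℂ) ≠ 0 := fun h => hx (by rw [hs, h]; simp)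
  have r1 : (r : ℂ) ≠ 0 := fun h => hx (by rw [hr, h]; simp)
  have ea : a = b + ((s⁻¹ : ℝ) : ℂ) * (x - b) := by
    rw [hs]
    push_cast
    field_simp
    ring
  have ec : c = b + ((r⁻¹ : ℝ) : ℂ) * (x - b) := by
    rw [hr]
    push_cast
    field_simp
    ring
  rcases ray_Stay b (x - b) (inv_nonneg.2 s0) (inv_nonneg.2 r0) with h | h
  · rw [← ea, ← ec] at h
    exact ha h
  · rw [← ea, ← ec] at h
    exact hc h

/-- Strict crossing. -/
def X_Stay (a b c d : ℂ) : Prop :=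
  cr (b - a) (c - a) * cr (b - a) (d - a) < 0 ∧ cr (d - c) (a - c) * cr (d - c) (b - c) < 0

theorem frac_Stay {P Q : ℝ} (h : P * Q < 0) : P - Q ≠ 0 ∧ 0 ≤ P / (P - Q) ∧ P / (P - Q) ≤ 1 := by
  rcases mul_neg_iff.1 h with ⟨h1, h2⟩ | ⟨h1, h2⟩
  · have h3 : 0 < P - Q := by linarith
    exact ⟨h3.ne', div_nonneg h1.le h3.le, (div_le_one h3).2 (by linarith)⟩
  · have h3 : P - Q < 0 := by linarith
    exact ⟨h3.ne, div_nonneg_of_nonpos h1.le h3.le, (div_le_one_of_neg h3).2 (by linarith)⟩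

theorem meet_Stay {a b c d : ℂ} (h : X_Stay a b c d) :
    ∃ x ∈ segment ℝ a b, x ∈ segment ℝ c d := by
  obtain ⟨n1, r0, r1⟩ := frac_Stay h.1
  obtain ⟨n2, s0, s1⟩ := frac_Stay h.2
  refine ⟨_, mem_Stay.2 ⟨_, s0, s1, rfl⟩, mem_Stay.2 ⟨_, r0, r1, ?_⟩⟩
  have e1 : cr (b - a) (c - a) - cr (b - a) (d - a) = -cr (b - a) (d - c) := by
    simp only [cr, Complex.sub_re, Complex.sub_im]
    ring
  have e2 : cr (d - c) (a - c) - cr (d - c) (b - c) = cr (b - a) (d - c) := by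
    simp only [cr, Complex.sub_re, Complex.sub_im]
    ring
  rw [e2] at n2
  rw [e1, e2]
  generalize hD : cr (b - a) (d - c) = D at n2
  apply Complex.ext
  · simp only [Complex.add_re, Complex.mul_re, Complex.ofReal_re, Complex.ofReal_im,
      Complex.sub_re, Complex.sub_im]
    field_simp
    rw [← hD]
    simp only [cr, Complex.sub_re, Complex.sub_im]
    ring
  · simp only [Complex.add_im, Complex.mul_im, Complex.ofReal_re, Complex.ofReal_im,
      Complex.sub_re, Complex.sub_im]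
    field_simp
    rw [← hD]
    simp only [cr, Complex.sub_re, Complex.sub_im]
    ring

theorem par_Stay {u w : ℂ} (hu : u ≠ 0) (h : cr u w = 0) : ∃ l : ℝ, w = l * u := by
  have h1 : u.re * u.re + u.im * u.im ≠ 0 := by
    rw [← Complex.normSq_apply]
    exact (Complex.normSq_pos.2 hu).ne'
  unfold cr at h
  refine ⟨(u.re * w.re + u.im * w.im) / (u.re * u.re + u.im * u.im), Complex.ext ?_ ?_⟩
  · simp only [Complex.mul_re, Complex.ofReal_re, Complex.ofReal_im, zero_mul, sub_zero]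
    rw [div_mul_eq_mul_div, eq_div_iff h1]
    linear_combination (-u.im) * h
  · simp only [Complex.mul_im, Complex.ofReal_re, Complex.ofReal_im, zero_mul, add_zero]
    rw [div_mul_eq_mul_div, eq_div_iff h1]
    linear_combination u.re * h

theorem cross_Stay {a b c d x : ℂ} (h1 : x ∈ segment ℝ a b) (h2 : x ∈ segment ℝ c d)
    (ha : a ∉ segment ℝ c d) (hb : b ∉ segment ℝ c d) (hc : c ∉ segment ℝ a b)
    (hd : d ∉ segment ℝ a b) : X_Stay a b c d := by
  obtain ⟨s, s0, s1, hs⟩ := mem_Stay.1 h1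
  obtain ⟨r, r0, r1, hr⟩ := mem_Stay.1 h2
  have s2 : 0 < s := lt_of_le_of_ne s0 fun h => ha (by
    have : x = a := by rw [hs, ← h]; simp
    exact this ▸ h2)
  have s3 : s < 1 := lt_of_le_of_ne s1 fun h => hb (by
    have : x = b := by rw [hs, h]; simp
    exact this ▸ h2)
  have r2 : 0 < r := lt_of_le_of_ne r0 fun h => hc (by
    have : x = c := by rw [hr, ← h]; simp
    exact this ▸ h1)
  have r3 : r < 1 := lt_of_le_of_ne r1 fun h => hd (by
    have : x = d := by rw [hr, h]; simp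
    exact this ▸ h1)
  have hD : cr (b - a) (d - c) ≠ 0 := by
    intro hD
    have hu : b - a ≠ 0 := fun h => ha (by
      have : x = a := by rw [hs, h]; simp
      exact this ▸ h2)
    obtain ⟨l, hl⟩ := par_Stay hu hD
    have sb : segment ℝ x b ⊆ segment ℝ a b :=
      (convex_segment a b).segment_subset h1 (right_mem_segment ℝ a b)
    have eb : b = x + ((1 - s : ℝ) : ℂ) * (b - a) := by
      rw [hs]
      push_cast
      ring
    rcases le_total 0 l with h | h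
    · have ed : d = x + (((1 - r) * l : ℝ) : ℂ) * (b - a) := by
        push_cast
        linear_combination (-1 : ℂ) * hr + (1 - r) * hl
      rcases ray_Stay x (b - a) (sub_nonneg.2 s1) (mul_nonneg (sub_nonneg.2 r1) h) with h3 | h3
      · rw [← eb, ← ed] at h3
        exact hb ((convex_segment c d).segment_subset h2 (right_mem_segment ℝ c d) h3)
      · rw [← eb, ← ed] at h3
        exact hd (sb h3)
    · have ec : c = x + ((r * -l : ℝ) : ℂ) * (b - a) := by
        push_cast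
        linear_combination (-1 : ℂ) * hr - r * hl
      rcases ray_Stay x (b - a) (sub_nonneg.2 s1) (mul_nonneg r0 (neg_nonneg.2 h)) with h3 | h3
      · rw [← eb, ← ec] at h3
        exact hb ((convex_segment c d).segment_subset h2 (left_mem_segment ℝ c d) h3)
      · rw [← eb, ← ec] at h3
        exact hc (sb h3)
  have hx := hs.symm.trans hr
  have xr := congrArg Complex.re hx
  have xi := congrArg Complex.im hx
  simp only [Complex.add_re, Complex.mul_re, Complex.ofReal_re, Complex.ofReal_im,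
    Complex.sub_re, Complex.sub_im, Complex.add_im, Complex.mul_im] at xr xi
  have eP : cr (b - a) (c - a) = -r * cr (b - a) (d - c) := by
    simp only [cr, Complex.sub_re, Complex.sub_im]
    linear_combination (b.im - a.im) * xr - (b.re - a.re) * xi
  have eQ : cr (b - a) (d - a) = (1 - r) * cr (b - a) (d - c) := by
    simp only [cr, Complex.sub_re, Complex.sub_im]
    linear_combination (b.im - a.im) * xr - (b.re - a.re) * xi
  have eR : cr (d - c) (a - c) = s * cr (b - a) (d - c) := by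
    simp only [cr, Complex.sub_re, Complex.sub_im]
    linear_combination (d.re - c.re) * xi - (d.im - c.im) * xr
  have eS : cr (d - c) (b - c) = -(1 - s) * cr (b - a) (d - c) := by
    simp only [cr, Complex.sub_re, Complex.sub_im]
    linear_combination (d.re - c.re) * xi - (d.im - c.im) * xr
  have hD2 : 0 < cr (b - a) (d - c) ^ 2 := by positivity
  unfold X_Stay
  rw [eP, eQ, eR, eS]
  constructor
  · nlinarith [mul_pos (mul_pos r2 (sub_pos.2 r3)) hD2]
  · nlinarith [mul_pos (mul_pos s2 (sub_pos.2 s3)) hD2]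

theorem closed_Stay {a b c d : ℝ → ℂ} (ha : Continuous a) (hb : Continuous b)
    (hc : Continuous c) (hd : Continuous d) :
    IsClosed {t | ∃ x ∈ segment ℝ (a t) (b t), x ∈ segment ℝ (c t) (d t)} := by
  have h := isClosedMap_fst_of_compactSpace (X := ℝ) (Y := Set.Icc (0 : ℝ) 1 × Set.Icc (0 : ℝ) 1)
    {z | a z.1 + (z.2.1 : ℝ) * (b z.1 - a z.1) = c z.1 + (z.2.2 : ℝ) * (d z.1 - c z.1)}
    (isClosed_eq (by fun_prop) (by fun_prop))
  convert h using 1
  ext t
  constructor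
  · rintro ⟨x, h1, h2⟩
    obtain ⟨s, s0, s1, hs⟩ := mem_Stay.1 h1
    obtain ⟨r, r0, r1, hr⟩ := mem_Stay.1 h2
    exact ⟨(t, ⟨s, s0, s1⟩, ⟨r, r0, r1⟩), hs.symm.trans hr, rfl⟩
  · rintro ⟨⟨t, ⟨s, s0, s1⟩, ⟨r, r0, r1⟩⟩, h1, rfl⟩
    exact ⟨_, mem_Stay.2 ⟨s, s0, s1, rfl⟩, mem_Stay.2 ⟨r, r0, r1, h1⟩⟩

theorem open_Stay {a b c d : ℝ → ℂ} (ha : Continuous a) (hb : Continuous b)
    (hc : Continuous c) (hd : Continuous d) : IsOpen {t | X_Stay (a t) (b t) (c t) (d t)} := by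
  have h1 : Continuous fun t => cr (b t - a t) (c t - a t) * cr (b t - a t) (d t - a t) := by
    unfold cr
    fun_prop
  have h2 : Continuous fun t => cr (d t - c t) (a t - c t) * cr (d t - c t) (b t - c t) := by
    unfold cr
    fun_prop
  exact (isOpen_lt h1 continuous_const).inter (isOpen_lt h2 continuous_const)

theorem s_stay : SStay := by
  intro n γ hγ h0 H t ht
  refine ⟨(H t ht).1, fun i j hij hj x hi hx => ?_⟩
  by_cases hadj : j = i + 1
  · subst hadj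
    exact ⟨rfl, adj_Stay hi hx ((H t ht).2 i (by omega) (i + 1) hj (by omega) (by omega))
      ((H t ht).2 (i + 1 + 1) (by omega) i (by omega) (by omega) (by omega))⟩
  · exfalso
    have hV := (closed_Stay (hγ i) (hγ (i + 1)) (hγ j) (hγ (j + 1))).isOpen_compl
    have hU := open_Stay (hγ i) (hγ (i + 1)) (hγ j) (hγ (j + 1))
    have hsub := (isPreconnected_Icc (a := (0 : ℝ)) (b := 1)).subset_left_of_subset_union hV hU
      (Set.disjoint_left.2 fun s hs hs' => hs (meet_Stay hs')) (by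
        intro s hs
        by_cases h : ∃ x ∈ lk (γ s) i, x ∈ lk (γ s) j
        · obtain ⟨y, y1, y2⟩ := h
          have G := (H s hs).2
          exact Or.inr (cross_Stay y1 y2 (G i (by omega) j hj (by omega) (by omega))
            (G (i + 1) (by omega) j hj (by omega) (by omega))
            (G j (by omega) i (by omega) (by omega) (by omega))
            (G (j + 1) (by omega) i (by omega) (by omega) (by omega)))
        · exact Or.inl h)
      ⟨0, Set.mem_inter (Set.left_mem_Icc.2 zero_le_one) fun ⟨y, y1, y2⟩ =>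
        hadj (h0.2 i j hij hj y y1 y2).1⟩
    exact hsub ht ⟨x, hi, hx⟩

end Pool.Agent.MP_7e0f10_lc.R

end

section

namespace Pool.Agent.MP_7e0f10_lc.R

open Finset

theorem succ_Dir (l φ : ℕ → ℝ) (m : ℕ) :
    pos l φ (m + 1) - pos l φ m = (l m : ℂ) * Complex.exp ((φ m : ℂ) * Complex.I) := by
  rw [pos, pos, sum_range_succ, add_sub_cancel_left]

theorem norm_Dir (w y : ℂ) (t : ℝ) (h : 0 ≤ dt y w) (ht : 0 ≤ t) : ‖w‖ ≤ ‖w + t * y‖ := by
  rw [← sq_le_sq₀ (norm_nonneg _) (norm_nonneg _), Complex.sq_norm, Complex.sq_norm,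
    Complex.normSq_apply, Complex.normSq_apply]
  simp only [dt] at h
  simp only [Complex.add_re, Complex.add_im, Complex.re_ofReal_mul, Complex.im_ofReal_mul]
  nlinarith [mul_nonneg ht h, sq_nonneg (t * y.re), sq_nonneg (t * y.im)]

theorem s_dist : SDist := by
  intro n l φ c v t hl hE hc h0 h1
  set ψ : ℕ → ℝ := fun m => φ m + t * c m with hψ
  have key : ∀ i k, i + k ≤ n → ‖pos l ψ (i + k) - pos l ψ i - (pos l φ (i + k) - pos l φ i +
      t * (v (i + k) - v i))‖ ≤ (∑ m ∈ range (i + k), l m) * t ^ 2 := by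
    intro i k
    induction k with
    | zero =>
      intro hi
      simp only [add_zero, sub_self, mul_zero, norm_zero]
      exact mul_nonneg (sum_nonneg fun m hm => (hl m (by simp at hm; omega)).le) (sq_nonneg t)
    | succ k ih =>
      intro hi
      have hm : i + k < n := by omega
      have e1 := succ_Dir l ψ (i + k)
      have e2 := succ_Dir l φ (i + k)
      have e3 := hE.1 (i + k) hm
      rw [e2] at e3
      have hx : ‖((t * c (i + k) : ℝ) : ℂ) * Complex.I‖ = |t * c (i + k)| := by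
        rw [norm_mul, Complex.norm_I, mul_one, Complex.norm_real, Real.norm_eq_abs]
      have hx1 : |t * c (i + k)| ≤ t := by
        rw [abs_mul, abs_of_nonneg h0]
        exact mul_le_of_le_one_right h0 (hc _ hm)
      have e4 := Complex.norm_exp_sub_one_sub_id_le (x := ((t * c (i + k) : ℝ) : ℂ) * Complex.I)
        (by rw [hx]; exact hx1.trans h1)
      rw [hx] at e4
      have e5 : pos l ψ (i + (k + 1)) - pos l ψ i - (pos l φ (i + (k + 1)) - pos l φ i +
          t * (v (i + (k + 1)) - v i)) = (pos l ψ (i + k) - pos l ψ i -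
          (pos l φ (i + k) - pos l φ i + t * (v (i + k) - v i))) +
          (l (i + k) : ℂ) * Complex.exp ((φ (i + k) : ℂ) * Complex.I) *
            (Complex.exp (((t * c (i + k) : ℝ) : ℂ) * Complex.I) - 1 -
              ((t * c (i + k) : ℝ) : ℂ) * Complex.I) := by
        have e6 : Complex.exp ((ψ (i + k) : ℂ) * Complex.I) =
            Complex.exp ((φ (i + k) : ℂ) * Complex.I) *
              Complex.exp (((t * c (i + k) : ℝ) : ℂ) * Complex.I) := by
          rw [← Complex.exp_add, hψ]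
          push_cast
          ring_nf
        rw [e6] at e1
        rw [← add_assoc]
        push_cast at e1 ⊢
        linear_combination e1 - e2 - t * e3
      rw [e5, ← add_assoc, sum_range_succ, add_mul]
      refine (norm_add_le _ _).trans (add_le_add (ih hm.le) ?_)
      rw [norm_mul, norm_mul, Complex.norm_exp_ofReal_mul_I, mul_one, Complex.norm_real,
        Real.norm_eq_abs, abs_of_pos (hl _ hm)]
      exact mul_le_mul_of_nonneg_left
        (e4.trans (pow_le_pow_left₀ (abs_nonneg _) hx1 2)) (hl _ hm).le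
  have main : ∀ i j, i ≤ j → j ≤ n → ‖pos l φ j - pos l φ i‖ - (∑ m ∈ range n, l m) * t ^ 2 ≤
      ‖pos l ψ j - pos l ψ i‖ := by
    intro i j hij hj
    obtain ⟨k, rfl⟩ := Nat.exists_eq_add_of_le hij
    have a1 := key i k hj
    have a2 := norm_Dir _ _ t (hE.2.1 i (by omega) (i + k) hj) h0
    have a3 : (∑ m ∈ range (i + k), l m) * t ^ 2 ≤ (∑ m ∈ range n, l m) * t ^ 2 :=
      mul_le_mul_of_nonneg_right (sum_le_sum_of_subset_of_nonneg (range_mono hj)
        fun m hm _ => (hl m (mem_range.1 hm)).le) (sq_nonneg t)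
    have a4 := norm_sub_norm_le (pos l φ (i + k) - pos l φ i + t * (v (i + k) - v i))
      (pos l ψ (i + k) - pos l ψ i)
    rw [norm_sub_rev] at a1
    linarith
  intro i hi j hj
  rcases le_total i j with h | h
  · exact main i j h hj
  · rw [norm_sub_rev, norm_sub_rev (pos l ψ j)]
    exact main j i h hi

theorem cr_Dir (l φ : ℕ → ℝ) (m : ℕ) :
    cr (pos l φ (m + 1) - pos l φ m) (pos l φ (m + 2) - pos l φ (m + 1)) =
      l m * l (m + 1) * Real.sin (tau φ m) := by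
  rw [succ_Dir, succ_Dir l φ (m + 1), cr, tau, Real.sin_sub]
  simp only [Complex.re_ofReal_mul, Complex.im_ofReal_mul, Complex.exp_ofReal_mul_I_re,
    Complex.exp_ofReal_mul_I_im]
  ring

theorem sin_Dir {x : ℝ} (h : |x| < Real.pi) (h0 : x ≠ 0) : 0 < x * Real.sin x := by
  rw [abs_lt] at h
  rcases lt_or_gt_of_ne h0 with h1 | h1
  · exact mul_pos_of_neg_of_neg h1 (Real.sin_neg_of_neg_of_neg_pi_lt h1 h.1)
  · exact mul_pos h1 (Real.sin_pos_of_pos_of_lt_pi h1 h.2)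

theorem s_dir (h : SFrz) : SDir := by
  intro n l φ hl hS hT hp
  have hll : ∀ m, m + 2 ≤ n → 0 < l m * l (m + 1) := fun m hm =>
    mul_pos (hl m (by omega)) (hl _ (by omega))
  obtain ⟨m0, hm0, hτ⟩ := exists_ne_zero_of_sum_ne_zero hp
  have hm1 : m0 + 2 ≤ n := by rw [mem_range] at hm0; omega
  obtain ⟨v, c, e1, e2, e3, m1, hm2, e4⟩ := h n _ hS ⟨m0, hm1, by
    rw [cr_Dir]
    refine mul_ne_zero (hll m0 hm1).ne' fun h0 => ?_
    have := sin_Dir (hT m0 hm1) (abs_ne_zero.1 hτ)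
    rw [h0, mul_zero] at this
    exact lt_irrefl _ this⟩
  have hW : 0 < pot n c := sum_pos' (fun _ _ => abs_nonneg _)
    ⟨m1, mem_range.2 (by omega), abs_pos.2 (sub_ne_zero.2 e4.symm)⟩
  set W := pot n c with hWd
  have ht : ∀ m, tau (fun m => (c m - c 0) / W) m = tau c m / W := fun m => by
    simp only [tau]
    ring
  have hW' : (W : ℂ) ≠ 0 := by exact_mod_cast hW.ne'
  refine ⟨fun m => (v m - Complex.I * (c 0 : ℂ) * pos l φ m) / W, fun m => (c m - c 0) / W,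
    ⟨fun m hm => ?_, fun i hi j hj => ?_, fun m hm h0 => by simp only [e3 m hm h0], m1, hm2, fun h0 => ?_⟩,
    fun m hm => ?_, ?_, fun m hm => ⟨?_, fun h0 => ?_⟩⟩
  · push_cast
    field_simp
    linear_combination e1 m hm
  · have : dt ((v j - Complex.I * (c 0 : ℂ) * pos l φ j) / W -
        (v i - Complex.I * (c 0 : ℂ) * pos l φ i) / W) (pos l φ j - pos l φ i) =
        dt (v j - v i) (pos l φ j - pos l φ i) / W := by
      simp only [dt, Complex.sub_re, Complex.sub_im, Complex.div_ofReal_re, Complex.div_ofReal_im,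
        Complex.mul_re, Complex.mul_im, Complex.I_re, Complex.I_im, Complex.ofReal_re,
        Complex.ofReal_im]
      ring
    rw [this]
    exact div_nonneg (e2 i hi j hj) hW.le
  · rw [div_left_inj' hW.ne', sub_left_inj] at h0
    exact e4 h0
  · rw [abs_div, abs_of_pos hW, div_le_one hW, ← sum_range_sub c m]
    exact (abs_sum_le_sum_abs _ _).trans (sum_le_sum_of_subset_of_nonneg
      (range_mono (by omega)) fun _ _ _ => abs_nonneg _)
  · rw [pot]
    simp only [ht, abs_div, abs_of_pos hW]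
    rw [← sum_div]
    exact div_self hW.ne'
  · have a1 := e2 m (by omega) (m + 2) hm
    have a2 : v (m + 2) - v m = Complex.I * (c m : ℂ) * (pos l φ (m + 1) - pos l φ m) +
        Complex.I * (c (m + 1) : ℂ) * (pos l φ (m + 2) - pos l φ (m + 1)) := by
      rw [← e1 m (by omega), ← e1 (m + 1) (by omega)]
      ring
    have a3 : dt (v (m + 2) - v m) (pos l φ (m + 2) - pos l φ m) =
        -tau c m * cr (pos l φ (m + 1) - pos l φ m) (pos l φ (m + 2) - pos l φ (m + 1)) := by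
      rw [a2]
      simp only [dt, cr, tau, Complex.sub_re, Complex.sub_im, Complex.add_re, Complex.add_im,
        Complex.mul_re, Complex.mul_im, Complex.I_re, Complex.I_im, Complex.ofReal_re,
        Complex.ofReal_im]
      ring
    rw [a3, cr_Dir] at a1
    rw [ht, div_mul_eq_mul_div]
    refine div_nonpos_of_nonpos_of_nonneg ?_ hW.le
    by_cases h0 : tau φ m = 0
    · rw [h0, mul_zero]
    have a4 := mul_pos (hll m hm) (sin_Dir (hT m hm) h0)
    by_contra a5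
    push Not at a5
    have a6 := mul_pos a5 a4
    have a7 := mul_nonneg a1 (sq_nonneg (tau φ m))
    nlinarith
  · rw [ht, tau, e3 m hm (by rw [cr_Dir, h0, Real.sin_zero, mul_zero]), sub_self, zero_div]

end Pool.Agent.MP_7e0f10_lc.R

end

section

/-! Shortcuts between chains of the same type, and the upper bound for the number of moves. -/

namespace Pool.Agent.MP_7e0f10_lc.R

open Finset

theorem s_short : SShort := by
  classical
  intro T _ M Q ty h1 h2
  suffices H : ∀ d k, k + d = M → ∃ (m : ℕ) (a : ℕ → ℕ), m ≤ 2 * ((Icc k M).image ty).card ∧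
      a 0 = k ∧ a m = M ∧ ∀ i < m, Q (a i) (a (i + 1)) by
    obtain ⟨m, a, b1, b2⟩ := H M 0 (zero_add M)
    exact ⟨m, a, b1.trans (Nat.mul_le_mul_left 2 (card_le_univ _)), b2⟩
  intro d
  induction d using Nat.strong_induction_on with
  | _ d ih =>
    intro k hk
    have hkM : k ∈ Icc k M := mem_Icc.2 ⟨le_rfl, by omega⟩
    obtain ⟨j, hj, hmax⟩ := ((Icc k M).filter fun j => ty k = ty j).exists_max_image id
      ⟨k, mem_filter.2 ⟨hkM, rfl⟩⟩
    obtain ⟨hj1, hj2⟩ := mem_filter.1 hj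
    obtain ⟨j1, j2⟩ := mem_Icc.1 hj1
    have hQ := h2 k j j1 j2 hj2
    rcases j2.eq_or_lt with rfl | hlt
    · refine ⟨1, fun i => if i = 0 then k else j, ?_, rfl, rfl, fun i hi => ?_⟩
      · have := card_pos.2 ⟨_, mem_image_of_mem ty hkM⟩
        omega
      · obtain rfl : i = 0 := by omega
        exact hQ
    · obtain ⟨m, a, b1, b2, b3, b4⟩ := ih (M - (j + 1)) (by omega) (j + 1) (by omega)
      have hc : ((Icc (j + 1) M).image ty).card < ((Icc k M).image ty).card := by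
        refine card_lt_card ⟨image_subset_image (Icc_subset_Icc_left (by omega)), fun h => ?_⟩
        obtain ⟨i, hi, e⟩ := mem_image.1 (h (mem_image_of_mem ty hkM))
        obtain ⟨i1, i2⟩ := mem_Icc.1 hi
        have := hmax i (mem_filter.2 ⟨mem_Icc.2 ⟨by omega, i2⟩, e.symm⟩)
        simp only [id] at this
        omega
      refine ⟨m + 2, fun i => match i with | 0 => k | 1 => j | i + 2 => a i, by omega, rfl, b3,
        fun i hi => ?_⟩
      match i, hi with
      | 0, _ => exact hQ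
      | 1, _ =>
        show Q j (a 0)
        rw [b2]
        exact h1 j hlt
      | i + 2, hi => exact b4 i (by omega)

theorem pot_Up {n : ℕ} {φ : ℕ → ℝ} (h : Tame n φ) : pot n φ ≤ n * Real.pi := by
  refine (sum_le_card_nsmul _ _ Real.pi fun m hm => (h m ?_).le).trans ?_
  · have := mem_range.1 hm
    omega
  · rw [card_range, nsmul_eq_mul]
    exact mul_le_mul_of_nonneg_right (by exact_mod_cast Nat.sub_le n 1) Real.pi_pos.le

theorem s_up (h1 : SPath) (h2 : SSide) (h3 : SChord) : SUp := by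
  classical
  intro n
  refine ⟨2 * 4 ^ (n * (n + 1)) * (n * Real.pi * (1 + √(32 * n)) + 1), by positivity, ?_⟩
  intro l φ E L hl hS hT hE hsep
  have hl0 : ∀ m < n, 0 < l m := fun m hm => (hl m hm).1
  have p0 : ∀ f, 0 ≤ pot n f := fun f => sum_nonneg fun _ _ => abs_nonneg _
  have S0 : 0 ≤ ∑ m ∈ range n, l m := sum_nonneg fun m hm => (hl0 m (mem_range.1 hm)).le
  have S1 : ∑ m ∈ range n, l m ≤ n * L := by
    have := sum_le_card_nsmul (range n) l L fun m hm => (hl m (mem_range.1 hm)).2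
    rwa [card_range, nsmul_eq_mul] at this
  have P0 := p0 φ
  have P1 := pot_Up hT
  set S := ∑ m ∈ range n, l m with hSd
  have hD : 0 < E + 4 * S * (pot n φ + 2) := by positivity
  obtain ⟨s, s0, s1, s2⟩ : ∃ s : ℝ, 0 < s ∧ s ≤ 1 ∧ s * (4 * S * (pot n φ + 2)) ≤ E := by
    refine ⟨E / (E + 4 * S * (pot n φ + 2)), by positivity, ?_, ?_⟩
    · rw [div_le_one hD]
      exact le_add_of_nonneg_right (by positivity)
    · rw [div_mul_eq_mul_div, div_le_iff₀ hD]
      exact mul_le_mul_of_nonneg_left (le_add_of_nonneg_left hE.le) hE.le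
  have s3 : 0 ≤ S * s := by positivity
  obtain ⟨M, Φ, f0, -, f1, f2, f3, f4⟩ := h1 n l φ E s hl0 hS hT hsep s0 s1
    (by nlinarith [mul_le_mul_of_nonneg_left s1 s3, mul_nonneg s3 P0]) (by nlinarith)
  set x := √(L / E) with hx
  set c := √(32 * (n : ℝ)) with hc
  have x0 : 0 ≤ x := Real.sqrt_nonneg _
  have c0 : 0 ≤ c := Real.sqrt_nonneg _
  have x1 : L ≤ x ^ 2 * E := by
    rw [← div_le_iff₀ hE, hx, Real.sq_sqrt']
    exact le_max_left _ _
  have c1 : c ^ 2 = 32 * n := Real.sq_sqrt (by positivity)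
  have r0 : 0 < 1 + c * x := by positivity
  set u := (1 + c * x)⁻¹ with hu
  have u0 : 0 < u := by positivity
  have u1 : u * (1 + c * x) = 1 := inv_mul_cancel₀ r0.ne'
  have u2 : 0 ≤ u * (c * x) := by positivity
  have u3 : 2 * S * u ^ 2 < E / 2 / 4 := by
    have a1 : (u * (c * x)) ^ 2 ≤ 1 := pow_le_one₀ u2 (by nlinarith)
    have a2 : S ≤ n * (x ^ 2 * E) := S1.trans (mul_le_mul_of_nonneg_left x1 n.cast_nonneg)
    calc 2 * S * u ^ 2 ≤ 2 * (n * (x ^ 2 * E)) * u ^ 2 := by gcongr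
      _ = E / 16 * (u * (c * x)) ^ 2 := by rw [mul_pow, mul_pow, c1]; ring
      _ ≤ E / 16 * 1 := by gcongr
      _ < E / 2 / 4 := by linarith
  have hside : ∀ k v i, ∃ a, k ≤ M → v ≤ n → i < n → v ≠ i → v ≠ i + 1 →
      Side a (E / 2 / 4) (l i) (rel l (Φ k) v i) := by
    intro k v i
    by_cases h : k ≤ M ∧ v ≤ n ∧ i < n ∧ v ≠ i ∧ v ≠ i + 1
    · obtain ⟨a, ha⟩ := h2 n l (Φ k) (E / 2) hl0 (f2 k h.1).2 v h.2.1 i h.2.2.1 h.2.2.2.1 h.2.2.2.2
      exact ⟨a, fun _ _ _ _ _ => ha⟩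
    · exact ⟨0, fun a b c d e => absurd ⟨a, b, c, d, e⟩ h⟩
  choose sd hsd using hside
  set B := ⌊n * Real.pi / u⌋₊ with hB
  have hfl : ∀ k ≤ M, ⌊pot n (Φ k) / u⌋₊ ≤ B := by
    intro k hk
    have a1 := f4 0 k (Nat.zero_le k) hk
    have a2 : 0 ≤ dst n (Φ 0) (Φ k) := sum_nonneg fun _ _ => abs_nonneg _
    rw [f0] at a1 a2
    exact Nat.floor_mono (div_le_div_of_nonneg_right (by linarith) u0.le)
  obtain ⟨m, a, b1, b2, b3, b4⟩ := s_short (Fin (B + 1) × (Fin (n + 1) → Fin n → Fin 4)) M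
    (fun k k' => Seg n l (Φ k) (Φ k'))
    (fun k => (⟨min B ⌊pot n (Φ k) / u⌋₊, Nat.lt_succ_of_le (min_le_left _ _)⟩,
      fun v i => sd k v i)) f1 (by
      intro k k' hk hk' e
      obtain ⟨e1, e2⟩ := Prod.ext_iff.1 e
      have e3 : ⌊pot n (Φ k) / u⌋₊ = ⌊pot n (Φ k') / u⌋₊ := by
        have := congrArg Fin.val e1
        simp only [min_eq_right (hfl k (hk.trans hk')), min_eq_right (hfl k' hk')] at this
        exact this
      refine h3 n l _ _ (E / 2 / 4) u hl0 (f2 k (hk.trans hk')).1 ((f4 k k' hk hk').trans ?_)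
        (by nlinarith) u3 fun v hv i hi n1 n2 =>
          ⟨sd k v i, hsd k v i (hk.trans hk') hv hi n1 n2, ?_⟩
      · have a1 := Nat.lt_floor_add_one (pot n (Φ k) / u)
        have a2 := Nat.floor_le (div_nonneg (p0 (Φ k')) u0.le)
        rw [e3, div_lt_iff₀ u0] at a1
        rw [le_div_iff₀ u0] at a2
        linarith
      · have : sd k v i = sd k' v i :=
          congrFun (congrFun e2 ⟨v, Nat.lt_succ_of_le hv⟩) ⟨i, hi⟩
        rw [this]
        exact hsd k' v i hk' hv hi n1 n2)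
  refine ⟨m, fun i => Φ (a i), ?_, by simp only [b2, f0], b4, by simp only [b3, f3]⟩
  have a1 : (m : ℝ) ≤ 2 * ((B + 1) * 4 ^ (n * (n + 1))) := by
    simp only [Fintype.card_prod, Fintype.card_fun, Fintype.card_fin, ← pow_mul] at b1
    exact_mod_cast b1
  have a2 : (B : ℝ) ≤ n * Real.pi * (1 + c * x) := by
    refine (Nat.floor_le (by positivity)).trans (le_of_eq ?_)
    rw [hu, div_inv_eq_mul]
  have a3 : (B : ℝ) + 1 ≤ (n * Real.pi * (1 + c) + 1) * (x + 1) := by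
    have : 0 ≤ n * Real.pi := by positivity
    nlinarith [mul_nonneg this x0, mul_nonneg this c0]
  calc (m : ℝ) ≤ 2 * ((B + 1) * 4 ^ (n * (n + 1))) := a1
    _ ≤ 2 * (((n * Real.pi * (1 + c) + 1) * (x + 1)) * 4 ^ (n * (n + 1))) := by gcongr
    _ = _ := by ring

end Pool.Agent.MP_7e0f10_lc.R

end

section

/-! The dictionary between configurations and angle coordinates. -/

namespace Pool.Agent.MP_7e0f10_lc.R

open Finset

theorem succ_Fin (l φ : ℕ → ℝ) (i : ℕ) :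
    pos l φ (i + 1) - pos l φ i = (l i : ℂ) * Complex.exp ((φ i : ℂ) * Complex.I) := by
  rw [pos, sum_range_succ, pos, add_sub_cancel_left]

theorem link_Fin {n : ℕ} (z : ℂ) (P : ℕ → ℂ) (i : Fin n) (x : ℂ) :
    z + x ∈ link (fun k : Fin (n + 1) => z + P k) i ↔ x ∈ lk P i :=
  mem_segment_translate ℝ z

theorem len_Fin {n : ℕ} (z : ℂ) (P : ℕ → ℂ) (i : Fin n) :
    linkLength (fun k : Fin (n + 1) => z + P k) i = ‖P (i + 1) - P i‖ := by
  rw [linkLength, dist_add_left, dist_comm, dist_eq_norm]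
  rfl

theorem simp_Fin {n : ℕ} (z : ℂ) (P : ℕ → ℂ) :
    IsSimple (fun k : Fin (n + 1) => z + P k) ↔ Simp n P := by
  constructor
  · rintro ⟨h1, h2, h3⟩
    refine ⟨fun i hi e => ?_, fun i j hij hj x hx hx' => ?_⟩
    · have := h1 ⟨i, hi⟩
      rw [len_Fin, ← e] at this
      simp at this
    · have a1 := (link_Fin z P ⟨i, hij.trans hj⟩ x).2 hx
      have a2 := (link_Fin z P ⟨j, hj⟩ x).2 hx'
      rcases (Nat.succ_le_of_lt hij).eq_or_lt with rfl | h
      · exact ⟨rfl, add_left_cancel (a := z) (h2 ⟨i, hij.trans hj⟩ ⟨i + 1, hj⟩ rfl ⟨a1, a2⟩)⟩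
      · exact absurd a2 (Set.disjoint_left.1 (h3 ⟨i, hij.trans hj⟩ ⟨j, hj⟩ h) a1)
  · rintro ⟨h1, h2⟩
    refine ⟨fun i => ?_, fun i j hij x hx => ?_, fun i j hij => Set.disjoint_left.2 fun x a b => ?_⟩
    · rw [len_Fin]
      exact norm_pos_iff.2 (sub_ne_zero.2 (h1 i i.2).symm)
    · obtain ⟨x, rfl⟩ : ∃ y, x = z + y := ⟨x - z, by ring⟩
      have := (h2 i j (by omega) j.2 x ((link_Fin z P i x).1 hx.1) ((link_Fin z P j x).1 hx.2)).2
      rw [this, ← hij]
      rfl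
    · obtain ⟨x, rfl⟩ : ∃ y, x = z + y := ⟨x - z, by ring⟩
      have := (h2 i j (by omega) j.2 x ((link_Fin z P i x).1 a) ((link_Fin z P j x).1 b)).1
      omega

theorem angles_Fin {n : ℕ} (q : ℕ → ℂ) (h0 : q 0 = 0) (hq : Simp n q) :
    ∃ l φ : ℕ → ℝ, Tame n φ ∧ (∀ m, l m = ‖q (m + 1) - q m‖) ∧ ∀ k ≤ n, pos l φ k = q k := by
  let d : ℕ → ℂ := fun m => q (m + 1) - q m
  have d0 : ∀ m < n, d m ≠ 0 := fun m hm => sub_ne_zero.2 (hq.1 m hm).symm
  let φ : ℕ → ℝ := fun m =>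
    Nat.rec (motive := fun _ => ℝ) (d 0).arg (fun m a => a + (d (m + 1) / d m).arg) m
  have hφ : ∀ m, φ (m + 1) = φ m + Complex.arg (d (m + 1) / d m) := fun _ => rfl
  have hd : ∀ m < n, (‖d m‖ : ℂ) * Complex.exp ((φ m : ℂ) * Complex.I) = d m := by
    intro m
    induction m with
    | zero => exact fun _ => Complex.norm_mul_exp_arg_mul_I _
    | succ m ih =>
      intro hm
      have a1 := ih (by omega)
      have a2 := Complex.norm_mul_exp_arg_mul_I (d (m + 1) / d m)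
      have a3 := d0 m (by omega)
      have a4 : (‖d m‖ : ℂ) ≠ 0 := by exact_mod_cast norm_ne_zero_iff.2 a3
      rw [norm_div, Complex.ofReal_div, eq_div_iff a3] at a2
      rw [hφ, Complex.ofReal_add, add_mul, Complex.exp_add]
      calc _ = ‖d (m + 1)‖ / ‖d m‖ * Complex.exp ((d (m + 1) / d m).arg * Complex.I) *
            ((‖d m‖ : ℂ) * Complex.exp ((φ m : ℂ) * Complex.I)) := by field_simp
        _ = _ := by rw [a1, a2]
  refine ⟨fun m => ‖d m‖, φ, fun m hm => ?_, fun _ => rfl, fun k hk => ?_⟩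
  · rw [tau, hφ, add_sub_cancel_left, abs_lt]
    refine ⟨Complex.neg_pi_lt_arg _, (Complex.arg_le_pi _).lt_of_ne fun e => ?_⟩
    obtain ⟨e1, e2⟩ := Complex.arg_eq_pi_iff.1 e
    have a3 := d0 m (by omega)
    obtain ⟨r, r0, hr⟩ : ∃ r : ℝ, 0 < r ∧ d (m + 1) = -(r : ℂ) * d m := by
      refine ⟨-(d (m + 1) / d m).re, by linarith, ?_⟩
      rw [← div_eq_iff a3]
      exact Complex.ext (by simp) (by simpa using e2)
    have t0 : 0 < r / (1 + r) := by positivity
    have h1 : (1 + r : ℝ) ≠ 0 := by positivity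
    have h1' : (1 + r : ℂ) ≠ 0 := by exact_mod_cast h1
    have := (hq.2 m (m + 1) (by omega) (by omega) (q (m + 1) - ((r / (1 + r) : ℝ) : ℂ) * d m)
      (by
        rw [lk, segment_eq_image']
        refine ⟨1 / (1 + r), ⟨by positivity, by rw [div_le_one (by positivity)]; linarith⟩, ?_⟩
        simp only [d, Complex.real_smul]
        push_cast
        field_simp
        ring)
      (by
        rw [lk, segment_eq_image']
        refine ⟨1 / (1 + r), ⟨by positivity, by rw [div_le_one (by positivity)]; linarith⟩, ?_⟩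
        have : q (m + 1 + 1) - q (m + 1) = -(r : ℂ) * d m := hr
        simp only [this, Complex.real_smul]
        push_cast
        ring)).2
    rw [sub_eq_self, mul_eq_zero] at this
    exact this.elim (fun h => t0.ne' (by exact_mod_cast h)) a3
  · rw [pos, sum_congr rfl fun m hm => hd m ((mem_range.1 hm).trans_le hk), sum_range_sub, h0,
      sub_zero]

theorem s_finA : SFinA := by
  intro n p hp
  let q : ℕ → ℂ := fun m => p ⟨min m n, Nat.lt_succ_of_le (min_le_right _ _)⟩ - p 0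
  have e : p = fun k : Fin (n + 1) => p 0 + q k := funext fun k => by
    simp [q, min_eq_left (Nat.le_of_lt_succ k.2)]
  have hq : Simp n q := (simp_Fin (p 0) q).1 (e ▸ hp)
  obtain ⟨l, φ, h1, h2, h3⟩ := angles_Fin q (by simp [q]) hq
  have e' : p = fun k : Fin (n + 1) => p 0 + pos l φ k := funext fun k => by
    rw [h3 k (Nat.le_of_lt_succ k.2)]
    exact congrFun e k
  refine ⟨l, φ, fun i => ?_, h1, (simp_Fin (p 0) _).1 (e' ▸ hp), congrFun e'⟩
  rw [h2, ← len_Fin (p 0) q i, ← e]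

theorem lenpos_Fin {n : ℕ} {l : ℕ → ℝ} (z : ℂ) (hl : ∀ m < n, 0 < l m) (f : ℕ → ℝ) (i : Fin n) :
    linkLength (fun k : Fin (n + 1) => z + pos l f k) i = l i := by
  rw [len_Fin, succ_Fin, norm_mul, Complex.norm_exp_ofReal_mul_I, mul_one, Complex.norm_real,
    Real.norm_of_nonneg (hl i i.2).le]

theorem joint_Fin {n : ℕ} {l : ℕ → ℝ} (z : ℂ) (hl : ∀ m < n, 0 < l m) (f : ℕ → ℝ) (i j : Fin n)
    (h : i.val + 1 = j.val) : jointAngle (fun k : Fin (n + 1) => z + pos l f k) i j =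
      ((Real.pi + (f j - f i) : ℝ) : Real.Angle) := by
  have hi := hl i i.2
  have hj := hl j j.2
  have e : (z + pos l f (j + 1) - (z + pos l f (i + 1))) / (z + pos l f i - (z + pos l f (i + 1))) =
      ((l j / l i : ℝ) : ℂ) * Complex.exp (((Real.pi + (f j - f i) : ℝ) : ℂ) * Complex.I) := by
    rw [add_sub_add_left_eq_sub, add_sub_add_left_eq_sub, ← neg_sub (pos l f (i + 1)) (pos l f i),
      succ_Fin, h, succ_Fin]
    have a1 : (l i : ℂ) ≠ 0 := by exact_mod_cast hi.ne'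
    have a2 := Complex.exp_ne_zero ((f i : ℂ) * Complex.I)
    push_cast
    rw [add_mul, sub_mul, Complex.exp_add, Complex.exp_sub, Complex.exp_pi_mul_I]
    field_simp
  have e2 : jointAngle (fun k : Fin (n + 1) => z + pos l f k) i j =
      (Complex.arg ((z + pos l f (j + 1) - (z + pos l f (i + 1))) /
        (z + pos l f i - (z + pos l f (i + 1)))) : ℝ) := rfl
  rw [e2, e, Complex.arg_real_mul _ (div_pos hj hi), Complex.arg_exp_mul_I,
    Real.Angle.coe_toIocMod]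

theorem s_finB : SFinB := by
  intro n l z hl
  refine ⟨fun φ ψ h => ⟨fun t k => z + pos l (mix φ ψ t) k, ?_, ?_, ?_, fun t ht => ⟨?_, fun i => ?_⟩,
    fun i j hij => ?_⟩, fun φ h i j hij => ?_⟩
  · refine Continuous.continuousOn (continuous_pi fun k => ?_)
    simp only [pos, mix]
    fun_prop
  · have : mix φ ψ 0 = φ := funext fun m => by simp [mix]
    simp only [this]
  · have : mix φ ψ 1 = ψ := funext fun m => by simp [mix]
    simp only [this]
  · exact (simp_Fin z _).2 (h t ht)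
  · rw [lenpos_Fin z hl, lenpos_Fin z hl]
  · refine ⟨Real.pi + (φ j - φ i), (ψ j - φ j) - (ψ i - φ i), fun t _ => ?_⟩
    rw [joint_Fin z hl _ i j hij]
    congr 1
    simp only [mix]
    ring
  · have := (sum_eq_zero_iff_of_nonneg fun _ _ => abs_nonneg _).1 h i
      (mem_range.2 (by have := j.2; omega))
    rw [abs_eq_zero, tau, hij] at this
    rw [joint_Fin z hl _ i j hij, this, add_zero]

end Pool.Agent.MP_7e0f10_lc.R

end
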