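import Pool.Agent.Mg.F7e0f10a.G202641

set_option linter.all false

section

/-! The configurations for the lower bound: the seven-link lock with a short hook, prolonged by
tiny collinear links. -/

namespace Pool.Agent.MP_7e0f10_lc.R

/-- Position of joint `k ≥ 6` along the hook. -/
noncomputable def lam (n k : ℕ) : ℝ := if k ≤ 6 then 0 else 1 + ((k : ℝ) - 7) / (100 * n)

/-- The joints. -/
noncomputable def hook (n : ℕ) (e : ℝ) : ℕ → ℂ
  | 0 => ⟨2 - 20 * e, e⟩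
  | 1 => ⟨80 * e, 10 * e⟩
  | 2 => ⟨2 + 240 * e, 120 * e⟩
  | 3 => ⟨1, -1⟩
  | 4 => ⟨4, 1⟩
  | 5 => ⟨0, 0⟩
  | k + 6 => ⟨2 - 1000 * e * lam n (k + 6), 100 * e * lam n (k + 6)⟩

def SCfgS : Prop := ∀ (n : ℕ) (e : ℝ), 7 ≤ n → 0 < e → e ≤ 1 / 10 ^ 6 → Simp n (hook n e)

def SCfgE : Prop :=
  ∀ (n : ℕ) (e : ℝ), 7 ≤ n → 0 < e → e ≤ 1 / 10 ^ 6 →
    Sep n (hook n e) (e / (80000 * n)) ∧ ∀ i < n, ‖hook n e (i + 1) - hook n e i‖ ≤ 5

def SRes : Prop :=
  (∀ (n : ℕ) (p : ℕ → ℂ), Simp n p → IsSimple (fun k : Fin (n + 1) => p k)) ∧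
  ∀ (n : ℕ) (h : 7 + 1 ≤ n + 1) (p : Fin (n + 1) → ℂ) (m : ℕ), StraightensIn p m →
    StraightensIn (fun k : Fin (7 + 1) => p (Fin.castLE h k)) m

end Pool.Agent.MP_7e0f10_lc.R

end

section

namespace Pool.Agent.MP_7e0f10_lc.R

open Finset

set_option linter.unusedSectionVars false

theorem side_CfgS {a b c d x : ℂ} (h : 0 < cr (b - a) (c - a) * cr (b - a) (d - a))
    (hz1 : x ∈ segment ℝ a b) (hz2 : x ∈ segment ℝ c d) : False := by
  rw [segment_eq_image'] at hz1 hz2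
  obtain ⟨s, -, rfl⟩ := hz1
  obtain ⟨t, ⟨ht0, ht1⟩, e⟩ := hz2
  have hre := congrArg Complex.re e
  have him := congrArg Complex.im e
  simp only [Complex.real_smul, Complex.add_re, Complex.mul_re, Complex.ofReal_re, Complex.sub_re,
    Complex.ofReal_im, Complex.sub_im, zero_mul, sub_zero, Complex.add_im, Complex.mul_im,
    add_zero] at hre him
  have key : (1 - t) * cr (b - a) (c - a) + t * cr (b - a) (d - a) = 0 := by
    unfold cr
    simp only [Complex.sub_re, Complex.sub_im]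
    linear_combination (b.re - a.re) * him - (b.im - a.im) * hre
  set X := cr (b - a) (c - a)
  set Y := cr (b - a) (d - a)
  rcases pos_and_pos_or_neg_and_neg_of_mul_pos h with ⟨hx, hy⟩ | ⟨hx, hy⟩
  · rcases ht0.lt_or_eq with h0 | h0
    · nlinarith [mul_nonneg (sub_nonneg.2 ht1) hx.le, mul_pos h0 hy]
    · rw [← h0] at key; linarith
  · rcases ht0.lt_or_eq with h0 | h0
    · nlinarith [mul_nonneg (sub_nonneg.2 ht1) (neg_pos.2 hx).le, mul_pos h0 (neg_pos.2 hy)]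
    · rw [← h0] at key; linarith

theorem adj_CfgS {a b c x : ℂ} (h : cr (b - a) (c - a) ≠ 0) (hz1 : x ∈ segment ℝ a b)
    (hz2 : x ∈ segment ℝ b c) : x = b := by
  rw [segment_eq_image'] at hz1 hz2
  obtain ⟨s, -, e1⟩ := hz1
  obtain ⟨t, -, e⟩ := hz2
  rw [← e1] at e
  have hre := congrArg Complex.re e
  have him := congrArg Complex.im e
  simp only [Complex.real_smul, Complex.add_re, Complex.mul_re, Complex.ofReal_re, Complex.sub_re,
    Complex.ofReal_im, Complex.sub_im, zero_mul, sub_zero, Complex.add_im, Complex.mul_im,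
    add_zero] at hre him
  have key : t * cr (b - a) (c - a) = 0 := by
    unfold cr
    simp only [Complex.sub_re, Complex.sub_im]
    linear_combination (b.re - a.re) * him - (b.im - a.im) * hre
  have ht : t = 0 := by
    rcases mul_eq_zero.1 key with h' | h'
    · exact h'
    · exact absurd h' h
  rw [← e1, ← e, ht]
  simp

/-- The hook line. -/
def H_CfgS (e μ : ℝ) : ℂ := ⟨2 - 1000 * e * μ, 100 * e * μ⟩

theorem hk_CfgS (n : ℕ) (e : ℝ) {k : ℕ} (hk : 6 ≤ k) : hook n e k = H_CfgS e (lam n k) := by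
  obtain ⟨m, rfl⟩ : ∃ m, k = m + 6 := ⟨k - 6, by omega⟩
  rfl

theorem l6_CfgS (n : ℕ) : lam n 6 = 0 := by simp [lam]

theorem l7_CfgS {n k : ℕ} (h : 7 ≤ k) (hk : k ≤ n) : 1 ≤ lam n k ∧ lam n k ≤ 101 / 100 := by
  have h1 : (7 : ℝ) ≤ k := by exact_mod_cast h
  have h2 : (k : ℝ) ≤ n := by exact_mod_cast hk
  have h3 : (0 : ℝ) < 100 * n := by linarith
  rw [lam, if_neg (by omega)]
  have a : 0 ≤ ((k : ℝ) - 7) / (100 * n) := div_nonneg (by linarith) h3.le
  have b : ((k : ℝ) - 7) / (100 * n) ≤ 1 / 100 := by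
    rw [div_le_iff₀ h3]; linarith
  constructor <;> linarith

theorem lb_CfgS {n k : ℕ} (h : 6 ≤ k) (hk : k ≤ n) : 0 ≤ lam n k ∧ lam n k ≤ 101 / 100 := by
  rcases h.eq_or_lt with rfl | h
  · rw [l6_CfgS]; norm_num
  · have := l7_CfgS h hk
    exact ⟨by linarith [this.1], this.2⟩

theorem lm_CfgS {n i j : ℕ} (h : 6 ≤ i) (hij : i < j) (hj : j ≤ n) : lam n i < lam n j := by
  rcases h.eq_or_lt with rfl | h
  · rw [l6_CfgS]; linarith [(l7_CfgS hij hj).1]
  · have h1 : (i : ℝ) < j := by exact_mod_cast hij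
    have h3 : (0 : ℝ) < 100 * n := by
      have : (0 : ℝ) < n := by exact_mod_cast (by omega : 0 < n)
      linarith
    rw [lam, lam, if_neg (by omega), if_neg (by omega)]
    have := div_lt_div_of_pos_right (by linarith : (i : ℝ) - 7 < j - 7) h3
    linarith

theorem seg_CfgS {e μ ν : ℝ} {x : ℂ} (h : μ ≤ ν) (hx : x ∈ segment ℝ (H_CfgS e μ) (H_CfgS e ν)) :
    ∃ ρ, μ ≤ ρ ∧ ρ ≤ ν ∧ x = H_CfgS e ρ := by
  obtain ⟨a, b, ha, hb, hab, rfl⟩ := hx
  obtain rfl : a = 1 - b := by linarith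
  refine ⟨(1 - b) * μ + b * ν, by nlinarith [mul_nonneg hb (sub_nonneg.2 h)],
    by nlinarith [mul_nonneg ha (sub_nonneg.2 h)], ?_⟩
  apply Complex.ext <;> simp [H_CfgS] <;> ring

section

variable (n : ℕ) {e : ℝ} (h0 : 0 < e) (h1 : e ≤ 1 / 10 ^ 6)
include h0 h1

theorem c012_CfgS : cr (hook n e 1 - hook n e 0) (hook n e 2 - hook n e 0) < 0 := by
  simp only [hook, cr, Complex.sub_re, Complex.sub_im]
  nlinarith [mul_pos h0 h0, mul_le_mul_of_nonneg_left h1 h0.le]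

theorem c123_CfgS : cr (hook n e 2 - hook n e 1) (hook n e 3 - hook n e 1) < 0 := by
  simp only [hook, cr, Complex.sub_re, Complex.sub_im]
  nlinarith [mul_pos h0 h0, mul_le_mul_of_nonneg_left h1 h0.le]

theorem c234_CfgS : 0 < cr (hook n e 3 - hook n e 2) (hook n e 4 - hook n e 2) := by
  simp only [hook, cr, Complex.sub_re, Complex.sub_im]
  nlinarith [mul_pos h0 h0, mul_le_mul_of_nonneg_left h1 h0.le]

theorem c345_CfgS : 0 < cr (hook n e 4 - hook n e 3) (hook n e 5 - hook n e 3) := by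
  simp only [hook, cr, Complex.sub_re, Complex.sub_im]
  nlinarith [mul_pos h0 h0, mul_le_mul_of_nonneg_left h1 h0.le]

theorem c230_CfgS : cr (hook n e 3 - hook n e 2) (hook n e 0 - hook n e 2) < 0 := by
  simp only [hook, cr, Complex.sub_re, Complex.sub_im]
  nlinarith [mul_pos h0 h0, mul_le_mul_of_nonneg_left h1 h0.le]

theorem c231_CfgS : cr (hook n e 3 - hook n e 2) (hook n e 1 - hook n e 2) < 0 := by
  simp only [hook, cr, Complex.sub_re, Complex.sub_im]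
  nlinarith [mul_pos h0 h0, mul_le_mul_of_nonneg_left h1 h0.le]

theorem c340_CfgS : 0 < cr (hook n e 4 - hook n e 3) (hook n e 0 - hook n e 3) := by
  simp only [hook, cr, Complex.sub_re, Complex.sub_im]
  nlinarith [mul_pos h0 h0, mul_le_mul_of_nonneg_left h1 h0.le]

theorem c341_CfgS : 0 < cr (hook n e 4 - hook n e 3) (hook n e 1 - hook n e 3) := by
  simp only [hook, cr, Complex.sub_re, Complex.sub_im]
  nlinarith [mul_pos h0 h0, mul_le_mul_of_nonneg_left h1 h0.le]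

theorem c450_CfgS : 0 < cr (hook n e 5 - hook n e 4) (hook n e 0 - hook n e 4) := by
  simp only [hook, cr, Complex.sub_re, Complex.sub_im]
  nlinarith [mul_pos h0 h0, mul_le_mul_of_nonneg_left h1 h0.le]

theorem c451_CfgS : 0 < cr (hook n e 5 - hook n e 4) (hook n e 1 - hook n e 4) := by
  simp only [hook, cr, Complex.sub_re, Complex.sub_im]
  nlinarith [mul_pos h0 h0, mul_le_mul_of_nonneg_left h1 h0.le]

theorem c015_CfgS : 0 < cr (hook n e 1 - hook n e 0) (hook n e 5 - hook n e 0) := by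
  simp only [hook, cr, Complex.sub_re, Complex.sub_im]
  nlinarith [mul_pos h0 h0, mul_le_mul_of_nonneg_left h1 h0.le]

theorem c342_CfgS : 0 < cr (hook n e 4 - hook n e 3) (hook n e 2 - hook n e 3) := by
  simp only [hook, cr, Complex.sub_re, Complex.sub_im]
  nlinarith [mul_pos h0 h0, mul_le_mul_of_nonneg_left h1 h0.le]

theorem c452_CfgS : 0 < cr (hook n e 5 - hook n e 4) (hook n e 2 - hook n e 4) := by
  simp only [hook, cr, Complex.sub_re, Complex.sub_im]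
  nlinarith [mul_pos h0 h0, mul_le_mul_of_nonneg_left h1 h0.le]

theorem c125_CfgS : cr (hook n e 2 - hook n e 1) (hook n e 5 - hook n e 1) < 0 := by
  simp only [hook, cr, Complex.sub_re, Complex.sub_im]
  nlinarith [mul_pos h0 h0, mul_le_mul_of_nonneg_left h1 h0.le]

theorem c453_CfgS : 0 < cr (hook n e 5 - hook n e 4) (hook n e 3 - hook n e 4) := by
  simp only [hook, cr, Complex.sub_re, Complex.sub_im]
  nlinarith [mul_pos h0 h0, mul_le_mul_of_nonneg_left h1 h0.le]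

theorem c235_CfgS : cr (hook n e 3 - hook n e 2) (hook n e 5 - hook n e 2) < 0 := by
  simp only [hook, cr, Complex.sub_re, Complex.sub_im]
  nlinarith [mul_pos h0 h0, mul_le_mul_of_nonneg_left h1 h0.le]

theorem c016_CfgS : 0 < cr (hook n e 1 - hook n e 0) (H_CfgS e 0 - hook n e 0) := by
  simp only [hook, H_CfgS, cr, Complex.sub_re, Complex.sub_im]
  nlinarith [mul_pos h0 h0, mul_le_mul_of_nonneg_left h1 h0.le]

theorem c12H_CfgS {μ : ℝ} (h : 0 ≤ μ ∧ μ ≤ 101 / 100) :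
    cr (hook n e 2 - hook n e 1) (H_CfgS e μ - hook n e 1) < 0 := by
  simp only [hook, H_CfgS, cr, Complex.sub_re, Complex.sub_im]
  have a1 := mul_nonneg h0.le h.1
  have a2 := mul_le_mul_of_nonneg_left h.2 h0.le
  nlinarith [mul_pos h0 h0, mul_le_mul_of_nonneg_left h1 h0.le, mul_nonneg h0.le a1,
    mul_le_mul_of_nonneg_left a2 h0.le]

theorem c23H_CfgS {μ : ℝ} (h : 0 ≤ μ ∧ μ ≤ 101 / 100) :
    cr (hook n e 3 - hook n e 2) (H_CfgS e μ - hook n e 2) < 0 := by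
  simp only [hook, H_CfgS, cr, Complex.sub_re, Complex.sub_im]
  have a1 := mul_nonneg h0.le h.1
  have a2 := mul_le_mul_of_nonneg_left h.2 h0.le
  nlinarith [mul_pos h0 h0, mul_le_mul_of_nonneg_left h1 h0.le, mul_nonneg h0.le a1,
    mul_le_mul_of_nonneg_left a2 h0.le]

theorem c34H_CfgS {μ : ℝ} (h : 0 ≤ μ ∧ μ ≤ 101 / 100) :
    0 < cr (hook n e 4 - hook n e 3) (H_CfgS e μ - hook n e 3) := by
  simp only [hook, H_CfgS, cr, Complex.sub_re, Complex.sub_im]
  have a1 := mul_nonneg h0.le h.1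
  have a2 := mul_le_mul_of_nonneg_left h.2 h0.le
  nlinarith [mul_pos h0 h0, mul_le_mul_of_nonneg_left h1 h0.le, mul_nonneg h0.le a1,
    mul_le_mul_of_nonneg_left a2 h0.le]

theorem c45H_CfgS {μ : ℝ} (h : 0 ≤ μ ∧ μ ≤ 101 / 100) :
    0 < cr (hook n e 5 - hook n e 4) (H_CfgS e μ - hook n e 4) := by
  simp only [hook, H_CfgS, cr, Complex.sub_re, Complex.sub_im]
  have a1 := mul_nonneg h0.le h.1
  have a2 := mul_le_mul_of_nonneg_left h.2 h0.le
  nlinarith [mul_pos h0 h0, mul_le_mul_of_nonneg_left h1 h0.le, mul_nonneg h0.le a1,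
    mul_le_mul_of_nonneg_left a2 h0.le]

theorem c56H_CfgS {μ : ℝ} (h : 0 < μ) :
    0 < cr (H_CfgS e 0 - hook n e 5) (H_CfgS e μ - hook n e 5) := by
  simp only [hook, H_CfgS, cr, Complex.sub_re, Complex.sub_im]
  nlinarith [mul_pos h0 h]

theorem cH0_CfgS {μ ν : ℝ} (h : μ < ν) :
    0 < cr (H_CfgS e ν - H_CfgS e μ) (hook n e 0 - H_CfgS e μ) := by
  simp only [hook, H_CfgS, cr, Complex.sub_re, Complex.sub_im]
  nlinarith [mul_pos (sub_pos.2 h) (mul_pos h0 h0)]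

theorem cH1_CfgS {μ ν : ℝ} (h : μ < ν) :
    0 < cr (H_CfgS e ν - H_CfgS e μ) (hook n e 1 - H_CfgS e μ) := by
  simp only [hook, H_CfgS, cr, Complex.sub_re, Complex.sub_im]
  have a : 0 < 200 * e - 18000 * (e * e) := by nlinarith
  nlinarith [mul_pos (sub_pos.2 h) a]

end

theorem s_cfgS : SCfgS := by
  intro n e hn h0 h1
  have inj : ∀ μ ν, H_CfgS e μ = H_CfgS e ν → μ = ν := fun μ ν h => by
    have := congrArg Complex.im h
    simp only [H_CfgS] at this
    exact mul_left_cancel₀ (by positivity : 100 * e ≠ 0) this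
  have h6 : hook n e 6 = H_CfgS e 0 := by rw [hk_CfgS n e le_rfl, l6_CfgS]
  have z0 : (0 : ℝ) ≤ 0 ∧ (0 : ℝ) ≤ 101 / 100 := by norm_num
  refine ⟨fun i hi h => ?_, fun i j hij hj x hx hy => ?_⟩
  · rcases le_or_gt 6 i with h6i | h6i
    · rw [hk_CfgS n e h6i, hk_CfgS n e (by omega)] at h
      exact (lm_CfgS h6i (Nat.lt_succ_self i) hi).ne (inj _ _ h)
    · have hre := congrArg Complex.re h
      interval_cases i <;> simp [hook, l6_CfgS] at hre <;> linarith
  unfold lk at hx hy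
  rcases le_or_gt 6 j with h6j | h6j
  · have m1 := lm_CfgS h6j (Nat.lt_succ_self j) hj
    have b1 := lb_CfgS h6j hj.le
    have b2 := lb_CfgS (by omega : 6 ≤ j + 1) hj
    rw [hk_CfgS n e h6j, hk_CfgS n e (by omega : 6 ≤ j + 1)] at hy
    rcases le_or_gt 6 i with h6i | h6i
    · rw [hk_CfgS n e h6i, hk_CfgS n e (by omega : 6 ≤ i + 1)] at hx
      obtain ⟨ρ, -, r2, rfl⟩ := seg_CfgS (lm_CfgS h6i (Nat.lt_succ_self i) (by omega)).le hx
      obtain ⟨ρ', r3, -, r4⟩ := seg_CfgS m1.le hy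
      obtain rfl := inj _ _ r4
      have : j = i + 1 := by
        by_contra hne
        have := lm_CfgS (n := n) (by omega : 6 ≤ i + 1) (by omega : i + 1 < j) hj.le
        linarith
      subst this
      exact ⟨rfl, by rw [hk_CfgS n e h6j, le_antisymm r2 r3]⟩
    · interval_cases i
      · exact (side_CfgS (mul_pos (cH0_CfgS n h0 h1 m1) (cH1_CfgS n h0 h1 m1)) hy hx).elim
      · exact (side_CfgS (mul_pos_of_neg_of_neg (c12H_CfgS n h0 h1 b1) (c12H_CfgS n h0 h1 b2))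
          hx hy).elim
      · exact (side_CfgS (mul_pos_of_neg_of_neg (c23H_CfgS n h0 h1 b1) (c23H_CfgS n h0 h1 b2))
          hx hy).elim
      · exact (side_CfgS (mul_pos (c34H_CfgS n h0 h1 b1) (c34H_CfgS n h0 h1 b2)) hx hy).elim
      · exact (side_CfgS (mul_pos (c45H_CfgS n h0 h1 b1) (c45H_CfgS n h0 h1 b2)) hx hy).elim
      · rw [h6] at hx
        rcases h6j.eq_or_lt with rfl | h7
        · rw [l6_CfgS] at hy m1
          exact ⟨rfl, h6 ▸ adj_CfgS (c56H_CfgS n h0 h1 m1).ne' hx hy⟩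
        · have := (l7_CfgS h7 hj.le).1
          exact (side_CfgS (mul_pos (c56H_CfgS n h0 h1 (by linarith))
            (c56H_CfgS n h0 h1 (by linarith))) hx hy).elim
  · interval_cases j <;> interval_cases i <;> try rw [h6] at hy
    · exact ⟨rfl, adj_CfgS (c012_CfgS n h0 h1).ne hx hy⟩
    · exact (side_CfgS (mul_pos_of_neg_of_neg (c230_CfgS n h0 h1) (c231_CfgS n h0 h1)) hy hx).elim
    · exact ⟨rfl, adj_CfgS (c123_CfgS n h0 h1).ne hx hy⟩
    · exact (side_CfgS (mul_pos (c340_CfgS n h0 h1) (c341_CfgS n h0 h1)) hy hx).elim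
    · exact (side_CfgS (mul_pos (c341_CfgS n h0 h1) (c342_CfgS n h0 h1)) hy hx).elim
    · exact ⟨rfl, adj_CfgS (c234_CfgS n h0 h1).ne' hx hy⟩
    · exact (side_CfgS (mul_pos (c450_CfgS n h0 h1) (c451_CfgS n h0 h1)) hy hx).elim
    · exact (side_CfgS (mul_pos (c451_CfgS n h0 h1) (c452_CfgS n h0 h1)) hy hx).elim
    · exact (side_CfgS (mul_pos (c452_CfgS n h0 h1) (c453_CfgS n h0 h1)) hy hx).elim
    · exact ⟨rfl, adj_CfgS (c345_CfgS n h0 h1).ne' hx hy⟩
    · exact (side_CfgS (mul_pos (c015_CfgS n h0 h1) (c016_CfgS n h0 h1)) hx hy).elim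
    · exact (side_CfgS (mul_pos_of_neg_of_neg (c125_CfgS n h0 h1) (c12H_CfgS n h0 h1 z0))
        hx hy).elim
    · exact (side_CfgS (mul_pos_of_neg_of_neg (c235_CfgS n h0 h1) (c23H_CfgS n h0 h1 z0))
        hx hy).elim
    · exact (side_CfgS (mul_pos (c345_CfgS n h0 h1) (c34H_CfgS n h0 h1 z0)) hx hy).elim
    · exact ⟨rfl, adj_CfgS (c45H_CfgS n h0 h1 z0).ne' hx hy⟩

end Pool.Agent.MP_7e0f10_lc.R

end

section

/-! Elliptic distances in the configurations of the lower bound. -/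

namespace Pool.Agent.MP_7e0f10_lc.R

open Finset

/-- elliptic distance -/
noncomputable def ell_CfgE (a b v : ℂ) : ℝ := ‖v - a‖ + ‖v - b‖ - ‖b - a‖

/-- cross product in coordinates -/
def cx_CfgE (a b v : ℂ) : ℝ := (b.re - a.re) * (v.im - a.im) - (b.im - a.im) * (v.re - a.re)

/-- the box that contains all joints -/
def Box_CfgE (z : ℂ) : Prop := 0 ≤ z.re ∧ z.re ≤ 4 ∧ -1 ≤ z.im ∧ z.im ≤ 1

/-- `v` is near `a` -/
def Nr_CfgE (e : ℝ) (a v : ℂ) : Prop := -(1500 * e) ≤ v.re - a.re ∧ v.re - a.re ≤ 1500 * e ∧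
  -(500 * e) ≤ v.im - a.im ∧ v.im - a.im ≤ 500 * e

/-- points of the hook line -/
def hk_CfgE (t : ℝ) : ℂ := ⟨2 - 1000 * t, 100 * t⟩

theorem sq_CfgE (a b : ℂ) : ‖b - a‖ ^ 2 = (b.re - a.re) ^ 2 + (b.im - a.im) ^ 2 := by
  rw [Complex.sq_norm, Complex.normSq_apply, Complex.sub_re, Complex.sub_im]; ring

theorem sym_CfgE (a b v : ℂ) : ell_CfgE a b v = ell_CfgE b a v := by
  unfold ell_CfgE
  rw [norm_sub_rev b a]; ring

theorem basic_CfgE (a b v : ℂ) (B W X c : ℝ) (hX : 0 < X) (hc : 0 ≤ c) (hB : ‖b - a‖ ^ 2 ≤ B)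
    (hW : ‖v - a‖ ≤ W) (hx : X ≤ cx_CfgE a b v ∨ cx_CfgE a b v ≤ -X)
    (h : 2 * c * B * W ≤ X ^ 2) : c ≤ ell_CfgE a b v := by
  have hL := sq_CfgE a b
  have hr := sq_CfgE a v
  have hs := sq_CfgE b v
  have hL0 := norm_nonneg (b - a)
  have hr0 := norm_nonneg (v - a)
  have hs0 := norm_nonneg (v - b)
  have hx2 : X ^ 2 ≤ cx_CfgE a b v ^ 2 := by
    rcases hx with h1 | h1 <;> nlinarith
  obtain ⟨d, hd⟩ : ∃ d, d = (b.re - a.re) * (v.re - a.re) + (b.im - a.im) * (v.im - a.im) :=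
    ⟨_, rfl⟩
  have h1 : cx_CfgE a b v ^ 2 + d ^ 2 = ‖b - a‖ ^ 2 * ‖v - a‖ ^ 2 := by
    rw [hL, hr, hd]; unfold cx_CfgE; ring
  have h2 : ‖v - b‖ ^ 2 = ‖b - a‖ ^ 2 - 2 * d + ‖v - a‖ ^ 2 := by
    rw [hL, hr, hs, hd]; ring
  unfold ell_CfgE
  clear hL hr hs hd hx
  generalize ‖b - a‖ = L at *
  generalize ‖v - a‖ = r at *
  generalize ‖v - b‖ = s at *
  generalize cx_CfgE a b v = x at *
  have h3 : L ^ 2 - d ≤ L * s := by
    refine (abs_le_of_sq_le_sq' ?_ (mul_nonneg hL0 hs0)).2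
    rw [mul_pow, h2]
    nlinarith [sq_nonneg x]
  have h4 : 0 < L ^ 2 * r ^ 2 := by nlinarith [sq_nonneg d, pow_pos hX 2]
  have hLp : 0 < L := hL0.lt_of_ne fun h0 => by rw [← h0] at h4; simp at h4
  have hrp : 0 < r := hr0.lt_of_ne fun h0 => by rw [← h0] at h4; simp at h4
  have h5 : x ^ 2 ≤ 2 * (L * r) * (L * r - d) := by nlinarith [sq_nonneg (L * r - d)]
  have h6 : 2 * (L * r) * (L * r - d) ≤ 2 * (L * r) * (L * (r + s - L)) :=
    mul_le_mul_of_nonneg_left (by nlinarith) (by positivity)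
  have h7 : L ^ 2 * r ≤ B * W := mul_le_mul hB hW hr0 ((sq_nonneg L).trans hB)
  have h8 : 2 * c * (L ^ 2 * r) ≤ 2 * c * (B * W) := mul_le_mul_of_nonneg_left h7 (by positivity)
  have h9 : (2 * (L ^ 2 * r)) * c ≤ (2 * (L ^ 2 * r)) * (r + s - L) := by nlinarith
  exact le_of_mul_le_mul_left h9 (by positivity)

theorem b20_CfgE {a b : ℂ} (ha : Box_CfgE a) (hb : Box_CfgE b) : ‖b - a‖ ^ 2 ≤ 20 := by
  obtain ⟨h1, h2, h3, h4⟩ := ha
  obtain ⟨h5, h6, h7, h8⟩ := hb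
  have h9 : (b.re - a.re) ^ 2 ≤ 4 ^ 2 := sq_le_sq' (by linarith) (by linarith)
  have h10 : (b.im - a.im) ^ 2 ≤ 2 ^ 2 := sq_le_sq' (by linarith) (by linarith)
  rw [sq_CfgE]; linarith

theorem b5_CfgE {a b : ℂ} (ha : Box_CfgE a) (hb : Box_CfgE b) : ‖b - a‖ ≤ 5 :=
  (abs_le_of_sq_le_sq' ((b20_CfgE ha hb).trans (by norm_num)) (by norm_num)).2

theorem nr_CfgE {e : ℝ} {a v : ℂ} (h : Nr_CfgE e a v) : ‖v - a‖ ≤ 2000 * e := by
  obtain ⟨h1, h2, h3, h4⟩ := h
  have h5 := Complex.norm_le_abs_re_add_abs_im (v - a)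
  rw [Complex.sub_re, Complex.sub_im] at h5
  have h6 := abs_le.2 ⟨h1, h2⟩
  have h7 := abs_le.2 ⟨h3, h4⟩
  linarith

theorem far_CfgE {e : ℝ} (he : 0 < e) (he' : e ≤ 1 / 10 ^ 6) {a b v : ℂ} (ha : Box_CfgE a)
    (hb : Box_CfgE b) (hv : Box_CfgE v)
    (h : 1 / 2 ≤ cx_CfgE a b v ∨ cx_CfgE a b v ≤ -(1 / 2)) : e / 80000 ≤ ell_CfgE a b v :=
  basic_CfgE a b v 20 5 (1 / 2) _ (by norm_num) (by positivity) (b20_CfgE ha hb) (b5_CfgE ha hv) h
    (by linarith)

theorem nearA_CfgE {e : ℝ} (he : 0 < e) {a b v : ℂ} (ha : Box_CfgE a) (hb : Box_CfgE b)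
    (hv : Nr_CfgE e a v) (h : e ≤ cx_CfgE a b v ∨ cx_CfgE a b v ≤ -e) :
    e / 80000 ≤ ell_CfgE a b v :=
  basic_CfgE a b v 20 (2000 * e) e _ he (by positivity) (b20_CfgE ha hb) (nr_CfgE hv) h
    (le_of_eq (by ring))

theorem nearB_CfgE {e : ℝ} (he : 0 < e) {a b v : ℂ} (ha : Box_CfgE a) (hb : Box_CfgE b)
    (hv : Nr_CfgE e b v) (h : e ≤ cx_CfgE b a v ∨ cx_CfgE b a v ≤ -e) :
    e / 80000 ≤ ell_CfgE a b v := by
  rw [sym_CfgE]; exact nearA_CfgE he hb ha hv h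

theorem six_CfgE (n : ℕ) : lam n 6 = 0 := if_pos le_rfl

theorem hook_CfgE (n : ℕ) (e : ℝ) (k : ℕ) (hk : 6 ≤ k) : hook n e k = hk_CfgE (e * lam n k) := by
  obtain ⟨j, rfl⟩ : ∃ j, k = j + 6 := ⟨k - 6, by omega⟩
  have h : hook n e (j + 6) = ⟨2 - 1000 * e * lam n (j + 6), 100 * e * lam n (j + 6)⟩ := rfl
  rw [h, hk_CfgE, mul_assoc, mul_assoc]

theorem boxH_CfgE {e t : ℝ} (he' : e ≤ 1 / 10 ^ 6) (h0 : 0 ≤ t) (h1 : t ≤ 101 / 100 * e) :
    Box_CfgE (hk_CfgE t) := by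
  simp only [Box_CfgE, hk_CfgE]
  exact ⟨by linarith, by linarith, by linarith, by linarith⟩

theorem box_CfgE (n : ℕ) {e : ℝ} (he : 0 < e) (he' : e ≤ 1 / 10 ^ 6) (k : ℕ) (hk : k ≤ 6) :
    Box_CfgE (hook n e k) := by
  interval_cases k
  all_goals
    simp only [Box_CfgE, Nat.reduceAdd, six_CfgE, hook]
    exact ⟨by linarith, by linarith, by linarith, by linarith⟩

theorem low1_CfgE (n : ℕ) {e : ℝ} (he : 0 < e) (he' : e ≤ 1 / 10 ^ 6) (i v : ℕ) (hi : i ≤ 5)
    (hv : v ≤ 5) (h1 : v ≠ i) (h2 : v ≠ i + 1) :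
    e / 80000 ≤ ell_CfgE (hook n e i) (hook n e (i + 1)) (hook n e v) := by
  have ha := box_CfgE n he he' i (by omega)
  have hb := box_CfgE n he he' (i + 1) (by omega)
  have hc := box_CfgE n he he' v (by omega)
  have q0 : 0 ≤ e * e := by positivity
  have q1 : e * e ≤ e * (1 / 10 ^ 6) := mul_le_mul_of_nonneg_left he' he.le
  interval_cases i <;> interval_cases v
  all_goals first
    | exact absurd rfl h1
    | exact absurd rfl h2
    | (refine far_CfgE he he' ha hb hc ?_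
       simp only [cx_CfgE, Nat.reduceAdd, six_CfgE, hook]
       first | (left; linarith) | (right; linarith))
    | (refine nearA_CfgE he ha hb ?_ ?_
       · simp only [Nr_CfgE, Nat.reduceAdd, six_CfgE, hook]
         exact ⟨by linarith, by linarith, by linarith, by linarith⟩
       · simp only [cx_CfgE, Nat.reduceAdd, six_CfgE, hook]
         first | (left; linarith) | (right; linarith))
    | (refine nearB_CfgE he ha hb ?_ ?_
       · simp only [Nr_CfgE, Nat.reduceAdd, six_CfgE, hook]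
         exact ⟨by linarith, by linarith, by linarith, by linarith⟩
       · simp only [cx_CfgE, Nat.reduceAdd, six_CfgE, hook]
         first | (left; linarith) | (right; linarith))

theorem low2_CfgE (n : ℕ) {e : ℝ} (he : 0 < e) (he' : e ≤ 1 / 10 ^ 6) (i : ℕ) (hi : i ≤ 5) (t : ℝ)
    (ht : (t = 0 ∧ i ≠ 5) ∨ (e ≤ t ∧ t ≤ 101 / 100 * e)) :
    e / 80000 ≤ ell_CfgE (hook n e i) (hook n e (i + 1)) (hk_CfgE t) := by
  have ha := box_CfgE n he he' i (by omega)
  have hb := box_CfgE n he he' (i + 1) (by omega)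
  have hc : Box_CfgE (hk_CfgE t) := by
    rcases ht with ⟨h, -⟩ | ⟨h, h'⟩ <;> exact boxH_CfgE he' (by linarith) (by linarith)
  have q0 : 0 ≤ e * e := by positivity
  have q1 : e * e ≤ e * (1 / 10 ^ 6) := mul_le_mul_of_nonneg_left he' he.le
  have q2 : 0 ≤ e * t ∧ e * t ≤ e * (101 / 100 * e) := by
    rcases ht with ⟨h, -⟩ | ⟨h, h'⟩ <;>
      exact ⟨mul_nonneg he.le (by linarith), mul_le_mul_of_nonneg_left (by linarith) he.le⟩
  obtain ⟨q2, q3⟩ := q2
  rcases ht with ⟨h, h'⟩ | ⟨h, h'⟩ <;> interval_cases i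
  all_goals first
    | exact absurd rfl h'
    | (refine far_CfgE he he' ha hb hc ?_
       simp only [cx_CfgE, Nat.reduceAdd, six_CfgE, hook, hk_CfgE]
       first | (left; linarith) | (right; linarith))
    | (refine nearA_CfgE he ha hb ?_ ?_
       · simp only [Nr_CfgE, Nat.reduceAdd, six_CfgE, hook, hk_CfgE]
         exact ⟨by linarith, by linarith, by linarith, by linarith⟩
       · simp only [cx_CfgE, Nat.reduceAdd, six_CfgE, hook, hk_CfgE]
         first | (left; linarith) | (right; linarith))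
    | (refine nearB_CfgE he ha hb ?_ ?_
       · simp only [Nr_CfgE, Nat.reduceAdd, six_CfgE, hook, hk_CfgE]
         exact ⟨by linarith, by linarith, by linarith, by linarith⟩
       · simp only [cx_CfgE, Nat.reduceAdd, six_CfgE, hook, hk_CfgE]
         first | (left; linarith) | (right; linarith))

theorem low3_CfgE (n : ℕ) {e : ℝ} (he : 0 < e) (he' : e ≤ 1 / 10 ^ 6) (v : ℕ) (hv : v ≤ 5)
    (s t : ℝ) (h0 : 0 ≤ s) (h1 : s < t) (h2 : t ≤ 101 / 100 * e) :
    e / 80000 ≤ ell_CfgE (hk_CfgE s) (hk_CfgE t) (hook n e v) := by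
  have hδ : 0 < t - s := sub_pos.2 h1
  have hB : ‖hk_CfgE t - hk_CfgE s‖ ^ 2 ≤ 1010000 * (t - s) ^ 2 := by
    rw [sq_CfgE]; simp only [hk_CfgE]; exact le_of_eq (by ring)
  have hx : ∀ z : ℂ, cx_CfgE (hk_CfgE s) (hk_CfgE t) z =
      (t - s) * (-1000 * z.im - 100 * (z.re - 2)) := fun z => by
    simp only [cx_CfgE, hk_CfgE]; ring
  have hy : ∀ (z : ℂ) (Y : ℝ), (Y ≤ -1000 * z.im - 100 * (z.re - 2) ∨
      -1000 * z.im - 100 * (z.re - 2) ≤ -Y) → (t - s) * Y ≤ cx_CfgE (hk_CfgE s) (hk_CfgE t) z ∨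
      cx_CfgE (hk_CfgE s) (hk_CfgE t) z ≤ -((t - s) * Y) := fun z Y h => by
    rw [hx, ← mul_neg]
    exact h.imp (fun h => mul_le_mul_of_nonneg_left h hδ.le)
      fun h => mul_le_mul_of_nonneg_left h hδ.le
  have hW := b5_CfgE (boxH_CfgE he' h0 (by linarith)) (box_CfgE n he he' v (by omega))
  have q1 : (t - s) ^ 2 * e ≤ (t - s) ^ 2 * (1 / 10 ^ 6) :=
    mul_le_mul_of_nonneg_left he' (sq_nonneg _)
  have q2 : 0 ≤ (t - s) ^ 2 := sq_nonneg _
  have q3 : 0 ≤ (t - s) ^ 2 * e ^ 2 := by positivity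
  interval_cases v
  all_goals first
    | (refine basic_CfgE _ _ _ _ 5 ((t - s) * 100) _ (by positivity) (by positivity) hB hW
         (hy _ _ ?_) (by linarith)
       simp only [hook]
       first | (left; linarith) | (right; linarith))
    | (refine basic_CfgE _ _ _ _ (2000 * e) ((t - s) * (1000 * e)) _ (by positivity)
         (by positivity) hB (nr_CfgE ?_) (hy _ _ ?_) (by linarith)
       · simp only [Nr_CfgE, hook, hk_CfgE]
         exact ⟨by linarith, by linarith, by linarith, by linarith⟩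
       · simp only [hook]
         first | (left; linarith) | (right; linarith))

theorem low4_CfgE (s t w g : ℝ) (hg : 0 ≤ g) (h1 : s ≤ t) (h : w + g ≤ s ∨ t + g ≤ w) :
    g ≤ ell_CfgE (hk_CfgE s) (hk_CfgE t) (hk_CfgE w) := by
  have hN : ∀ x y : ℝ, ‖hk_CfgE x - hk_CfgE y‖ = |x - y| * ‖(⟨-1000, 100⟩ : ℂ)‖ := fun x y => by
    have h2 : hk_CfgE x - hk_CfgE y = ((x - y : ℝ) : ℂ) * ⟨-1000, 100⟩ := by
      apply Complex.ext <;> simp [hk_CfgE] <;> ring
    rw [h2, norm_mul, Complex.norm_real, Real.norm_eq_abs]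
  have hN1 : 1 ≤ ‖(⟨-1000, 100⟩ : ℂ)‖ := by
    have h2 := Complex.im_le_norm (⟨-1000, 100⟩ : ℂ)
    simp only at h2
    linarith
  unfold ell_CfgE
  rw [hN, hN, hN]
  generalize ‖(⟨-1000, 100⟩ : ℂ)‖ = N at hN1
  rw [abs_of_nonneg (sub_nonneg.2 h1)]
  rcases h with h | h
  · rw [abs_of_nonpos (by linarith), abs_of_nonpos (by linarith)]
    nlinarith
  · rw [abs_of_nonneg (by linarith), abs_of_nonneg (by linarith)]
    nlinarith

theorem lam_CfgE {n : ℕ} (hn : 7 ≤ n) {k : ℕ} (hk : k ≤ n) :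
    (k ≤ 6 ∧ lam n k = 0) ∨ (1 ≤ lam n k ∧ lam n k ≤ 101 / 100) := by
  have hn' : (0 : ℝ) < n := by exact_mod_cast (by omega : 0 < n)
  by_cases h : k ≤ 6
  · exact Or.inl ⟨h, if_pos h⟩
  · have h1 : (7 : ℝ) ≤ k := by exact_mod_cast (by omega : 7 ≤ k)
    have h2 : (k : ℝ) ≤ n := by exact_mod_cast hk
    have h3 : 0 ≤ ((k : ℝ) - 7) / (100 * n) := div_nonneg (by linarith) (by positivity)
    have h4 : ((k : ℝ) - 7) / (100 * n) ≤ 1 / 100 := by
      rw [div_le_iff₀ (by positivity)]; linarith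
    right
    rw [lam, if_neg h]
    exact ⟨by linarith, by linarith⟩

theorem mono_CfgE {n : ℕ} (hn : 7 ≤ n) {k l : ℕ} (hk : 6 ≤ k) (hkl : k < l) :
    lam n k + 1 / (100 * n) ≤ lam n l := by
  have hn' : (7 : ℝ) ≤ n := by exact_mod_cast hn
  have h1 : (k : ℝ) + 1 ≤ l := by exact_mod_cast hkl
  have h2 : (7 : ℝ) ≤ l := by exact_mod_cast (by omega : 7 ≤ l)
  unfold lam
  rw [if_neg (by omega : ¬ l ≤ 6)]
  split_ifs with h
  · have h3 : 0 ≤ ((l : ℝ) - 7) / (100 * n) := div_nonneg (by linarith) (by positivity)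
    have h4 : 1 / (100 * (n : ℝ)) ≤ 1 := by
      rw [div_le_iff₀ (by positivity)]; linarith
    linarith
  · rw [add_assoc, ← add_div]
    have h3 : ((k : ℝ) - 7 + 1) / (100 * n) ≤ ((l : ℝ) - 7) / (100 * n) :=
      div_le_div_of_nonneg_right (by linarith) (by positivity)
    linarith

theorem s_cfgE : SCfgE := by
  intro n e hn he he'
  have hn' : (7 : ℝ) ≤ n := by exact_mod_cast hn
  have ht : ∀ k ≤ n, 0 ≤ e * lam n k ∧ e * lam n k ≤ 101 / 100 * e := fun k hk => by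
    rcases lam_CfgE hn hk with ⟨-, h⟩ | ⟨h, h'⟩
    · rw [h, mul_zero]; exact ⟨le_rfl, by positivity⟩
    · exact ⟨by positivity, by nlinarith⟩
  have hm : ∀ k l, 6 ≤ k → k < l → e * lam n k + e / (100 * n) ≤ e * lam n l := fun k l h1 h2 => by
    have h3 := mul_le_mul_of_nonneg_left (mono_CfgE hn h1 h2) he.le
    rwa [mul_add, mul_one_div] at h3
  have hg : 0 < e / (100 * n) := by positivity
  have hc1 : e / (80000 * n) ≤ e / 80000 :=
    div_le_div_of_nonneg_left he.le (by norm_num) (by linarith)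
  have hc2 : e / (80000 * n) ≤ e / (100 * n) :=
    div_le_div_of_nonneg_left he.le (by positivity) (by linarith)
  refine ⟨fun v hv i hi h1 h2 => ?_, fun i hi => ?_⟩
  · change _ ≤ ell_CfgE (hook n e i) (hook n e (i + 1)) (hook n e v)
    rcases le_or_gt i 5 with hi5 | hi5
    · rcases le_or_gt v 5 with hv5 | hv5
      · exact hc1.trans (low1_CfgE n he he' i v hi5 hv5 h1 h2)
      · rw [hook_CfgE n e v hv5]
        refine hc1.trans (low2_CfgE n he he' i hi5 _ ?_)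
        rcases lam_CfgE hn hv with ⟨h, h'⟩ | ⟨h, h'⟩
        · exact Or.inl ⟨by rw [h', mul_zero], by omega⟩
        · exact Or.inr ⟨by nlinarith, (ht v hv).2⟩
    · have h3 := hm i (i + 1) hi5 (by omega)
      rw [hook_CfgE n e i hi5, hook_CfgE n e (i + 1) (by omega)]
      rcases le_or_gt v 5 with hv5 | hv5
      · exact hc1.trans (low3_CfgE n he he' v hv5 _ _ (ht i hi.le).1 (by linarith)
          (ht (i + 1) hi).2)
      · rw [hook_CfgE n e v hv5]
        refine hc2.trans (low4_CfgE _ _ _ _ hg.le (by linarith) ?_)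
        rcases lt_or_gt_of_ne h1 with h | h
        · exact Or.inl (hm v i hv5 h)
        · exact Or.inr (hm (i + 1) v (by omega) (by omega))
  · have hb : ∀ k ≤ n, Box_CfgE (hook n e k) := fun k hk => by
      rcases le_or_gt k 6 with h | h
      · exact box_CfgE n he he' k h
      · rw [hook_CfgE n e k h.le]
        exact boxH_CfgE he' (ht k hk).1 (ht k hk).2
    exact b5_CfgE (hb i hi.le) (hb (i + 1) hi)

end Pool.Agent.MP_7e0f10_lc.R

end
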