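import Pool.Agent.MP_7e0f10_lc.R.Boot

set_option linter.all false

section

/-! A move that keeps the quadrilateral closed up to `O(e)` has length `O(√e)`. -/

namespace Pool.Agent.MP_7e0f10_lc.R

open Pool.Agent.MP_7e0f10_lc Set

lemma quadR {s2 s3 s4 k2 k3 k4 ε : ℝ} (h0 : 0 < ε) (h1 : ε ≤ 1) (l2 : s2 ^ 2 / 2 ≤ k2)
    (u2 : k2 ≤ s2 ^ 2) (u3 : k3 ≤ s3 ^ 2) (u4 : k4 ≤ s4 ^ 2)
    (a1 : |-s2 + 3 * s3 - 4 * s4| ≤ (|s2| + |s3| + |s4|) / 1000 + ε)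
    (a2 : |-s2 + 2 * s3 - s4| ≤ (|s2| + |s3| + |s4|) / 1000 + ε)
    (b1 : |-k2 + 3 * k3 - 4 * k4| ≤ (k2 + k3 + k4) / 1000 + 2 * ε)
    (b2 : |-k2 + 2 * k3 - k4| ≤ (k2 + k3 + k4) / 1000 + 2 * ε) :
    (|s2| + |s3| + |s4|) ^ 2 ≤ 10 ^ 6 * ε := by
  obtain ⟨M, hM⟩ : ∃ M, M = |s2| + |s3| + |s4| := ⟨_, rfl⟩
  have p2 := abs_nonneg s2; have p3 := abs_nonneg s3; have p4 := abs_nonneg s4
  rw [← hM] at a1 a2 ⊢
  have M0 : 0 ≤ M := by linarith
  rcases le_total M (1000 * ε) with h | h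
  · have := mul_self_le_mul_self M0 h
    nlinarith
  rw [abs_le] at a1 a2 b1 b2
  have c2 : |s2 - 5 * s4| ≤ M / 100 := abs_le.2 ⟨by linarith [a1.1, a1.2, a2.1, a2.2],
    by linarith [a1.1, a1.2, a2.1, a2.2]⟩
  have c3 : |s3 - 3 * s4| ≤ M / 250 := abs_le.2 ⟨by linarith [a1.1, a1.2, a2.1, a2.2],
    by linarith [a1.1, a1.2, a2.1, a2.2]⟩
  have e5 : |5 * s4| = 5 * |s4| := by rw [abs_mul]; norm_num
  have e3 : |3 * s4| = 3 * |s4| := by rw [abs_mul]; norm_num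
  have d2 := abs_sub_abs_le_abs_sub s2 (5 * s4)
  have d2' := abs_sub_abs_le_abs_sub (5 * s4) s2
  have d3 := abs_sub_abs_le_abs_sub s3 (3 * s4)
  rw [abs_sub_comm (5 * s4) s2] at d2'
  have hMs : M ≤ 10 * |s4| := by linarith
  have hs2 : 4.9 * |s4| ≤ |s2| := by linarith
  have q2 := mul_self_le_mul_self (by linarith) hs2
  have qM := mul_self_le_mul_self M0 hMs
  have w2 : |s2| * |s2| = s2 ^ 2 := by rw [abs_mul_abs_self]; ring
  have w3 : |s3| * |s3| = s3 ^ 2 := by rw [abs_mul_abs_self]; ring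
  have w4 : |s4| * |s4| = s4 ^ 2 := by rw [abs_mul_abs_self]; ring
  have hN : s2 ^ 2 + s3 ^ 2 + s4 ^ 2 ≤ M * M := by
    rw [hM, ← w2, ← w3, ← w4]
    nlinarith [mul_nonneg p2 p3, mul_nonneg p2 p4, mul_nonneg p3 p4]
  have hk : k2 ≤ 5 * k4 + (k2 + k3 + k4) / 200 + 10 * ε := by linarith [b1.1, b1.2, b2.1, b2.2]
  have q2' : 24 * s4 ^ 2 ≤ s2 ^ 2 := by nlinarith [sq_nonneg s4]
  have qM' : M * M ≤ 100 * s4 ^ 2 := by nlinarith
  nlinarith

lemma comb {E2 E3 E4 : ℂ} {x2 x3 x4 ε : ℝ} (n2 : ‖E2 - D 2‖ ≤ 1 / 1000)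
    (n3 : ‖E3 - D 3‖ ≤ 1 / 1000) (n4 : ‖E4 - D 4‖ ≤ 1 / 1000)
    (h : ‖E2 * x2 + E3 * x3 + E4 * x4‖ ≤ ε) :
    |-x2 + 3 * x3 - 4 * x4| ≤ (|x2| + |x3| + |x4|) / 1000 + ε ∧
      |-x2 + 2 * x3 - x4| ≤ (|x2| + |x3| + |x4|) / 1000 + ε := by
  have e : D 2 * x2 + D 3 * x3 + D 4 * x4 = (E2 * x2 + E3 * x3 + E4 * x4) -
      ((E2 - D 2) * x2 + (E3 - D 3) * x3 + (E4 - D 4) * x4) := by ring
  have b : ∀ (z : ℂ) (x : ℝ), ‖z‖ ≤ 1 / 1000 → ‖z * x‖ ≤ |x| / 1000 := fun z x hz => by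
    rw [norm_mul, Complex.norm_real, Real.norm_eq_abs]
    nlinarith [abs_nonneg x]
  have hn : ‖D 2 * x2 + D 3 * x3 + D 4 * x4‖ ≤ (|x2| + |x3| + |x4|) / 1000 + ε := by
    rw [e]
    have h1 := norm_sub_le (E2 * x2 + E3 * x3 + E4 * x4)
      ((E2 - D 2) * x2 + (E3 - D 3) * x3 + (E4 - D 4) * x4)
    have h2 := norm_add₃_le (a := (E2 - D 2) * x2) (b := (E3 - D 3) * x3) (c := (E4 - D 4) * x4)
    linarith [b _ x2 n2, b _ x3 n3, b _ x4 n4]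
  have hr : (D 2 * x2 + D 3 * x3 + D 4 * x4).re = -x2 + 3 * x3 - 4 * x4 := by simp [D]; ring
  have hi : (D 2 * x2 + D 3 * x3 + D 4 * x4).im = -x2 + 2 * x3 - x4 := by simp [D]; ring
  exact ⟨hr ▸ (Complex.abs_re_le_norm _).trans hn, hi ▸ (Complex.abs_im_le_norm _).trans hn⟩

/-- Rotating each link with its own angular velocity. -/
noncomputable def rot (d : Fin 7 → ℂ) (c : Fin 7 → ℝ) (t : ℝ) : Fin 7 → ℂ :=
  fun j => d j * Complex.exp (((t * c j : ℝ) : ℂ) * Complex.I)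

lemma rot_zero (d : Fin 7 → ℂ) (c : Fin 7 → ℝ) : rot d c 0 = d := by ext j; simp [rot]

lemma rot_half (d : Fin 7 → ℂ) (c : Fin 7 → ℝ) (j : Fin 7) :
    rot d c 1 j = rot d c (1 / 2) j *
      ((Real.cos (c j / 2) : ℝ) + (Real.sin (c j / 2) : ℝ) * Complex.I) ∧
    rot d c 0 j = rot d c (1 / 2) j *
      ((Real.cos (c j / 2) : ℝ) - (Real.sin (c j / 2) : ℝ) * Complex.I) := by
  have h1 : ((Real.cos (c j / 2) : ℝ) : ℂ) + (Real.sin (c j / 2) : ℝ) * Complex.I =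
      Complex.exp (((c j / 2 : ℝ) : ℂ) * Complex.I) := by
    rw [Complex.exp_mul_I, Complex.ofReal_cos, Complex.ofReal_sin]
  have h2 : ((Real.cos (c j / 2) : ℝ) : ℂ) - (Real.sin (c j / 2) : ℝ) * Complex.I =
      Complex.exp (((-(c j / 2) : ℝ) : ℂ) * Complex.I) := by
    rw [Complex.exp_mul_I, ← Complex.ofReal_cos, ← Complex.ofReal_sin, Real.cos_neg, Real.sin_neg]
    push_cast; ring
  rw [h1, h2]
  unfold rot
  constructor <;> rw [mul_assoc (d j), ← Complex.exp_add] <;> congr 2 <;> push_cast <;> ring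

lemma quad {e : ℝ} {d : Fin 7 → ℂ} {c : Fin 7 → ℝ} (he : 0 < e) (he1 : e ≤ 1 / 10 ^ 6)
    (h5 : c 5 = 0) (c2 : |c 2| ≤ 1) (c3 : |c 3| ≤ 1) (c4 : |c 4| ≤ 1)
    (hn : Nr (1 / 1000) (rot d c (1 / 2))) (f0 : ‖t2 (rot d c 0)‖ ≤ 1000 * e)
    (fh : ‖t2 (rot d c (1 / 2))‖ ≤ 1000 * e) (f1 : ‖t2 (rot d c 1)‖ ≤ 1000 * e) :
    |c 2| ≤ 200000 * √e ∧ |c 3| ≤ 200000 * √e ∧ |c 4| ≤ 200000 * √e := by
  obtain ⟨n2, n3, n4⟩ := hn
  have r5 : ∀ t, rot d c t 5 = d 5 := fun t => by simp [rot, h5]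
  have A : t2 (rot d c 1) - t2 (rot d c 0) = (2 * Complex.I) *
      (rot d c (1 / 2) 2 * (Real.sin (c 2 / 2) : ℝ) + rot d c (1 / 2) 3 * (Real.sin (c 3 / 2) : ℝ) +
        rot d c (1 / 2) 4 * (Real.sin (c 4 / 2) : ℝ)) := by
    unfold t2
    rw [r5, r5, (rot_half d c 2).1, (rot_half d c 2).2, (rot_half d c 3).1, (rot_half d c 3).2,
      (rot_half d c 4).1, (rot_half d c 4).2]
    ring
  have B : t2 (rot d c (1 / 2)) + t2 (rot d c (1 / 2)) - (t2 (rot d c 1) + t2 (rot d c 0)) = 2 *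
      (rot d c (1 / 2) 2 * ((1 - Real.cos (c 2 / 2) : ℝ) : ℂ) +
        rot d c (1 / 2) 3 * ((1 - Real.cos (c 3 / 2) : ℝ) : ℂ) +
        rot d c (1 / 2) 4 * ((1 - Real.cos (c 4 / 2) : ℝ) : ℂ)) := by
    unfold t2
    rw [r5, r5, r5, (rot_half d c 2).1, (rot_half d c 2).2, (rot_half d c 3).1, (rot_half d c 3).2,
      (rot_half d c 4).1, (rot_half d c 4).2]
    simp only [Complex.ofReal_sub, Complex.ofReal_one]
    ring
  have A' := norm_sub_le (t2 (rot d c 1)) (t2 (rot d c 0))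
  have B' := norm_sub_le (t2 (rot d c (1 / 2)) + t2 (rot d c (1 / 2)))
    (t2 (rot d c 1) + t2 (rot d c 0))
  have B1 := norm_add_le (t2 (rot d c (1 / 2))) (t2 (rot d c (1 / 2)))
  have B2 := norm_add_le (t2 (rot d c 1)) (t2 (rot d c 0))
  rw [A, norm_mul, norm_mul, Complex.norm_I, Complex.norm_two] at A'
  rw [B, norm_mul, Complex.norm_two] at B'
  obtain ⟨a1, a2⟩ := comb (ε := 1000 * e) n2 n3 n4 (by linarith only [A', f0, f1])
  obtain ⟨b1, b2⟩ := comb (ε := 2 * (1000 * e)) n2 n3 n4 (by linarith only [B', B1, B2, f0, f1, fh])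
  have tr : ∀ x : ℝ, |x| ≤ 1 → 0 ≤ 1 - Real.cos (x / 2) ∧
      Real.sin (x / 2) ^ 2 / 2 ≤ 1 - Real.cos (x / 2) ∧
      1 - Real.cos (x / 2) ≤ Real.sin (x / 2) ^ 2 ∧ |x| ≤ 4 * |Real.sin (x / 2)| := by
    intro x hx
    have p3 := Real.pi_gt_three
    have p4 := Real.pi_le_four
    have hx2 : |x / 2| = |x| / 2 := by rw [abs_div]; norm_num
    have hc : 0 ≤ Real.cos (x / 2) := by
      apply Real.cos_nonneg_of_neg_pi_div_two_le_of_le <;> linarith [abs_le.1 hx]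
    have h1 := Real.cos_le_one (x / 2)
    have h2 := Real.sin_sq_add_cos_sq (x / 2)
    have h3 := Real.mul_abs_le_abs_sin (x := x / 2) (by linarith)
    have h4 : 1 / 2 ≤ 2 / Real.pi := by rw [div_le_div_iff₀ (by norm_num) (by linarith)]; linarith
    refine ⟨by linarith, by nlinarith, by nlinarith, ?_⟩
    nlinarith [abs_nonneg (x / 2)]
  obtain ⟨x1, x2, x3, x4⟩ := tr _ c2
  obtain ⟨y1, -, y3, y4⟩ := tr _ c3
  obtain ⟨z1, -, z3, z4⟩ := tr _ c4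
  rw [abs_of_nonneg x1, abs_of_nonneg y1, abs_of_nonneg z1] at b1 b2
  have key := quadR (ε := 1000 * e) (by linarith) (by linarith) x2 x3 y3 z3 a1 a2 b1 b2
  have hs := Real.sq_sqrt he.le
  have hM : |Real.sin (c 2 / 2)| + |Real.sin (c 3 / 2)| + |Real.sin (c 4 / 2)| ≤ 40000 * √e := by
    refine (abs_le_of_sq_le_sq' ?_ (by positivity)).2
    rw [mul_pow, hs]
    linarith only [key, he]
  have p2 := abs_nonneg (Real.sin (c 2 / 2))
  have p3 := abs_nonneg (Real.sin (c 3 / 2))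
  have p4 := abs_nonneg (Real.sin (c 4 / 2))
  have p5 := Real.sqrt_nonneg e
  refine ⟨?_, ?_, ?_⟩ <;> linarith only [x4, y4, z4, hM, p2, p3, p4, p5]

end Pool.Agent.MP_7e0f10_lc.R

end

section

/-! Every move of the locked chain is short, so many moves are needed. -/

namespace Pool.Agent.MP_7e0f10_lc.R

open Pool.Agent.MP_7e0f10_lc Set

lemma continuous_rot (d : Fin 7 → ℂ) (c : Fin 7 → ℝ) : Continuous fun t => rot d c t := by
  unfold rot; fun_prop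

lemma dot_rot (d : Fin 7 → ℂ) (c : Fin 7 → ℝ) (t : ℝ) (j : Fin 7) :
    dot (rot d c t j) (rot d c t j) = dot (d j) (d j) := by
  unfold rot dot
  simp only [Complex.mul_re, Complex.mul_im, Complex.exp_ofReal_mul_I_re,
    Complex.exp_ofReal_mul_I_im]
  have := Real.sin_sq_add_cos_sq (t * c j)
  linear_combination ((d j).re ^ 2 + (d j).im ^ 2) * this

lemma len_rot {e : ℝ} {d : Fin 7 → ℂ} (h : Len e d) (c : Fin 7 → ℝ) (t : ℝ) :
    Len e (rot d c t) := by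
  unfold Len at h ⊢
  simpa only [dot_rot] using h

lemma norm_D (j : Fin 7) : ‖D j‖ ≤ 4.5 := by
  refine (abs_le_of_sq_le_sq' ?_ (by norm_num)).2
  rw [← Complex.normSq_eq_norm_sq, Complex.normSq_apply]
  fin_cases j <;> simp [D] <;> norm_num

lemma near_rot {d : Fin 7 → ℂ} {c : Fin 7 → ℝ} {a b t : ℝ} {j : Fin 7} (ha : a ≤ 1 / 2000)
    (h : ‖d j - D j‖ ≤ a) (hc : |c j| ≤ b) (ht : t ∈ Icc (0 : ℝ) 1) :
    ‖rot d c t j - D j‖ ≤ a + 5 * b := by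
  have e : rot d c t j - D j =
      d j * (Complex.exp (Complex.I * ((t * c j : ℝ) : ℂ)) - 1) + (d j - D j) := by
    unfold rot; rw [mul_comm Complex.I]; ring
  have h1 : ‖d j‖ ≤ 5 := by
    have := norm_sub_norm_le (d j) (D j)
    linarith [norm_D j]
  have h2 : ‖Complex.exp (Complex.I * ((t * c j : ℝ) : ℂ)) - 1‖ ≤ b := by
    refine Real.norm_exp_I_mul_ofReal_sub_one_le.trans ?_
    rw [Real.norm_eq_abs, abs_mul, abs_of_nonneg ht.1]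
    nlinarith [ht.1, ht.2, abs_nonneg (c j)]
  have h3 := norm_add_le (d j * (Complex.exp (Complex.I * ((t * c j : ℝ) : ℂ)) - 1)) (d j - D j)
  rw [norm_mul] at h3
  have h4 := mul_le_mul h1 h2 (norm_nonneg _) (by norm_num)
  rw [e]; linarith

lemma nr_rot {d : Fin 7 → ℂ} {c : Fin 7 → ℝ} {a b t : ℝ} (ha : a ≤ 1 / 2000) (h : Nr a d)
    (c2 : |c 2| ≤ b) (c3 : |c 3| ≤ b) (c4 : |c 4| ≤ b) (ht : t ∈ Icc (0 : ℝ) 1) :
    Nr (a + 5 * b) (rot d c t) :=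
  ⟨near_rot ha h.1 c2 ht, near_rot ha h.2.1 c3 ht, near_rot ha h.2.2 c4 ht⟩

lemma Nr.mono {d : Fin 7 → ℂ} {a b : ℝ} (h : Nr a d) (hab : a ≤ b) : Nr b d :=
  ⟨h.1.trans hab, h.2.1.trans hab, h.2.2.trans hab⟩

lemma along {e : ℝ} {d : Fin 7 → ℂ} {c : Fin 7 → ℝ} (he : 0 < e) (he1 : e ≤ 1 / 10 ^ 6)
    (h5 : d 5 = 2) (c5 : c 5 = 0) (hl : Len e d) (hi : ∀ k, 0 < gg d k)
    (hn : ∀ t ∈ Icc (0 : ℝ) 1, Nr (1 / 1000) (rot d c t))
    (hf : ∀ t ∈ Icc (0 : ℝ) 1, Free (rot d c t)) :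
    ∀ t ∈ Icc (0 : ℝ) 1, (∀ k, 0 < gg (rot d c t) k) ∧ ‖t2 (rot d c t)‖ ≤ 1000 * e := by
  have r5 : ∀ t, rot d c t 5 = 2 := fun t => by simp [rot, c5, h5]
  have hc : ∀ k, Continuous fun t : ℝ => gg (rot d c t) k := fun k =>
    (continuous_gg k).comp (continuous_rot d c)
  have hU : IsOpen {t : ℝ | ∀ k, 0 < gg (rot d c t) k} := by
    rw [Set.ofPred_forall]
    exact isOpen_iInter_of_finite fun k => isOpen_lt continuous_const (hc k)
  have hV : IsOpen {t : ℝ | ∃ k, gg (rot d c t) k < 0} := by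
    rw [Set.ofPred_exists]
    exact isOpen_iUnion fun k => isOpen_lt (hc k) continuous_const
  have := isPreconnected_Icc (a := (0 : ℝ)) (b := 1) |>.subset_left_of_subset_union hU hV ?_ ?_ ?_
  · intro t ht
    exact boot he he1 (r5 t) (len_rot hl c t) (hn t ht) (hf t ht) fun k => (this ht k).le
  · rw [Set.disjoint_left]
    rintro t h1 ⟨k, h2⟩
    exact absurd (h1 k) (not_lt.2 h2.le)
  · intro t ht
    by_cases h : ∃ k, gg (rot d c t) k < 0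
    · exact Or.inr h
    · left
      push Not at h
      exact (boot he he1 (r5 t) (len_rot hl c t) (hn t ht) (hf t ht) h).1
  · refine ⟨0, by simp, ?_⟩
    simpa [rot_zero] using hi

lemma short0 {e a : ℝ} {d : Fin 7 → ℂ} {c : Fin 7 → ℝ} (he : 0 < e) (he1 : e ≤ 1 / 10 ^ 6)
    (h5 : d 5 = 2) (c5 : c 5 = 0) (hl : Len e d) (hi : ∀ k, 0 < gg d k) (ha : a ≤ 1 / 2000)
    (hn : Nr a d) (hf : ∀ t ∈ Icc (0 : ℝ) 1, Free (rot d c t)) (c2 : |c 2| ≤ 1 / 10000)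
    (c3 : |c 3| ≤ 1 / 10000) (c4 : |c 4| ≤ 1 / 10000) :
    (|c 2| ≤ 200000 * √e ∧ |c 3| ≤ 200000 * √e ∧ |c 4| ≤ 200000 * √e) ∧
      ∀ k, 0 < gg (rot d c 1) k := by
  have hn' : ∀ t ∈ Icc (0 : ℝ) 1, Nr (1 / 1000) (rot d c t) := fun t ht =>
    (nr_rot ha hn c2 c3 c4 ht).mono (by linarith)
  have A := along he he1 h5 c5 hl hi hn' hf
  have m0 : (0 : ℝ) ∈ Icc (0 : ℝ) 1 := by simp
  have m1 : (1 : ℝ) ∈ Icc (0 : ℝ) 1 := by simp
  have mh : (1 / 2 : ℝ) ∈ Icc (0 : ℝ) 1 := ⟨by norm_num, by norm_num⟩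
  exact ⟨quad he he1 c5 (by linarith) (by linarith) (by linarith) (hn' _ mh) (A 0 m0).2
    (A _ mh).2 (A 1 m1).2, (A 1 m1).1⟩

/-- One move changes the three long links by `O(√e)` and keeps the lock. -/
lemma short {e a : ℝ} {d : Fin 7 → ℂ} {c : Fin 7 → ℝ} (he : 0 < e) (he1 : e ≤ 1 / 10 ^ 6)
    (he2 : 200000 * √e < 1 / 10000) (h5 : d 5 = 2) (c5 : c 5 = 0) (hl : Len e d)
    (hi : ∀ k, 0 < gg d k) (ha : a ≤ 1 / 2000) (hn : Nr a d)
    (hf : ∀ t ∈ Icc (0 : ℝ) 1, Free (rot d c t)) :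
    Nr (a + 5 * (200000 * √e)) (rot d c 1) ∧ ∀ k, 0 < gg (rot d c 1) k := by
  obtain ⟨W, hW⟩ : ∃ W, W = max |c 2| (max |c 3| |c 4|) := ⟨_, rfl⟩
  have w2 : |c 2| ≤ W := hW ▸ le_max_left _ _
  have w3 : |c 3| ≤ W := hW ▸ (le_max_left _ _).trans (le_max_right _ _)
  have w4 : |c 4| ≤ W := hW ▸ (le_max_right _ _).trans (le_max_right _ _)
  rcases le_or_gt W (1 / 10000) with h | h
  · obtain ⟨⟨q2, q3, q4⟩, q⟩ := short0 he he1 h5 c5 hl hi ha hn hf (w2.trans h) (w3.trans h)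
      (w4.trans h)
    exact ⟨nr_rot ha hn q2 q3 q4 (by simp), q⟩
  · exfalso
    have W0 : 0 < W := lt_trans (by norm_num) h
    obtain ⟨r, hr⟩ : ∃ r, r = 1 / 10000 / W := ⟨_, rfl⟩
    have r0 : 0 < r := hr ▸ div_pos (by norm_num) W0
    have r1 : r ≤ 1 := hr ▸ (div_le_one W0).2 h.le
    have rW : r * W = 1 / 10000 := by rw [hr]; field_simp
    have ab : ∀ j, |r * c j| = r * |c j| := fun j => by rw [abs_mul, abs_of_pos r0]
    have bd : ∀ j, |c j| ≤ W → |r * c j| ≤ 1 / 10000 := fun j hj => by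
      rw [ab, ← rW]; exact mul_le_mul_of_nonneg_left hj r0.le
    obtain ⟨⟨q2, q3, q4⟩, -⟩ := short0 (c := fun j => r * c j) he he1 h5 (by simp [c5]) hl hi ha hn
      (fun t ht => by
        have : rot d (fun j => r * c j) t = rot d c (t * r) := by
          ext j; simp only [rot, mul_assoc]
        rw [this]
        exact hf _ ⟨mul_nonneg ht.1 r0.le, mul_le_one₀ ht.2 r0.le r1⟩)
      (bd 2 w2) (bd 3 w3) (bd 4 w4)
    simp only [ab] at q2 q3 q4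
    have : r * W ≤ 200000 * √e := by
      rw [hW, mul_max_of_nonneg _ _ r0.le, mul_max_of_nonneg _ _ r0.le]
      exact max_le q2 (max_le q3 q4)
    linarith

lemma move_rot {p q : Fin (7 + 1) → ℂ} {d : Fin 7 → ℂ} {w : ℂ} (hw : w ≠ 0)
    (hr : ∀ j, lv p j = w * d j) (hm : IsMove p q) :
    ∃ c : Fin 7 → ℝ, c 5 = 0 ∧ (∃ w' : ℂ, w' ≠ 0 ∧ ∀ j, lv q j = w' * rot d c 1 j) ∧
      ∀ t ∈ Icc (0 : ℝ) 1, Free (rot d c t) := by
  obtain ⟨x, hx⟩ : ∃ x : St, dv x = d := by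
    refine ⟨(fun j => ‖d j / D j‖, fun j => Complex.arg (d j / D j)), ?_⟩
    ext j
    unfold dv
    simp only
    rw [mul_assoc, Complex.norm_mul_exp_arg_mul_I, mul_div_cancel₀ _ (D_ne j)]
  obtain ⟨c, -, ⟨u, hu, hq⟩, hf⟩ := move_segment (x := x) ⟨w, hw, by rw [hx]; exact hr⟩ hm
  have key : ∀ (t : ℝ) j, dv (x.1, x.2 + t • c) j =
      Complex.exp (((t * c 5 : ℝ) : ℂ) * Complex.I) * rot d (fun j => c j - c 5) t j := by
    intro t j
    rw [← hx]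
    unfold dv rot
    simp only [Pi.add_apply, Pi.smul_apply, smul_eq_mul]
    have : Complex.exp (((x.2 j + t * c j : ℝ) : ℂ) * Complex.I) =
        Complex.exp (((t * c 5 : ℝ) : ℂ) * Complex.I) * (Complex.exp ((x.2 j : ℂ) * Complex.I) *
          Complex.exp (((t * (c j - c 5) : ℝ) : ℂ) * Complex.I)) := by
      rw [← Complex.exp_add, ← Complex.exp_add]; congr 1; push_cast; ring
    rw [this]; ring
  refine ⟨fun j => c j - c 5, sub_self _, ⟨u * Complex.exp (((1 * c 5 : ℝ) : ℂ) * Complex.I),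
    mul_ne_zero hu (Complex.exp_ne_zero _), fun j => ?_⟩, fun t ht => ?_⟩
  · have := key 1 j
    rw [one_smul] at this
    rw [hq j, this, mul_assoc]
  · have := hf t ht
    rw [show dv (x.1, x.2 + t • c) = fun j => Complex.exp (((t * c 5 : ℝ) : ℂ) * Complex.I) *
      rot d (fun j => c j - c 5) t j from funext (key t)] at this
    exact this.of_mul

lemma not_straight' {p : Fin (7 + 1) → ℂ} {d : Fin 7 → ℂ} {w : ℂ} (hw : w ≠ 0)
    (hr : ∀ j, lv p j = w * d j) (h5 : d 5 = 2) (hi : ∀ k, 0 < gg d k) : ¬ IsStraight p := by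
  intro hs
  have h := hs 5 6 rfl
  unfold jointAngle at h
  rw [Complex.arg_coe_angle_eq_iff_eq_toReal, Real.Angle.toReal_pi, Complex.arg_eq_pi_iff] at h
  have e5 : p (Fin.castSucc 5) - p (Fin.succ 5) = w * (-d 5) := by
    have := hr 5; unfold lv at this; linear_combination (-1 : ℂ) * this
  have e6 : p (Fin.succ 6) - p (Fin.succ 5) = w * d 6 := hr 6
  rw [e5, e6, mul_div_mul_left _ _ hw, h5] at h
  have g0 : 0 < cross (d 6) (-d 5) := hi 0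
  have h2 := h.2
  rw [h5] at g0
  simp [cross, Complex.div_im] at g0 h2
  linarith

/-- The locked chain needs many moves. -/
lemma many {e : ℝ} (he : 0 < e) (he1 : e ≤ 1 / 10 ^ 6) (he2 : 200000 * √e < 1 / 10000) (m : ℕ) :
    ∀ (p : Fin (7 + 1) → ℂ) (d : Fin 7 → ℂ) (w : ℂ) (a : ℝ), w ≠ 0 → (∀ j, lv p j = w * d j) →
      d 5 = 2 → Len e d → (∀ k, 0 < gg d k) → Nr a d → StraightensIn p m →
      1 / 2000 < a + m * (5 * (200000 * √e)) := by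
  induction m with
  | zero =>
    rintro p d w a hw hr h5 - hi - ⟨c, c0, -, cs⟩
    rw [c0] at cs
    exact absurd cs (not_straight' hw hr h5 hi)
  | succ m ih =>
    rintro p d w a hw hr h5 hl hi hn ⟨c, c0, cm, cs⟩
    have hs := Real.sqrt_nonneg e
    rcases lt_or_ge (1 / 2000) a with ha | ha
    · have : 0 ≤ ((m + 1 : ℕ) : ℝ) * (5 * (200000 * √e)) := by positivity
      linarith
    have hmove := cm 0 (Nat.succ_pos _)
    rw [c0] at hmove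
    obtain ⟨v, v5, ⟨w', hw', hq⟩, hf⟩ := move_rot hw hr hmove
    obtain ⟨h1, h2⟩ := short he he1 he2 h5 v5 hl hi ha hn hf
    have := ih (c 1) _ w' _ hw' hq (by simp [rot, v5, h5]) (len_rot hl v 1) h2 h1
      ⟨fun k => c (k + 1), rfl, fun k hk => cm (k + 1) (by omega), cs⟩
    push_cast
    linarith

end Pool.Agent.MP_7e0f10_lc.R

end
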