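import Pool.Agent.Mg.F7e0f10a.G676b4a
import Pool.Agent.Mg.F7e0f10a.Gb84fa5

set_option linter.all false

section

namespace Pool.Agent.MP_7e0f10_lc.R

open Finset

theorem simple_Res {n : ℕ} (h : 7 + 1 ≤ n + 1) {p : Fin (n + 1) → ℂ} (hp : IsSimple p) :
    IsSimple fun k : Fin (7 + 1) => p (Fin.castLE h k) :=
  ⟨fun i => hp.1 (Fin.castLE (by omega) i),
    fun i j hij => hp.2.1 (Fin.castLE (by omega) i) (Fin.castLE (by omega) j) hij,
    fun i j hij => hp.2.2 (Fin.castLE (by omega) i) (Fin.castLE (by omega) j) hij⟩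

theorem s_res : SRes := by
  refine ⟨fun n p hp => ⟨fun i => dist_pos.2 (hp.1 i i.2), fun i j hij x hx => ?_,
    fun i j hij => Set.disjoint_left.2 fun x h1 h2 => ?_⟩, fun n h p m hp => ?_⟩
  · have := (hp.2 i j (by omega) j.2 x hx.1 hx.2).2
    rw [← hij] at this
    exact this
  · have := (hp.2 i j (by omega) j.2 x h1 h2).1
    omega
  · obtain ⟨c, h0, h1, h2⟩ := hp
    refine ⟨fun k j => c k (Fin.castLE h j), funext fun _ => congrFun h0 _, fun k hk => ?_,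
      fun i j hij => h2 (Fin.castLE (by omega) i) (Fin.castLE (by omega) j) hij⟩
    obtain ⟨γ, a1, a2, a3, a4, a5⟩ := h1 k hk
    exact ⟨fun t j => γ t (Fin.castLE h j),
      continuousOn_pi.2 fun j => continuousOn_pi.1 a1 (Fin.castLE h j),
      funext fun _ => congrFun a2 _, funext fun _ => congrFun a3 _,
      fun t ht => ⟨simple_Res h (a4 t ht).1, fun i => (a4 t ht).2 (Fin.castLE (by omega) i)⟩,
      fun i j hij => a5 (Fin.castLE (by omega) i) (Fin.castLE (by omega) j) hij⟩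

end Pool.Agent.MP_7e0f10_lc.R

end

section

/-! The lower bound. -/

namespace Pool.Agent.MP_7e0f10_lc.R

open Pool.Agent.MP_7e0f10_lc

/-- Link vectors of the first seven links. -/
noncomputable def dh (e : ℝ) : Fin 7 → ℂ :=
  ![⟨-2 + 100 * e, 9 * e⟩, ⟨2 + 160 * e, 110 * e⟩, ⟨-1 - 240 * e, -1 - 120 * e⟩, ⟨3, 2⟩, ⟨-4, -1⟩,
    2, ⟨-(1000 * e), 100 * e⟩]

lemma lv_hook (n : ℕ) (h : 7 + 1 ≤ n + 1) (e : ℝ) (j : Fin 7) :
    lv (fun k : Fin (7 + 1) => hook n e (Fin.castLE h k)) j = 1 * dh e j := by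
  have h6 : lam n 6 = 0 := by simp [lam]
  have h7 : lam n 7 = 1 := by simp [lam]
  have : lv (fun k : Fin (7 + 1) => hook n e (Fin.castLE h k)) j =
      hook n e (j.val + 1) - hook n e j.val := rfl
  rw [this, one_mul]
  fin_cases j <;> apply Complex.ext <;> simp [hook, dh, h6, h7] <;> ring

lemma dh_inv {e : ℝ} (h0 : 0 < e) (h1 : e ≤ 1 / 10 ^ 6) : ∀ k, 0 < gg (dh e) k := by
  have h2 : e * e ≤ 1 / 10 ^ 6 * e := mul_le_mul_of_nonneg_right h1 h0.le
  have h3 := mul_pos h0 h0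
  intro k
  fin_cases k <;> simp [gg, g, dh, t1, t2, t5, t6, cross] <;> nlinarith

lemma dh_len {e : ℝ} (h0 : 0 < e) (h1 : e ≤ 1 / 10 ^ 6) : Len e (dh e) := by
  have h2 : e * e ≤ 1 / 10 ^ 6 * e := mul_le_mul_of_nonneg_right h1 h0.le
  have h3 := mul_pos h0 h0
  refine ⟨?_, ?_, ?_⟩ <;> simp [dh, dot] <;> nlinarith

lemma dh_nr {e : ℝ} (h0 : 0 < e) : Nr (360 * e) (dh e) := by
  refine ⟨?_, ?_, ?_⟩ <;> refine (Complex.norm_le_abs_re_add_abs_im _).trans ?_ <;> simp [dh, D]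
  · rw [abs_of_nonpos (by linarith), abs_of_nonpos (by linarith)]; linarith
  · linarith
  · linarith

theorem lower_sqrt (n : ℕ) (hn : 7 ≤ n) : ∃ c : ℝ, 0 < c ∧ ∃ R₀ : ℝ, ∀ R ≥ R₀,
    ∃ p : Fin (n + 1) → ℂ, IsSimple p ∧ RatioLe p R ∧
      ∀ m : ℕ, StraightensIn p m → c * √R ≤ m := by
  have n0 : (0 : ℝ) < n := by exact_mod_cast (by omega : 0 < n)
  obtain ⟨K, hK⟩ : ∃ K : ℝ, K = 400000 * n := ⟨_, rfl⟩
  have K0 : 0 < K := by rw [hK]; positivity
  have sK := Real.sqrt_pos.2 K0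
  refine ⟨1 / (4 * 10 ^ 9 * √K), by positivity, K * 10 ^ 20, fun R hR => ?_⟩
  have R0 : 0 < R := lt_of_lt_of_le (by positivity) hR
  obtain ⟨e, he⟩ : ∃ e, e = K / R := ⟨_, rfl⟩
  have e0 : 0 < e := he ▸ div_pos K0 R0
  have e1 : e ≤ 1 / 10 ^ 20 := by
    rw [he, div_le_div_iff₀ R0 (by positivity)]; linarith
  have e2 : e ≤ 1 / 10 ^ 6 := e1.trans (by norm_num)
  have e3 : √e ≤ 1 / 10 ^ 10 := Real.sqrt_le_iff.2 ⟨by positivity, e1.trans (by norm_num)⟩
  obtain ⟨hE, hL⟩ := s_cfgE n e hn e0 e2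
  refine ⟨fun k => hook n e k, s_res.1 n _ (s_cfgS n e hn e0 e2), ?_, fun m hm => ?_⟩
  · intro j v i h1 h2
    have a := hE v (by have := v.2; omega) i i.2 (fun h => h1 (Fin.ext h)) (fun h => h2 (Fin.ext h))
    have b := hL j j.2
    have c : R * (e / (80000 * n)) = 5 := by rw [he, hK]; field_simp; norm_num
    have d : linkLength (fun k : Fin (n + 1) => hook n e k) j = ‖hook n e (j + 1) - hook n e j‖ := by
      unfold linkLength; rw [dist_comm, dist_eq_norm]; rfl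
    have f : ellDist (fun k : Fin (n + 1) => hook n e k) v i = ‖hook n e v - hook n e i‖ +
        ‖hook n e v - hook n e (i + 1)‖ - ‖hook n e (i + 1) - hook n e i‖ := by
      unfold ellDist linkLength
      rw [dist_eq_norm, dist_eq_norm, dist_comm, dist_eq_norm]; rfl
    rw [d, f]
    exact b.trans (c ▸ mul_le_mul_of_nonneg_left a R0.le)
  · have h8 : 7 + 1 ≤ n + 1 := by omega
    have key := many e0 e2 (by linarith) m _ (dh e) 1 (360 * e) one_ne_zero (lv_hook n h8 e)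
      (by simp [dh]) (dh_len e0 e2) (dh_inv e0 e2) (dh_nr e0) (s_res.2 n h8 _ m hm)
    have q : √e * √R = √K := by
      rw [← Real.sqrt_mul e0.le, he]; congr 1; field_simp
    have sR := Real.sqrt_nonneg R
    have k2 : 1 ≤ 4 * 10 ^ 9 * (m * √e) := by linarith
    have k3 := mul_le_mul_of_nonneg_right k2 sR
    rw [div_mul_eq_mul_div, div_le_iff₀ (by positivity), ← q]
    linarith

end Pool.Agent.MP_7e0f10_lc.R

end
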