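import Pool.Agent.Mg.F7e0f10a.G202641

set_option linter.all false

/-! Sides of a link, and segments in angle space between chains with the same sides. -/

namespace Pool.Agent.MP_7e0f10_lc.R

open Finset

theorem succ_Chord (l φ : ℕ → ℝ) (i : ℕ) :
    pos l φ (i + 1) - pos l φ i = (l i : ℂ) * Complex.exp ((φ i : ℂ) * Complex.I) := by
  rw [pos, sum_range_succ, pos, add_sub_cancel_left]

theorem unit_Chord (a : ℝ) : ‖Complex.exp (-(a : ℂ) * Complex.I)‖ = 1 := by
  rw [← Complex.ofReal_neg, Complex.norm_exp_ofReal_mul_I]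

theorem frame_Chord (l φ : ℕ → ℝ) (i : ℕ) :
    (pos l φ (i + 1) - pos l φ i) * Complex.exp (-(φ i : ℂ) * Complex.I) = l i := by
  rw [succ_Chord, mul_assoc, ← Complex.exp_add]
  simp

theorem s_side : SSide := by
  intro n l φ E hl hS v hv i hi h1 h2
  have h := hS v hv i hi h1 h2
  have e1 : ‖pos l φ v - pos l φ i‖ = ‖rel l φ v i‖ := by
    rw [rel, norm_mul, unit_Chord, mul_one]
  have e2 : ‖pos l φ v - pos l φ (i + 1)‖ = ‖rel l φ v i - l i‖ := by
    rw [rel, ← frame_Chord l φ i, ← sub_mul, norm_mul, unit_Chord, mul_one]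
    congr 1
    ring
  have e3 : ‖pos l φ (i + 1) - pos l φ i‖ = l i := by
    rw [succ_Chord, norm_mul, Complex.norm_exp_ofReal_mul_I, mul_one, Complex.norm_real,
      Real.norm_of_nonneg (hl i hi).le]
  rw [e1, e2, e3] at h
  generalize rel l φ v i = z at h ⊢
  have a1 := Complex.norm_le_abs_re_add_abs_im z
  have a2 := Complex.norm_le_abs_re_add_abs_im (z - l i)
  simp only [Complex.sub_re, Complex.ofReal_re, Complex.sub_im, Complex.ofReal_im, sub_zero] at a2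
  by_contra hc
  have b0 : ¬ E / 4 ≤ z.im := fun k => hc ⟨0, Or.inl ⟨rfl, k⟩⟩
  have b1 : ¬ z.im ≤ -(E / 4) := fun k => hc ⟨1, Or.inr (Or.inl ⟨rfl, k⟩)⟩
  have b2 : ¬ z.re ≤ -(E / 4) := fun k => hc ⟨2, Or.inr (Or.inr (Or.inl ⟨rfl, k⟩))⟩
  have b3 : ¬ l i + E / 4 ≤ z.re := fun k => hc ⟨3, Or.inr (Or.inr (Or.inr ⟨rfl, k⟩))⟩
  have := hl i hi
  rcases abs_cases z.re with c1 | c1 <;> rcases abs_cases (z.re - l i) with c2 | c2 <;>
    rcases abs_cases z.im with c3 | c3 <;> linarith [c1.1, c1.2, c2.1, c2.2, c3.1, c3.2]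

theorem diff_Chord {F : Type} [NormedAddCommGroup F] (g : ℕ → F) {n v i : ℕ} (hv : v ≤ n)
    (hi : i ≤ n) : ‖∑ m ∈ range v, g m - ∑ m ∈ range i, g m‖ ≤ ∑ m ∈ range n, ‖g m‖ := by
  wlog h : i ≤ v generalizing v i
  · rw [norm_sub_rev]
    exact this hi hv (by omega)
  rw [← sum_Ico_eq_sub _ h]
  refine (norm_sum_le _ _).trans (sum_le_sum_of_subset_of_nonneg (fun m hm => ?_)
    fun _ _ _ => norm_nonneg _)
  have := mem_Ico.1 hm
  exact mem_range.2 (by omega)

theorem ang_Chord {n : ℕ} (φ ψ : ℕ → ℝ) {m i : ℕ} (hm : m < n) (hi : i < n) :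
    |(ψ m - ψ i) - (φ m - φ i)| ≤ dst n φ ψ := by
  have h := diff_Chord (fun k => tau φ k - tau ψ k) (n := n - 1) (v := i) (i := m) (by omega)
    (by omega)
  simp only [tau, sum_sub_distrib] at h
  have e : ∀ (f : ℕ → ℝ) (k : ℕ), ∑ j ∈ range k, f (j + 1) - ∑ j ∈ range k, f j = f k - f 0 :=
    fun f k => by rw [← sum_sub_distrib, sum_range_sub]
  rw [Real.norm_eq_abs] at h
  refine le_trans (le_of_eq ?_) h
  congr 1
  linarith [e φ i, e φ m, e ψ i, e ψ m]

theorem exp_Chord {t b : ℝ} (h0 : 0 ≤ t) (h1 : t ≤ 1) (hb : |b| ≤ 1) :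
    ‖Complex.exp (((t * b : ℝ) : ℂ) * Complex.I) - (1 - t) -
      t * Complex.exp ((b : ℂ) * Complex.I)‖ ≤ 2 * b ^ 2 := by
  have key : ∀ x : ℝ, |x| ≤ 1 →
      ‖Complex.exp ((x : ℂ) * Complex.I) - 1 - (x : ℂ) * Complex.I‖ ≤ x ^ 2 := by
    intro x hx
    have e : ‖(x : ℂ) * Complex.I‖ = |x| := by simp
    have := Complex.norm_exp_sub_one_sub_id_le (x := (x : ℂ) * Complex.I) (by rwa [e])
    rwa [e, sq_abs] at this
  have htb : |t * b| ≤ 1 := by
    rw [abs_mul, abs_of_nonneg h0]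
    exact mul_le_one₀ h1 (abs_nonneg _) hb
  have a1 := key _ htb
  have a2 := key _ hb
  have e : Complex.exp (((t * b : ℝ) : ℂ) * Complex.I) - (1 - t) -
      t * Complex.exp ((b : ℂ) * Complex.I) =
      (Complex.exp (((t * b : ℝ) : ℂ) * Complex.I) - 1 - ((t * b : ℝ) : ℂ) * Complex.I) -
        t * (Complex.exp ((b : ℂ) * Complex.I) - 1 - (b : ℂ) * Complex.I) := by
    push_cast
    ring
  rw [e]
  refine (norm_sub_le _ _).trans ?_
  rw [norm_mul, Complex.norm_real, Real.norm_of_nonneg h0]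
  have a3 : t * ‖Complex.exp ((b : ℂ) * Complex.I) - 1 - (b : ℂ) * Complex.I‖ ≤ 1 * b ^ 2 :=
    mul_le_mul h1 a2 (norm_nonneg _) zero_le_one
  have a4 : (t * b) ^ 2 ≤ 1 * b ^ 2 := by
    rw [mul_pow]
    exact mul_le_mul_of_nonneg_right (pow_le_one₀ h0 h1) (sq_nonneg b)
  linarith

theorem rel_Chord (l f : ℕ → ℝ) (v i : ℕ) : rel l f v i =
    ∑ m ∈ range v, (l m : ℂ) * Complex.exp (((f m - f i : ℝ) : ℂ) * Complex.I) -
      ∑ m ∈ range i, (l m : ℂ) * Complex.exp (((f m - f i : ℝ) : ℂ) * Complex.I) := by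
  have e : ∀ m, (l m : ℂ) * Complex.exp (((f m - f i : ℝ) : ℂ) * Complex.I) =
      (l m : ℂ) * Complex.exp ((f m : ℂ) * Complex.I) * Complex.exp (-(f i : ℂ) * Complex.I) := by
    intro m
    rw [mul_assoc, ← Complex.exp_add]
    congr 2
    push_cast
    ring
  simp only [e, ← sum_mul, rel, pos, sub_mul]

theorem near_Chord {n : ℕ} {l φ ψ : ℕ → ℝ} {s t : ℝ} (hl : ∀ m < n, 0 < l m)
    (hd : dst n φ ψ ≤ s) (hs : s ≤ 1) (h0 : 0 ≤ t) (h1 : t ≤ 1) {v i : ℕ} (hv : v ≤ n)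
    (hi : i < n) : ‖rel l (mix φ ψ t) v i - ((1 - t) * rel l φ v i + t * rel l ψ v i)‖ ≤
      2 * (∑ m ∈ range n, l m) * s ^ 2 := by
  have h := diff_Chord (fun m => (l m : ℂ) *
      Complex.exp (((mix φ ψ t m - mix φ ψ t i : ℝ) : ℂ) * Complex.I) -
    ((1 - t) * ((l m : ℂ) * Complex.exp (((φ m - φ i : ℝ) : ℂ) * Complex.I)) +
      t * ((l m : ℂ) * Complex.exp (((ψ m - ψ i : ℝ) : ℂ) * Complex.I)))) hv hi.le
  refine le_trans (le_of_eq ?_) (h.trans ?_)
  · simp only [rel_Chord, sum_sub_distrib, sum_add_distrib, ← mul_sum]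
    congr 1
    ring
  · rw [mul_assoc, sum_mul, mul_sum]
    refine sum_le_sum fun m hm => ?_
    have hm := mem_range.1 hm
    have hb := (ang_Chord φ ψ hm hi).trans hd
    have a1 := exp_Chord h0 h1 (hb.trans hs)
    set b := (ψ m - ψ i) - (φ m - φ i) with hbd
    have e1 : mix φ ψ t m - mix φ ψ t i = (φ m - φ i) + t * b := by
      simp only [mix, hbd]
      ring
    have e2 : ψ m - ψ i = (φ m - φ i) + b := by
      simp only [hbd]
      ring
    rw [e1, e2, Complex.ofReal_add, Complex.ofReal_add, add_mul, add_mul, Complex.exp_add,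
      Complex.exp_add]
    have e3 : ∀ x y z w u : ℂ, x * (y * z) - ((1 - u) * (x * y) + u * (x * (y * w))) =
        x * (y * (z - (1 - u) - u * w)) := fun _ _ _ _ _ => by ring
    rw [e3, norm_mul, norm_mul, Complex.norm_exp_ofReal_mul_I, one_mul, Complex.norm_real,
      Real.norm_of_nonneg (hl m hm).le]
    have a2 : b ^ 2 ≤ s ^ 2 := sq_le_sq' (by linarith [(abs_le.1 hb).1]) (abs_le.1 hb).2
    nlinarith [hl m hm]

theorem s_chord (h : SStay) : SChord := by
  intro n l φ ψ μ s hl hS hd hs hμ hside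
  refine h n (fun t => pos l (mix φ ψ t)) (fun k => ?_) ?_ fun t ht => ⟨fun i hi e => ?_, ?_⟩
  · simp only [pos, mix]
    fun_prop
  · have : mix φ ψ 0 = φ := funext fun m => by simp [mix]
    simpa only [this] using hS
  · have a1 := frame_Chord l (mix φ ψ t) i
    rw [← e, sub_self, zero_mul] at a1
    exact (hl i hi).ne (by exact_mod_cast a1)
  · intro v hv i hi h1 h2 hm
    rw [lk, segment_eq_image'] at hm
    obtain ⟨r, ⟨r0, r1⟩, hr⟩ := hm
    have e : rel l (mix φ ψ t) v i = ((r * l i : ℝ) : ℂ) := by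
      simp only at hr
      rw [rel, ← hr, add_sub_cancel_left, Complex.real_smul, mul_assoc, frame_Chord,
        Complex.ofReal_mul]
    have a1 := (near_Chord hl hd hs ht.1 ht.2 hv hi).trans_lt hμ
    rw [e] at a1
    have a2 := abs_lt.1 ((Complex.abs_re_le_norm _).trans_lt a1)
    have a3 := abs_lt.1 ((Complex.abs_im_le_norm _).trans_lt a1)
    simp only [Complex.sub_re, Complex.add_re, Complex.mul_re, Complex.ofReal_re, Complex.one_re,
      Complex.sub_im, Complex.add_im, Complex.mul_im, Complex.ofReal_im, Complex.one_im, sub_zero,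
      zero_mul, add_zero, sub_self] at a2 a3
    obtain ⟨a, s1, s2⟩ := hside v hv i hi h1 h2
    have t0 := ht.1
    have t1 := sub_nonneg.2 ht.2
    have l0 := mul_nonneg r0 (hl i hi).le
    have l1 := mul_nonneg (sub_nonneg.2 r1) (hl i hi).le
    rcases s1 with ⟨rfl, s1⟩ | ⟨rfl, s1⟩ | ⟨rfl, s1⟩ | ⟨rfl, s1⟩ <;>
      simp only [Side, Fin.reduceEq, true_and, false_and, or_false, false_or] at s2 <;>
      nlinarith [mul_le_mul_of_nonneg_left s1 t1, mul_le_mul_of_nonneg_left s2 t0, a2.1, a2.2,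
        a3.1, a3.2]

end Pool.Agent.MP_7e0f10_lc.R
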