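import Pool.Agent.Mg.F7e0f10a.G202641
import Pool.Agent.Mg.F7e0f10a.Gc270ff

set_option linter.all false

section

namespace Pool.Agent.MP_7e0f10_lc.R

open Finset

lemma wt_Kink (x u a b : ℂ) (t : ℝ) : wt (x + t * u) u a b = wt x u a b := by
  have h : ∀ z : ℂ, cr u (z - (x + t * u)) = cr u (z - x) := fun z => by simp [cr]; ring
  simp only [wt, h]

lemma cr_Kink (x u a b : ℂ) (t : ℝ) :
    cr (a - (x + t * u)) (b - (x + t * u)) = cr (a - x) (b - x) - t * cr u (b - a) := by
  simp [cr]; ring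

lemma abs_Kink (u v : ℂ) : |cr u v| ≤ ‖u‖ * ‖v‖ := by
  have h : cr u v = ((starRingEnd ℂ) u * v).im := by simp [cr]; ring
  rw [h]
  exact (Complex.abs_im_le_norm _).trans (by simp)

lemma wbd_Kink (x u a b : ℂ) : |wt x u a b| ≤ 2 := by
  unfold wt
  rcases Real.sign_apply_eq (cr u (a - x)) with h | h | h <;>
    rcases Real.sign_apply_eq (cr u (b - x)) with h' | h' | h' <;> rw [h, h'] <;> norm_num

theorem s_kink : SKink := by
  intro n p σ x u
  have h : ∀ᶠ t : ℝ in nhds 0, ∀ i ∈ range (n + 1), ∀ j ∈ range (n + 1),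
      cr (p i - x) (p j - x) ≠ 0 → |t * cr u (p j - p i)| < |cr (p i - x) (p j - x)| := by
    simp only [Filter.eventually_all_finset]
    intro i _ j _
    by_cases h0 : cr (p i - x) (p j - x) = 0
    · exact Filter.Eventually.of_forall fun _ h => absurd h0 h
    · have hc : Continuous fun t : ℝ => |t * cr u (p j - p i)| := by fun_prop
      exact (hc.continuousAt.eventually_lt continuousAt_const (by simpa using h0)).mono
        fun _ h _ => h
  obtain ⟨t0, h0, ht0⟩ := Metric.eventually_nhds_iff.1 h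
  refine ⟨t0, h0, fun t ht ht' => ?_⟩
  have h1 := ht0 (y := t) (by simpa [abs_of_pos ht] using ht')
  have e : x - t * u = x + (-t : ℝ) * u := by push_cast; ring
  rw [e]
  simp only [airy, kink, wt_Kink, cr_Kink, mul_sum, ← sum_add_distrib, ← sum_sub_distrib]
  refine sum_congr rfl fun i hi => sum_congr rfl fun j hj => ?_
  split_ifs with hc
  · simp only [hc, zero_sub, abs_neg, abs_mul, abs_of_pos ht, abs_zero]
    ring
  · have h2 := h1 i hi j hj hc
    have h3 : |cr (p i - x) (p j - x) - t * cr u (p j - p i)| +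
        |cr (p i - x) (p j - x) - -t * cr u (p j - p i)| = 2 * |cr (p i - x) (p j - x)| := by
      rw [abs_lt] at h2
      rcases lt_or_gt_of_ne hc with h4 | h4
      · rw [abs_of_neg h4] at h2 ⊢
        rw [abs_of_neg (by linarith), abs_of_neg (by linarith)]; ring
      · rw [abs_of_pos h4] at h2 ⊢
        rw [abs_of_pos (by linarith), abs_of_pos (by linarith)]; ring
    linear_combination (σ i j * wt x u (p i) (p j)) * h3

theorem s_lip (h : SInd) : SLip := by
  intro n p σ hE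
  constructor
  · obtain ⟨K, hK⟩ : ∃ K : ℝ, K = ∑ i ∈ range (n + 1), ∑ j ∈ range (n + 1),
      |σ i j| * (‖p j - p i‖ * 2) := ⟨_, rfl⟩
    refine (LipschitzWith.of_dist_le' (K := K) fun y x => ?_).continuous
    by_cases hyx : y = x
    · simp [hyx]
    have hu : y - x ≠ 0 := sub_ne_zero.2 hyx
    have e : y = x + (1 : ℝ) * (y - x) := by simp
    rw [Real.dist_eq, h n p σ hE y 1 _ one_ne_zero hu, h n p σ hE x 1 _ one_ne_zero hu,
      dist_eq_norm, hK]
    generalize y - x = u at e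
    subst e
    simp only [airy, wt_Kink, cr_Kink, ← sum_sub_distrib, sum_mul]
    refine (abs_sum_le_sum_abs _ _).trans (sum_le_sum fun i _ =>
      (abs_sum_le_sum_abs _ _).trans (sum_le_sum fun j _ => ?_))
    rw [← mul_sub, ← sub_mul, abs_mul, abs_mul, mul_assoc]
    refine mul_le_mul_of_nonneg_left ?_ (abs_nonneg _)
    have h1 := (abs_abs_sub_abs_le_abs_sub
      (cr (p i - x) (p j - x) - 1 * cr u (p j - p i)) (cr (p i - x) (p j - x))).trans
      (by simpa using abs_Kink u (p j - p i) : _ ≤ ‖u‖ * ‖p j - p i‖)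
    exact (mul_le_mul h1 (wbd_Kink _ _ _ _) (abs_nonneg _) (by positivity)).trans_eq (by ring)
  · refine ⟨1 + ∑ i ∈ range (n + 1), ‖p i‖, fun x hx => ?_⟩
    have h0 : 0 ≤ ∑ i ∈ range (n + 1), ‖p i‖ := sum_nonneg fun _ _ => norm_nonneg _
    have hx0 : 0 < ‖x‖ := by linarith
    have h1 : ∀ i ∈ range (n + 1), Real.sign (cr (Complex.I * x) (p i - x)) = 1 := by
      intro i hi
      have h2 := single_le_sum (f := fun i => ‖p i‖) (fun _ _ => norm_nonneg _) hi
      have h3 : cr (Complex.I * x) (p i - x) = ‖x‖ ^ 2 + cr (Complex.I * x) (p i) := by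
        rw [Complex.sq_norm, Complex.normSq_apply]
        simp [cr]; ring
      have h4 := (abs_le.1 (abs_Kink (Complex.I * x) (p i))).1
      rw [norm_mul, Complex.norm_I, one_mul] at h4
      refine Real.sign_of_pos ?_
      have h5 : ‖x‖ * ‖p i‖ < ‖x‖ * ‖x‖ := mul_lt_mul_of_pos_left (by linarith) hx0
      rw [h3]; linarith
    rw [h n p σ hE x 1 (Complex.I * x) one_ne_zero
      (mul_ne_zero Complex.I_ne_zero (norm_pos_iff.1 hx0))]
    refine sum_eq_zero fun i hi => sum_eq_zero fun j hj => ?_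
    simp [wt, h1 i hi, h1 j hj]

theorem s_max : SMax := by
  intro f R hf hR hw x0
  by_contra hpos
  rw [not_le] at hpos
  have hb : ∀ x, 0 < f x → x ∈ Metric.closedBall (0 : ℂ) R := fun x hx => by
    by_contra h
    rw [mem_closedBall_zero_iff, not_le] at h
    exact hx.ne' (hR x h.le)
  obtain ⟨y, -, hy⟩ := (isCompact_closedBall (0 : ℂ) R).exists_isMaxOn ⟨x0, hb x0 hpos⟩
    hf.continuousOn
  have hy0 : 0 < f y := hpos.trans_le (hy (hb x0 hpos))
  have hmax : ∀ z, f z ≤ f y := fun z => by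
    by_cases h : 0 < f z
    · exact hy (hb z h)
    · linarith
  have hK : IsCompact {z | f z = f y} := (isCompact_closedBall (0 : ℂ) R).of_isClosed_subset
    (isClosed_eq hf continuous_const) fun z hz => hb z (hy0.trans_eq hz.symm)
  obtain ⟨x, hx, hn⟩ := hK.exists_isMaxOn ⟨y, rfl⟩ continuous_norm.continuousOn
  obtain ⟨w, hw0, h2⟩ := hw x
  have hx' : f x = f y := hx
  have h3 : ‖x + w‖ ≤ ‖x‖ := hn (show f (x + w) = f y by linarith [hmax (x + w), hmax (x - w)])
  have h4 : ‖x - w‖ ≤ ‖x‖ := hn (show f (x - w) = f y by linarith [hmax (x + w), hmax (x - w)])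
  have h5 := parallelogram_law_with_norm ℝ x w
  have h6 := pow_le_pow_left₀ (norm_nonneg _) h3 2
  have h7 := pow_le_pow_left₀ (norm_nonneg _) h4 2
  have h8 := norm_pos_iff.2 hw0
  nlinarith

end Pool.Agent.MP_7e0f10_lc.R

end

section

/-! The height function is convex in some direction at every point. -/

namespace Pool.Agent.MP_7e0f10_lc.R

open Finset

theorem s_bar : SBar := by
  intro x u a b h hx
  have hd : cr u (b - a) = cr u (b - x) - cr u (a - x) := by
    simp only [cr, Complex.sub_re, Complex.sub_im]; ring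
  have hre : cr u (b - x) * (a.re - x.re) = cr u (a - x) * (b.re - x.re) := by
    simp only [cr, Complex.sub_re, Complex.sub_im] at h ⊢
    linear_combination u.re * h
  have him : cr u (b - x) * (a.im - x.im) = cr u (a - x) * (b.im - x.im) := by
    simp only [cr, Complex.sub_re, Complex.sub_im] at h ⊢
    linear_combination u.im * h
  unfold wt
  rw [hd]
  generalize cr u (a - x) = A at hre him
  generalize cr u (b - x) = B at hre him
  by_cases hAB : A = B
  · rw [hAB, sub_self, abs_zero, zero_mul]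
  by_cases hp : 0 < A * B
  · rcases pos_and_pos_or_neg_and_neg_of_mul_pos hp with ⟨h1, h2⟩ | ⟨h1, h2⟩
    · rw [Real.sign_of_pos h1, Real.sign_of_pos h2]; norm_num
    · rw [Real.sign_of_neg h1, Real.sign_of_neg h2]; norm_num
  exfalso
  have hp' : A * B ≤ 0 := not_lt.1 hp
  have hne : B - A ≠ 0 := sub_ne_zero.2 (Ne.symm hAB)
  have hs : 0 ≤ B / (B - A) ∧ 0 ≤ -A / (B - A) := by
    rcases lt_or_gt_of_ne hAB with h1 | h1
    · exact ⟨div_nonneg (by nlinarith) (by linarith), div_nonneg (by nlinarith) (by linarith)⟩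
    · exact ⟨div_nonneg_of_nonpos (by nlinarith) (by linarith),
        div_nonneg_of_nonpos (by nlinarith) (by linarith)⟩
  refine hx ⟨B / (B - A), -A / (B - A), hs.1, hs.2, by field_simp; ring, ?_⟩
  apply Complex.ext
  · simp only [Complex.add_re, Complex.smul_re, smul_eq_mul]
    field_simp
    linear_combination hre
  · simp only [Complex.add_im, Complex.smul_im, smul_eq_mul]
    field_simp
    linear_combination him

theorem joint_Conv {n : ℕ} {p : ℕ → ℂ} (h : Simp n p) {v i : ℕ} (hv : v ≤ n) (hi : i < n)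
    (h1 : v ≠ i) (h2 : v ≠ i + 1) : p v ∉ lk p i := by
  intro hm
  rcases lt_or_gt_of_ne h1 with h3 | h3
  · obtain ⟨h4, h5⟩ := h.2 v i h3 hi (p v) (left_mem_segment ℝ _ _) hm
    exact h.1 v (by omega) (by rw [← h4]; exact h5)
  · obtain ⟨w, rfl⟩ : ∃ w, v = w + 1 := ⟨v - 1, by omega⟩
    obtain ⟨-, h5⟩ := h.2 i w (by omega) (by omega) (p (w + 1)) hm (right_mem_segment ℝ _ _)
    exact h.1 w (by omega) h5.symm

theorem s_inj : SInj := by
  intro n p h i j hij hj he
  by_cases h1 : j = i + 1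
  · exact h.1 i (by omega) (by rw [← h1]; exact he)
  · refine joint_Conv h hj (by omega : i < n) (by omega) h1 ?_
    rw [← he]
    exact left_mem_segment ℝ _ _

open Classical in
/-- the geometric factor of a term of `kink` -/
noncomputable def gf_Conv (x u a b : ℂ) : ℝ :=
  if cr (a - x) (b - x) = 0 then |cr u (b - a)| * wt x u a b else 0

theorem kink_Conv (n : ℕ) (p : ℕ → ℂ) (σ : ℕ → ℕ → ℝ) (x u : ℂ) :
    kink n p σ x u =
      ∑ i ∈ range (n + 1), ∑ j ∈ range (n + 1), σ i j * gf_Conv x u (p i) (p j) := by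
  unfold kink gf_Conv
  refine sum_congr rfl fun i _ => sum_congr rfl fun j _ => ?_
  split_ifs
  · rfl
  · rw [mul_zero]

theorem nn_Conv (x u a b : ℂ) : 0 ≤ gf_Conv x u a b := by
  unfold gf_Conv wt
  split_ifs
  · refine mul_nonneg (abs_nonneg _) ?_
    rcases Real.sign_apply_eq (cr u (a - x)) with h | h | h <;>
      rcases Real.sign_apply_eq (cr u (b - x)) with h' | h' | h' <;> rw [h, h'] <;> norm_num
  · exact le_rfl

theorem sym_Conv (x u a b : ℂ) : gf_Conv x u a b = gf_Conv x u b a := by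
  have h1 : cr (b - x) (a - x) = -cr (a - x) (b - x) := by simp only [cr]; ring
  have h2 : cr u (a - b) = -cr u (b - a) := by
    simp only [cr, Complex.sub_re, Complex.sub_im]; ring
  unfold gf_Conv wt
  rw [h1, h2, abs_neg, mul_comm (Real.sign (cr u (b - x)))]
  simp only [neg_eq_zero]

theorem par_Conv (x u a b : ℂ) (h : cr u (b - a) = 0) : gf_Conv x u a b = 0 := by
  unfold gf_Conv
  rw [h, abs_zero, zero_mul, ite_self]

theorem off_Conv (x u a b : ℂ) (h : x ∉ segment ℝ a b) : gf_Conv x u a b = 0 := by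
  unfold gf_Conv
  split_ifs with h1
  · exact s_bar x u a b h1 h
  · rfl

theorem at_Conv (u a b : ℂ) : gf_Conv a u a b = |cr u (b - a)| := by
  have h1 : ∀ z, cr (a - a) z = 0 := fun z => by simp [cr]
  have h2 : cr u (a - a) = 0 := by simp [cr]
  unfold gf_Conv wt
  rw [if_pos (h1 _), h2, Real.sign_zero, zero_mul, sub_zero, mul_one]

theorem term_Conv {n : ℕ} {σ : ℕ → ℕ → ℝ} (hs : ∀ i j, σ i j = σ j i)
    (hσ : ∀ i j, i + 2 ≤ j → j ≤ n → 0 ≤ σ i j) {i j : ℕ} (hi : i ≤ n) (hj : j ≤ n) {g : ℝ}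
    (hg : 0 ≤ g) (h0 : j = i ∨ j = i + 1 ∨ i = j + 1 → g = 0) : 0 ≤ σ i j * g := by
  by_cases h : j = i ∨ j = i + 1 ∨ i = j + 1
  · rw [h0 h, mul_zero]
  · refine mul_nonneg ?_ hg
    rcases (by omega : i + 2 ≤ j ∨ j + 2 ≤ i) with h1 | h1
    · exact hσ i j h1 hj
    · rw [hs]; exact hσ j i h1 hi

theorem gen_Conv {p : ℕ → ℂ} {x u : ℂ} {i j : ℕ}
    (h1 : j = i + 1 → gf_Conv x u (p i) (p (i + 1)) = 0)
    (h2 : i = j + 1 → gf_Conv x u (p j) (p (j + 1)) = 0)
    (h : j = i ∨ j = i + 1 ∨ i = j + 1) : gf_Conv x u (p i) (p j) = 0 := by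
  rcases h with h | h | h
  · rw [h]; exact par_Conv _ _ _ _ (by simp [cr])
  · rw [h]; exact h1 h
  · rw [sym_Conv, h]; exact h2 h

theorem row_Conv {n : ℕ} {p : ℕ → ℂ} {σ : ℕ → ℕ → ℝ} (hE : Equil n p σ)
    (hσ : ∀ i j, i + 2 ≤ j → j ≤ n → 0 ≤ σ i j) {k : ℕ} (hk : k ≤ n) {u : ℂ}
    (hu : k < n → cr u (p (k + 1) - p k) = 0) :
    0 ≤ ∑ j ∈ range (n + 1), σ k j * |cr u (p j - p k)| := by
  have hre := congrArg Complex.re (hE.2 k hk)
  have him := congrArg Complex.im (hE.2 k hk)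
  rw [Complex.re_sum] at hre
  rw [Complex.im_sum] at him
  simp only [Complex.re_ofReal_mul, Complex.im_ofReal_mul, Complex.zero_re,
    Complex.zero_im] at hre him
  have h0 : ∑ j ∈ range (n + 1), σ k j * cr u (p j - p k) = 0 := by
    have h1 : ∑ j ∈ range (n + 1), σ k j * cr u (p j - p k) =
        u.re * ∑ j ∈ range (n + 1), σ k j * (p j - p k).im -
          u.im * ∑ j ∈ range (n + 1), σ k j * (p j - p k).re := by
      rw [mul_sum, mul_sum, ← sum_sub_distrib]
      refine sum_congr rfl fun j _ => ?_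
      unfold cr; ring
    rw [h1, hre, him]; ring
  obtain ⟨η, hη, hη'⟩ : ∃ η : ℝ, (η = 1 ∨ η = -1) ∧
      |cr u (p (k - 1) - p k)| = η * cr u (p (k - 1) - p k) := by
    rcases abs_choice (cr u (p (k - 1) - p k)) with h | h
    · exact ⟨1, Or.inl rfl, by rw [h, one_mul]⟩
    · exact ⟨-1, Or.inr rfl, by rw [h, neg_one_mul]⟩
  have h2 : ∑ j ∈ range (n + 1), σ k j * |cr u (p j - p k)| =
      ∑ j ∈ range (n + 1), σ k j * (|cr u (p j - p k)| - η * cr u (p j - p k)) := by
    have h3 : ∀ j ∈ range (n + 1), σ k j * (|cr u (p j - p k)| - η * cr u (p j - p k)) =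
        σ k j * |cr u (p j - p k)| - η * (σ k j * cr u (p j - p k)) := fun j _ => by ring
    rw [sum_congr rfl h3, sum_sub_distrib, ← mul_sum, h0, mul_zero, sub_zero]
  rw [h2]
  refine sum_nonneg fun j hj => ?_
  have hj' : j ≤ n := Nat.lt_succ_iff.1 (mem_range.1 hj)
  refine term_Conv hE.1 hσ hk hj' ?_ fun h => ?_
  · have h4 := le_abs_self (cr u (p j - p k))
    have h5 := neg_abs_le (cr u (p j - p k))
    rcases hη with rfl | rfl <;> linarith
  · rcases h with h | h | h
    · rw [h]; simp [cr]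
    · rw [h, hu (by omega)]; simp
    · have h6 : j = k - 1 := by omega
      rw [h6, hη', sub_self]

theorem s_conv : SConv := by
  intro n p σ hS hE hσ x
  have hcr : ∀ z : ℂ, cr z z = 0 := fun z => by unfold cr; ring
  by_cases hx : ∃ k ≤ n, x = p k
  · obtain ⟨k, hk, rfl⟩ := hx
    obtain ⟨u, hu0, hu⟩ : ∃ u : ℂ, u ≠ 0 ∧ (k < n → cr u (p (k + 1) - p k) = 0) := by
      by_cases h : k < n
      · exact ⟨p (k + 1) - p k, sub_ne_zero.2 (hS.1 k h).symm, fun _ => hcr _⟩
      · exact ⟨1, one_ne_zero, fun h' => absurd h' h⟩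
    refine ⟨u, hu0, ?_⟩
    have hrow := row_Conv hE hσ hk hu
    have hkm : k ∈ range (n + 1) := mem_range.2 (by omega)
    rw [kink_Conv]
    have hle : ∑ i ∈ range (n + 1), ∑ j ∈ range (n + 1),
        ((if i = k then σ k j * |cr u (p j - p k)| else 0) +
          (if j = k then σ k i * |cr u (p i - p k)| else 0)) ≤
        ∑ i ∈ range (n + 1), ∑ j ∈ range (n + 1), σ i j * gf_Conv (p k) u (p i) (p j) := by
      refine sum_le_sum fun i hi => sum_le_sum fun j hj => ?_
      have hi' : i ≤ n := Nat.lt_succ_iff.1 (mem_range.1 hi)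
      have hj' : j ≤ n := Nat.lt_succ_iff.1 (mem_range.1 hj)
      by_cases h1 : i = k
      · by_cases h2 : j = k
        · rw [h1, h2, at_Conv]; simp [cr]
        · rw [if_pos h1, if_neg h2, h1, at_Conv, add_zero]
      · by_cases h2 : j = k
        · rw [if_neg h1, if_pos h2, h2, sym_Conv, at_Conv, zero_add, hE.1]
        · rw [if_neg h1, if_neg h2, add_zero]
          refine term_Conv hE.1 hσ hi' hj' (nn_Conv _ _ _ _) (gen_Conv ?_ ?_)
          · intro h
            exact off_Conv _ _ _ _ (joint_Conv hS hk (by omega) (by omega) (by omega))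
          · intro h
            exact off_Conv _ _ _ _ (joint_Conv hS hk (by omega) (by omega) (by omega))
    refine le_trans ?_ hle
    simp only [sum_add_distrib]
    refine add_nonneg ?_ ?_
    · rw [sum_comm]
      simp only [sum_ite_eq', if_pos hkm]
      exact hrow
    · simp only [sum_ite_eq', if_pos hkm]
      exact hrow
  · obtain ⟨u, hu0, hu⟩ : ∃ u : ℂ, u ≠ 0 ∧ ∀ m < n, gf_Conv x u (p m) (p (m + 1)) = 0 := by
      by_cases h : ∃ m < n, x ∈ lk p m
      · obtain ⟨m, hm, hxm⟩ := h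
        refine ⟨p (m + 1) - p m, sub_ne_zero.2 (hS.1 m hm).symm, fun m' hm' => ?_⟩
        rcases lt_trichotomy m' m with h1 | h1 | h1
        · exact off_Conv _ _ _ _ fun h2 => hx ⟨m, hm.le, (hS.2 m' m h1 hm x h2 hxm).2⟩
        · rw [h1]; exact par_Conv _ _ _ _ (hcr _)
        · exact off_Conv _ _ _ _ fun h2 => hx ⟨m', hm'.le, (hS.2 m m' h1 hm' x hxm h2).2⟩
      · exact ⟨1, one_ne_zero, fun m hm => off_Conv _ _ _ _ fun h2 => h ⟨m, hm, h2⟩⟩
    refine ⟨u, hu0, ?_⟩
    rw [kink_Conv]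
    refine sum_nonneg fun i hi => sum_nonneg fun j hj => ?_
    have hi' : i ≤ n := Nat.lt_succ_iff.1 (mem_range.1 hi)
    have hj' : j ≤ n := Nat.lt_succ_iff.1 (mem_range.1 hj)
    exact term_Conv hE.1 hσ hi' hj' (nn_Conv _ _ _ _)
      (gen_Conv (fun h => hu i (by omega)) (fun h => hu j (by omega)))

end Pool.Agent.MP_7e0f10_lc.R

end

section

/-! A hull edge that skips a joint. -/

namespace Pool.Agent.MP_7e0f10_lc.R

open Finset

/-- Joint `i` is an exposed point. -/
def Ext_Hull (n : ℕ) (p : ℕ → ℂ) (i : ℕ) : Prop :=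
  i ≤ n ∧ ∃ d : ℂ, ∀ m ≤ n, m ≠ i → dt d (p m - p i) < 0

theorem eps_Hull (S : Finset ℕ) (A B : ℕ → ℝ) (h : ∀ m ∈ S, A m < 0 ∨ A m = 0 ∧ B m < 0) :
    ∃ ε : ℝ, ∀ m ∈ S, A m + ε * B m < 0 := by
  have : ∀ᶠ ε in nhdsWithin (0 : ℝ) (Set.Ioi 0), ∀ m ∈ S, A m + ε * B m < 0 := by
    rw [Filter.eventually_all_finset]
    intro m hm
    rcases h m hm with h | ⟨h, h'⟩
    · have hc : Continuous fun ε : ℝ => A m + ε * B m := by fun_prop
      exact (hc.continuousAt.eventually_lt continuousAt_const (by simpa using h)).filter_mono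
        nhdsWithin_le_nhds
    · filter_upwards [self_mem_nhdsWithin] with ε hε
      rw [h, zero_add]
      exact mul_neg_of_pos_of_neg hε h'
  exact this.exists

theorem sq_pos_Hull {z : ℂ} (h : z ≠ 0) : 0 < dt z z := by
  have := Complex.normSq_pos.2 h
  rwa [Complex.normSq_apply] at this

theorem nb_Hull (n : ℕ) (p : ℕ → ℂ) (hp : ∀ a ≤ n, ∀ b ≤ n, a ≠ b → p a - p b ≠ 0) (i : ℕ)
    (hi : i ≤ n) (d : ℂ) (hd : ∀ m ≤ n, m ≠ i → dt d (p m - p i) < 0) (hne : ∃ m ≤ n, m ≠ i)
    (σ : ℝ) (hσ : σ ≠ 0) :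
    ∃ j, j ≠ i ∧ Ext_Hull n p j ∧ ∀ m ≤ n, 0 ≤ σ * cr (p j - p i) (p m - p i) := by
  obtain ⟨a, ha⟩ : ∃ a : ℕ → ℝ, ∀ m, a m = -dt d (p m - p i) := ⟨_, fun _ => rfl⟩
  obtain ⟨s, hs⟩ : ∃ s : ℕ → ℝ, ∀ m, s m = cr d (p m - p i) / a m := ⟨_, fun _ => rfl⟩
  have ha0 : ∀ m ≤ n, m ≠ i → 0 < a m := fun m h h' => by rw [ha]; linarith [hd m h h']
  have hc : ∀ m ≤ n, m ≠ i → cr d (p m - p i) = s m * a m := fun m h h' => by
    rw [hs, div_mul_cancel₀ _ (ha0 m h h').ne']
  obtain ⟨m0, hm0, hm0'⟩ := hne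
  have hd0 : 0 < dt d d := sq_pos_Hull fun h => by simpa [h, dt] using hd m0 hm0 hm0'
  obtain ⟨j0, hj0, h0⟩ := exists_max_image ((range (n + 1)).erase i) (fun m => σ * s m)
    ⟨m0, by simp [hm0', hm0]⟩
  obtain ⟨j, hj, h1⟩ := exists_max_image (((range (n + 1)).erase i).filter fun m => s m = s j0) a
    ⟨j0, by simp [hj0]⟩
  simp only [mem_filter, mem_erase, mem_range, Nat.lt_succ_iff] at hj h0 h1
  obtain ⟨⟨hji, hjn⟩, hjs⟩ := hj
  have id1 : ∀ m ≤ n, m ≠ i → σ * cr (p j - p i) (p m - p i) * dt d d =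
      a j * a m * (σ * s j0 - σ * s m) := by
    intro m h h'
    have e : cr (p j - p i) (p m - p i) * dt d d =
        cr d (p j - p i) * a m - a j * cr d (p m - p i) := by
      simp only [ha, cr, dt]; ring
    rw [mul_assoc, e, hc m h h', hc j hjn hji, hjs]; ring
  have side : ∀ m ≤ n, 0 ≤ σ * cr (p j - p i) (p m - p i) := by
    intro m h
    by_cases h' : m = i
    · simp [h', cr]
    · refine nonneg_of_mul_nonneg_left ?_ hd0
      rw [id1 m h h']
      exact mul_nonneg (mul_pos (ha0 j hjn hji) (ha0 m h h')).le (sub_nonneg.2 (h0 m ⟨h', h⟩))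
  refine ⟨j, hji, ⟨hjn, ?_⟩, side⟩
  obtain ⟨ε, hε⟩ := eps_Hull ((range (n + 1)).erase j) (fun m => -(σ * cr (p j - p i) (p m - p i)))
    (fun m => dt (p j - p i) (p m - p j)) (by
      intro m hm
      simp only [mem_erase, mem_range, Nat.lt_succ_iff] at hm
      rcases (side m hm.2).lt_or_eq with h | h
      · exact Or.inl (by linarith)
      refine Or.inr ⟨by linarith, ?_⟩
      by_cases h' : m = i
      · have := sq_pos_Hull (hp j hjn i hi hji)
        simp only [h', dt, Complex.sub_re, Complex.sub_im] at this ⊢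
        linarith
      have h2 := id1 m hm.2 h'
      have h3 := ha0 j hjn hji
      have h4 := ha0 m hm.2 h'
      rw [← h, zero_mul] at h2
      have h5 : s m = s j0 := by
        have := (mul_eq_zero.1 h2.symm).resolve_left (mul_pos h3 h4).ne'
        exact (mul_left_cancel₀ hσ (sub_eq_zero.1 this)).symm
      have h6 := h1 m ⟨⟨h', hm.2⟩, h5⟩
      have e1 : dt (p j - p i) (p m - p j) * dt d d = a j * (a m - a j) +
          cr d (p j - p i) * (cr d (p m - p i) - cr d (p j - p i)) := by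
        simp only [ha, cr, dt, Complex.sub_re, Complex.sub_im]; ring
      have e2 : dt (p m - p j) (p m - p j) * dt d d = (a m - a j) ^ 2 +
          (cr d (p m - p i) - cr d (p j - p i)) ^ 2 := by
        simp only [ha, cr, dt, Complex.sub_re, Complex.sub_im]; ring
      rw [hc m hm.2 h', hc j hjn hji, h5, hjs] at e1 e2
      have h7 : a m < a j := by
        refine lt_of_le_of_ne h6 fun h8 => ?_
        have := mul_pos (sq_pos_Hull (hp m hm.2 j hjn hm.1)) hd0
        rw [e2, h8] at this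
        simp at this
      refine neg_of_mul_neg_left (b := dt d d) ?_ hd0.le
      rw [e1]
      have h9 : 0 < (1 + s j0 ^ 2) * (a j * (a j - a m)) := by
        have := sub_pos.2 h7
        positivity
      linarith)
  refine ⟨-(σ * (Complex.I * (p j - p i))) + ε * (p j - p i), fun m h h' => ?_⟩
  have := hε m (by simp [h', h])
  refine lt_of_eq_of_lt ?_ this
  simp [dt, cr]
  ring

theorem s_hull : SHull := by
  classical
  intro n p hp hN
  have hp' : ∀ a ≤ n, ∀ b ≤ n, a ≠ b → p a - p b ≠ 0 := by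
    intro a ha b hb hab
    rcases lt_or_gt_of_ne hab with h | h
    · exact sub_ne_zero.2 (hp a b h hb)
    · exact sub_ne_zero.2 (hp b a h ha).symm
  have hE : ∃ i, Ext_Hull n p i := by
    obtain ⟨i, hi, h⟩ := exists_max_image (range (n + 1)) (fun m => dt (p m) (p m)) ⟨0, by simp⟩
    simp only [mem_range, Nat.lt_succ_iff] at hi h
    refine ⟨i, hi, p i, fun m hm hmi => ?_⟩
    have h1 := h m hm
    have h2 := sq_pos_Hull (hp' m hm i hi hmi)
    simp only [dt, Complex.sub_re, Complex.sub_im] at h1 h2 ⊢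
    linarith
  obtain ⟨hi, d, hd⟩ := Nat.find_spec hE
  have hmin : ∀ j, Ext_Hull n p j → Nat.find hE ≤ j := fun j h => Nat.find_min' hE h
  generalize Nat.find hE = i at hi hd hmin
  obtain ⟨x, hx, y, hy, z, hz, hxyz⟩ := hN
  have hne : ∃ m ≤ n, m ≠ i := by
    by_contra h
    push Not at h
    rw [h x hx, h y hy] at hxyz
    simp [cr] at hxyz
  obtain ⟨j, hj, ej, sj⟩ := nb_Hull n p hp' i hi d hd hne 1 one_ne_zero
  obtain ⟨k, hk, ek, sk⟩ := nb_Hull n p hp' i hi d hd hne (-1) (by norm_num)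
  have pl : ∀ u v w : ℂ, dt d u * cr v w + dt d v * cr w u + dt d w * cr u v = 0 := by
    intro u v w; simp only [dt, cr]; ring
  have anti : ∀ u v : ℂ, cr u v = -cr v u := by intro u v; simp only [cr]; ring
  have aj := hd j ej.1 hj
  have ak := hd k ek.1 hk
  have hjk : cr (p j - p i) (p k - p i) ≠ 0 := by
    intro h
    have h1 : ∀ m ≤ n, cr (p j - p i) (p m - p i) = 0 := by
      intro m hm
      have h2 := pl (p j - p i) (p k - p i) (p m - p i)
      rw [h, anti (p m - p i)] at h2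
      have h3 := sj m hm
      have h4 := sk m hm
      nlinarith
    have h2 : ∀ a ≤ n, ∀ b ≤ n, cr (p a - p i) (p b - p i) = 0 := by
      intro a ha b hb
      have h3 := pl (p j - p i) (p a - p i) (p b - p i)
      rw [h1 a ha, anti (p b - p i), h1 b hb] at h3
      exact (mul_eq_zero.1 (by linarith : dt d (p j - p i) * cr (p a - p i) (p b - p i) = 0)).resolve_left
        aj.ne
    apply hxyz
    have h3 := h2 y hy z hz
    have h4 := h2 y hy x hx
    have h5 := h2 x hx z hz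
    simp only [cr, Complex.sub_re, Complex.sub_im] at h3 h4 h5 ⊢
    linarith
  have ij : i < j := lt_of_le_of_ne (hmin j ej) hj.symm
  have ik : i < k := lt_of_le_of_ne (hmin k ek) hk.symm
  rcases lt_trichotomy j k with h | h | h
  · refine ⟨i, j, k, ij, h, ek.1, ?_, Or.inr fun m hm => by linarith [sk m hm]⟩
    rw [anti]; exact neg_ne_zero.2 hjk
  · subst h
    exact (hjk (by simp only [cr]; ring)).elim
  · exact ⟨i, k, j, ik, h, ej.1, hjk, Or.inl fun m hm => by linarith [sj m hm]⟩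

end Pool.Agent.MP_7e0f10_lc.R

end

section

namespace Pool.Agent.MP_7e0f10_lc.R

open Finset

/-- The rigidity map. -/
def rm_Sep (n : ℕ) (p : ℕ → ℂ) : (ℕ → ℂ) →ₗ[ℝ] (Fin (n + 1) × Fin (n + 1) → ℝ) where
  toFun v := fun q => dt (v q.2 - v q.1) (p q.2 - p q.1)
  map_add' v w := by
    funext q
    simp only [dt, Pi.add_apply, Complex.sub_re, Complex.sub_im, Complex.add_re, Complex.add_im]
    ring
  map_smul' t v := by
    funext q
    simp only [dt, Pi.smul_apply, Complex.sub_re, Complex.sub_im, Complex.smul_re, Complex.smul_im,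
      smul_eq_mul, RingHom.id_apply]
    ring

/-- The unit vectors. -/
def dl_Sep (n i j : ℕ) : Fin (n + 1) × Fin (n + 1) → ℝ :=
  fun q => if (q.1 : ℕ) = i ∧ (q.2 : ℕ) = j then 1 else 0

theorem exp_Sep (n : ℕ) (g : ℕ → ℕ → ℝ) : (fun q : Fin (n + 1) × Fin (n + 1) => g q.1 q.2) =
    ∑ i ∈ range (n + 1), ∑ j ∈ range (n + 1), g i j • dl_Sep n i j := by
  funext q
  rw [Finset.sum_apply, sum_eq_single_of_mem (q.1 : ℕ) (mem_range.2 q.1.2), Finset.sum_apply,
    sum_eq_single_of_mem (q.2 : ℕ) (mem_range.2 q.2.2)]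
  · simp [dl_Sep]
  · intro j _ hj
    simp [dl_Sep, hj.symm]
  · intro i _ hi
    rw [Finset.sum_apply]
    exact sum_eq_zero fun j _ => by simp [dl_Sep, hi.symm]

theorem dl_mem_Sep {n i j : ℕ} (hi : i ≤ n) (hj : j ≤ n) :
    dl_Sep n i j ∈ stdSimplex ℝ (Fin (n + 1) × Fin (n + 1)) := by
  have h : dl_Sep n i j = Pi.single (⟨i, by omega⟩, ⟨j, by omega⟩) 1 := by
    funext q
    simp [dl_Sep, Pi.single_apply, Prod.ext_iff, Fin.ext_iff]
  rw [h]
  exact single_mem_stdSimplex ℝ _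

theorem equil_Sep {n : ℕ} {p : ℕ → ℂ} {t : ℕ → ℕ → ℝ}
    (h : ∀ v : ℕ → ℂ, ∑ i ∈ range (n + 1), ∑ j ∈ range (n + 1),
      dt (v j - v i) (p j - p i) * t i j = 0) : Equil n p fun i j => t i j + t j i := by
  refine ⟨fun i j => add_comm _ _, fun k hk => ?_⟩
  have hk' : k ∈ range (n + 1) := mem_range.2 (by omega)
  have key : ∀ w : ℂ, ∑ j ∈ range (n + 1), (t k j + t j k) * dt w (p j - p k) = 0 := by
    intro w
    have h1 := h fun m => if m = k then w else 0
    have h2 : ∀ i j, dt ((if j = k then w else 0) - if i = k then w else 0) (p j - p i) * t i j =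
        (if j = k then dt w (p j - p i) * t i j else 0) -
          if i = k then dt w (p j - p i) * t i j else 0 := by
      intro i j
      split_ifs <;> simp [dt]
      ring
    simp only [h2, sum_sub_distrib] at h1
    rw [sum_comm (f := fun i j => if i = k then dt w (p j - p i) * t i j else 0)] at h1
    simp only [sum_ite_eq', if_pos hk'] at h1
    rw [← sum_sub_distrib, ← neg_eq_zero, ← sum_neg_distrib] at h1
    rw [← h1]
    refine sum_congr rfl fun j _ => ?_
    simp only [dt, Complex.sub_re, Complex.sub_im]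
    ring
  apply Complex.ext
  · rw [Complex.re_sum, Complex.zero_re, ← key 1]
    exact sum_congr rfl fun j _ => by rw [Complex.re_ofReal_mul]; simp [dt]
  · rw [Complex.im_sum, Complex.zero_im, ← key Complex.I]
    exact sum_congr rfl fun j _ => by rw [Complex.im_ofReal_mul]; simp [dt]

theorem s_sep (h : SNo) : SSep := by
  intro n p hS hN
  obtain ⟨K, hK⟩ : ∃ K : Set (Fin (n + 1) × Fin (n + 1) → ℝ),
      K = stdSimplex ℝ (Fin (n + 1) × Fin (n + 1)) ∩
        {y | ∀ q : Fin (n + 1) × Fin (n + 1), (q.1 : ℕ) ≤ q.2 + 1 → (q.2 : ℕ) ≤ q.1 + 1 → y q = 0} :=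
    ⟨_, rfl⟩
  by_cases hd : Disjoint (LinearMap.range (rm_Sep n p) : Set (Fin (n + 1) × Fin (n + 1) → ℝ)) K
  · exfalso
    have hc : Convex ℝ K := by
      rw [hK]
      refine (convex_stdSimplex ℝ _).inter fun x hx y hy a b _ _ _ q h1 h2 => ?_
      simp [hx q h1 h2, hy q h1 h2]
    have hk : IsCompact K := by
      rw [hK]
      refine (isCompact_stdSimplex ℝ _).inter_right ?_
      simp only [Set.ofPred_forall]
      exact isClosed_iInter fun q => isClosed_iInter fun _ => isClosed_iInter fun _ =>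
        isClosed_eq (continuous_apply q) continuous_const
    obtain ⟨f, u, u', h1, h2, h3⟩ := geometric_hahn_banach_closed_compact
      (LinearMap.range (rm_Sep n p)).convex
      (LinearMap.range (rm_Sep n p)).closed_of_finiteDimensional hc hk hd
    have hu : 0 < u := by simpa using h1 0 (Submodule.zero_mem _)
    have h0 : ∀ v, f (rm_Sep n p v) = 0 := by
      intro v
      by_contra hne
      have h4 := h1 _ (Submodule.smul_mem _ (u / f (rm_Sep n p v)) (LinearMap.mem_range_self _ v))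
      rw [map_smul, smul_eq_mul, div_mul_cancel₀ _ hne] at h4
      exact lt_irrefl _ h4
    have hpos : ∀ i j, i ≤ n → j ≤ n → i + 2 ≤ j ∨ j + 2 ≤ i → 0 < f (dl_Sep n i j) := by
      intro i j hi hj hij
      refine (hu.trans h2).trans (h3 _ ?_)
      rw [hK]
      exact ⟨dl_mem_Sep hi hj, fun q h4 h5 => if_neg (by omega)⟩
    refine h n p (fun i j => f (dl_Sep n i j) + f (dl_Sep n j i)) hS hN (equil_Sep fun v => ?_)
      fun i j hij hj => add_pos (hpos i j (by omega) hj (Or.inl hij))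
        (hpos j i hj (by omega) (Or.inr hij))
    have h4 : rm_Sep n p v = _ := exp_Sep n fun i j => dt (v j - v i) (p j - p i)
    have h5 := h0 v
    rw [h4] at h5
    simpa only [map_sum, map_smul, smul_eq_mul] using h5
  · obtain ⟨_, ⟨v, rfl⟩, hv⟩ := Set.not_disjoint_iff.1 hd
    rw [hK] at hv
    obtain ⟨⟨h1, h2⟩, h3⟩ := hv
    refine ⟨v, fun i hi => h3 (⟨i, by omega⟩, ⟨i + 1, by omega⟩) (by simp; omega) (by simp),
      fun i hi j hj => h1 (⟨i, by omega⟩, ⟨j, by omega⟩), ?_⟩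
    by_contra hc
    have h4 : ∑ q, rm_Sep n p v q ≤ 0 := sum_nonpos fun q _ => not_lt.1 fun hq =>
      hc ⟨q.1, Nat.lt_succ_iff.1 q.1.2, q.2, Nat.lt_succ_iff.1 q.2.2, hq⟩
    linarith

end Pool.Agent.MP_7e0f10_lc.R

end

section

namespace Pool.Agent.MP_7e0f10_lc.R

open Finset

theorem mem_seg_Del {a b x : ℂ} : x ∈ segment ℝ a b ↔ ∃ t : ℝ, 0 ≤ t ∧ t ≤ 1 ∧ x = a + t * (b - a) := by
  rw [segment_eq_image']
  constructor
  · rintro ⟨t, ht, rfl⟩
    exact ⟨t, ht.1, ht.2, by simp⟩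
  · rintro ⟨t, h0, h1, rfl⟩
    exact ⟨t, ⟨h0, h1⟩, by simp⟩

theorem par_Del {a b : ℂ} (ha : a ≠ 0) (h : cr a b = 0) : ∃ l : ℝ, b = l * a := by
  refine ⟨(b / a).re, ?_⟩
  have h1 : (b / a).im = 0 := by
    rw [Complex.div_im]
    unfold cr at h
    rw [← sub_div, div_eq_zero_iff]
    left
    linarith
  have h2 : ((b / a).re : ℂ) = b / a := Complex.ext rfl (by rw [Complex.ofReal_im, h1])
  rw [h2, div_mul_cancel₀ _ ha]

theorem split_Del {a b c x : ℂ} {μ : ℝ} (h0 : 0 < μ) (h1 : μ < 1) (h : b = a + μ * (c - a))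
    (hx : x ∈ segment ℝ a c) : x ∈ segment ℝ a b ∨ x ∈ segment ℝ b c := by
  obtain ⟨t, t0, t1, rfl⟩ := mem_seg_Del.1 hx
  have hμ : (μ : ℂ) ≠ 0 := by exact_mod_cast h0.ne'
  have hμ' : (1 - μ : ℂ) ≠ 0 := by exact_mod_cast (sub_pos.2 h1).ne'
  rcases le_total t μ with ht | ht
  · refine Or.inl (mem_seg_Del.2 ⟨t / μ, by positivity, (div_le_one h0).2 ht, ?_⟩)
    rw [h]
    push_cast
    field_simp
    ring
  · refine Or.inr (mem_seg_Del.2 ⟨(t - μ) / (1 - μ), div_nonneg (by linarith) (by linarith),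
      (div_le_one (by linarith)).2 (by linarith), ?_⟩)
    rw [h]
    push_cast
    field_simp
    ring

theorem s_del : SDel := by
  intro n p k hS hk hcr
  have ha : p (k + 1) - p k ≠ 0 := sub_ne_zero.2 (hS.1 k (by omega)).symm
  have hb : p (k + 2) - p (k + 1) ≠ 0 := sub_ne_zero.2 (hS.1 (k + 1) (by omega)).symm
  obtain ⟨l, hl⟩ := par_Del ha hcr
  have hl0 : 0 < l := by
    rcases lt_trichotomy l 0 with h | h | h
    · exfalso
      have he0 : 0 < min 1 (-l) := lt_min one_pos (by linarith)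
      have hlc : (l : ℂ) ≠ 0 := by exact_mod_cast h.ne
      have := (hS.2 k (k + 1) (by omega) (by omega)
        (p (k + 1) - (min 1 (-l) : ℝ) * (p (k + 1) - p k))
        (mem_seg_Del.2 ⟨1 - min 1 (-l), by linarith [min_le_left 1 (-l)], by linarith, by
          push_cast; ring⟩)
        (mem_seg_Del.2 ⟨min 1 (-l) / (-l), div_nonneg he0.le (by linarith),
          (div_le_one (by linarith)).2 (min_le_right _ _), by
            rw [hl]; push_cast; field_simp; ring⟩)).2
      rw [sub_eq_self, mul_eq_zero] at this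
      rcases this with h' | h'
      · exact he0.ne' (by exact_mod_cast h')
      · exact ha h'
    · rw [h, Complex.ofReal_zero, zero_mul] at hl
      exact absurd hl hb
    · exact h
  have hμ0 : 0 < 1 / (1 + l) := by positivity
  have hμ1 : 1 / (1 + l) < 1 := by rw [div_lt_one (by positivity)]; linarith
  have hμ : p (k + 1) = p k + (1 / (1 + l) : ℝ) * (p (k + 2) - p k) := by
    have h1 : (1 + l : ℂ) ≠ 0 := by exact_mod_cast (by positivity : (0 : ℝ) < 1 + l).ne'
    push_cast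
    field_simp
    linear_combination -hl
  have d1 : ∀ i, i ≤ k → del k p i = p i := fun i hi => if_pos hi
  have d2 : ∀ i, k < i → del k p i = p (i + 1) := fun i hi => if_neg (by omega)
  refine ⟨⟨fun i hi => ?_, ?_⟩, _, hμ0, hμ1, hμ⟩
  · rcases lt_trichotomy i k with h | h | h
    · rw [d1 i h.le, d1 (i + 1) h]
      exact hS.1 i (by omega)
    · rw [h, d1 k le_rfl, d2 (k + 1) (by omega)]
      intro e
      rw [← e, sub_self, mul_zero, add_zero] at hμ
      exact ha (sub_eq_zero.2 hμ)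
    · rw [d2 i h, d2 (i + 1) (by omega)]
      exact hS.1 (i + 1) (by omega)
  · have key : ∀ i, ∀ x ∈ lk (del k p) i, ∃ i0, x ∈ lk p i0 ∧
        ((i < k ∧ i0 = i) ∨ (i = k ∧ (i0 = k ∨ i0 = k + 1)) ∨ (k < i ∧ i0 = i + 1)) := by
      intro i x hx
      unfold lk at hx
      rcases lt_trichotomy i k with h | h | h
      · rw [d1 i h.le, d1 (i + 1) h] at hx
        exact ⟨i, hx, Or.inl ⟨h, rfl⟩⟩
      · rw [h, d1 k le_rfl, d2 (k + 1) (by omega)] at hx
        rcases split_Del hμ0 hμ1 hμ hx with h' | h'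
        · exact ⟨k, h', Or.inr (Or.inl ⟨h, Or.inl rfl⟩)⟩
        · exact ⟨k + 1, h', Or.inr (Or.inl ⟨h, Or.inr rfl⟩)⟩
      · rw [d2 i h, d2 (i + 1) (by omega)] at hx
        exact ⟨i + 1, hx, Or.inr (Or.inr ⟨h, rfl⟩)⟩
    intro i j hij hj x hxi hxj
    obtain ⟨i0, h1, h2⟩ := key i x hxi
    obtain ⟨j0, h3, h4⟩ := key j x hxj
    obtain ⟨h5, h6⟩ := hS.2 i0 j0 (by omega) (by omega) x h1 h3
    refine ⟨by omega, ?_⟩
    rcases le_or_gt j k with h | h
    · rw [d1 j h, h6]
      congr 1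
      omega
    · rw [d2 j h, h6]
      congr 1
      omega

end Pool.Agent.MP_7e0f10_lc.R

end

section

namespace Pool.Agent.MP_7e0f10_lc.R

open Finset

theorem rot_Frz (c : ℝ) (d : ℂ) : dt (Complex.I * (c : ℂ) * d) d = 0 := by
  simp [dt]
  ring

theorem perp_Frz {w d : ℂ} (hd : d ≠ 0) (h : dt w d = 0) :
    w = Complex.I * ((cr d w / dt d d : ℝ) : ℂ) * d := by
  have hn : dt d d ≠ 0 := by
    intro e
    unfold dt at e
    apply hd
    apply Complex.ext
    · simp only [Complex.zero_re]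
      nlinarith [mul_self_nonneg d.re, mul_self_nonneg d.im]
    · simp only [Complex.zero_im]
      nlinarith [mul_self_nonneg d.re, mul_self_nonneg d.im]
  obtain ⟨c, hc⟩ : ∃ c, c = cr d w / dt d d := ⟨_, rfl⟩
  rw [← hc]
  have hc' : c * dt d d = cr d w := by rw [hc, div_mul_cancel₀ _ hn]
  unfold dt cr at *
  apply Complex.ext
  · simp only [Complex.mul_re, Complex.mul_im, Complex.I_re, Complex.I_im, Complex.ofReal_re,
      Complex.ofReal_im]
    apply mul_right_cancel₀ hn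
    linear_combination d.re * h + d.im * hc'
  · simp only [Complex.mul_re, Complex.mul_im, Complex.I_re, Complex.I_im, Complex.ofReal_re,
      Complex.ofReal_im]
    apply mul_right_cancel₀ hn
    linear_combination d.im * h - d.re * hc'

/-- the case without straight joints -/
theorem free_Frz (h1 : SSep) (n : ℕ) (p : ℕ → ℂ) (hs : Simp n p) (hb : ∃ m, m + 2 ≤ n)
    (hno : ∀ m, m + 2 ≤ n → cr (p (m + 1) - p m) (p (m + 2) - p (m + 1)) ≠ 0) :
    ∃ v c, Expa n p v c := by
  obtain ⟨m, hm⟩ := hb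
  have hn : NonCol n p := by
    refine ⟨m, by omega, m + 1, by omega, m + 2, hm, fun e => hno m hm ?_⟩
    simp only [cr, Complex.sub_re, Complex.sub_im] at e ⊢
    linear_combination e
  obtain ⟨v, a1, a2, i, hi, j, hj, a3⟩ := h1 n p hs hn
  obtain ⟨c, hc⟩ : ∃ c : ℕ → ℝ, ∀ m < n,
      v (m + 1) - v m = Complex.I * (c m : ℂ) * (p (m + 1) - p m) :=
    ⟨fun m => cr (p (m + 1) - p m) (v (m + 1) - v m) /
      dt (p (m + 1) - p m) (p (m + 1) - p m),
      fun m hm => perp_Frz (sub_ne_zero.2 (hs.1 m hm).symm) (a1 m hm)⟩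
  refine ⟨v, c, hc, a2, fun m hm e => absurd e (hno m hm), ?_⟩
  by_contra hh
  have h0 : ∀ m < n, c m = c 0 := by
    intro m
    induction m with
    | zero => exact fun _ => rfl
    | succ m ih =>
      intro hm
      by_contra hne
      exact hh ⟨m, hm, fun e => hne (e ▸ ih (by omega))⟩
  have h2 : ∀ m ≤ n, v m - v 0 = Complex.I * (c 0 : ℂ) * (p m - p 0) := by
    intro m
    induction m with
    | zero => simp
    | succ m ih =>
      intro hm
      have e1 := hc m hm
      rw [h0 m hm] at e1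
      linear_combination e1 + ih (by omega)
  have e : v j - v i = Complex.I * (c 0 : ℂ) * (p j - p i) := by
    linear_combination h2 j hj - h2 i hi
  rw [e, rot_Frz] at a3
  exact lt_irrefl _ a3

/-- insert a point between the points `k` and `k + 1` -/
def ins_Frz (k : ℕ) (μ : ℝ) (r : ℕ → ℂ) (m : ℕ) : ℂ :=
  if m ≤ k then r m else if m = k + 1 then r k + μ * (r (k + 1) - r k) else r (m - 1)

/-- the old index -/
def old_Frz (k m : ℕ) : ℕ := if m ≤ k then m else m - 1

/-- the length ratio -/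
def lam_Frz (k : ℕ) (μ : ℝ) (m : ℕ) : ℝ := if m = k then μ else if m = k + 1 then 1 - μ else 1

theorem ins_old_Frz (k : ℕ) (μ : ℝ) (r : ℕ → ℂ) {m : ℕ} (h : m ≠ k + 1) :
    ins_Frz k μ r m = r (old_Frz k m) := by
  unfold ins_Frz old_Frz
  by_cases h1 : m ≤ k <;> simp [h1, h]

theorem ins_new_Frz (k : ℕ) (μ : ℝ) (r : ℕ → ℂ) :
    ins_Frz k μ r (k + 1) = r k + μ * (r (k + 1) - r k) := by
  simp [ins_Frz]

theorem old_succ_Frz {k m : ℕ} (h : m ≠ k) : old_Frz k (m + 1) = old_Frz k m + 1 := by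
  unfold old_Frz
  split_ifs <;> omega

theorem ins_link_Frz (k : ℕ) (μ : ℝ) (r : ℕ → ℂ) (m : ℕ) :
    ins_Frz k μ r (m + 1) - ins_Frz k μ r m =
      (lam_Frz k μ m : ℂ) * (r (old_Frz k m + 1) - r (old_Frz k m)) := by
  by_cases h1 : m = k
  · subst h1
    rw [ins_new_Frz, ins_old_Frz m μ r (by omega)]
    simp [lam_Frz, old_Frz]
  by_cases h2 : m = k + 1
  · subst h2
    rw [ins_new_Frz, ins_old_Frz k μ r (by omega), old_succ_Frz h1]
    simp [lam_Frz, old_Frz]
    ring
  · rw [ins_old_Frz k μ r h2, ins_old_Frz k μ r (by omega), old_succ_Frz h1]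
    simp [lam_Frz, h1, h2]

theorem lam_ne_Frz (k : ℕ) {μ : ℝ} (h0 : 0 < μ) (h1 : μ < 1) (m : ℕ) : lam_Frz k μ m ≠ 0 := by
  unfold lam_Frz
  split_ifs
  · exact h0.ne'
  · linarith
  · exact one_ne_zero

theorem cr_ins_Frz (k : ℕ) {μ : ℝ} (h0 : 0 < μ) (h1 : μ < 1) (r : ℕ → ℂ) {m : ℕ} (h : m ≠ k) :
    cr (ins_Frz k μ r (m + 1) - ins_Frz k μ r m)
        (ins_Frz k μ r (m + 2) - ins_Frz k μ r (m + 1)) = 0 ↔
      cr (r (old_Frz k m + 1) - r (old_Frz k m))
        (r (old_Frz k m + 2) - r (old_Frz k m + 1)) = 0 := by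
  have e : ∀ (a b : ℝ) (x y : ℂ), cr ((a : ℂ) * x) ((b : ℂ) * y) = a * b * cr x y := by
    intro a b x y
    simp [cr]
    ring
  rw [ins_link_Frz, ins_link_Frz k μ r (m + 1), old_succ_Frz h, e]
  simp [lam_ne_Frz k h0 h1]

theorem expa_ins_Frz {n k : ℕ} {μ : ℝ} (h0 : 0 < μ) (h1 : μ < 1) (hk : k + 1 ≤ n)
    {q v : ℕ → ℂ} {c : ℕ → ℝ} (h : Expa n q v c) :
    Expa (n + 1) (ins_Frz k μ q) (ins_Frz k μ v) (fun m => c (old_Frz k m)) := by
  obtain ⟨a1, a2, a3, m0, hm0, a4⟩ := h
  have ole : ∀ m ≤ n + 1, old_Frz k m ≤ n := by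
    intro m hm
    unfold old_Frz
    split_ifs <;> omega
  have hz : dt (v (k + 1) - v k) (q (k + 1) - q k) = 0 := by rw [a1 k hk, rot_Frz]
  have hnew : ∀ j ≤ n, 0 ≤ dt (v j - (v k + μ * (v (k + 1) - v k)))
      (q j - (q k + μ * (q (k + 1) - q k))) := by
    intro j hj
    have b1 := mul_nonneg (sub_nonneg.2 h1.le) (a2 k (by omega) j hj)
    have b2 := mul_nonneg h0.le (a2 (k + 1) hk j hj)
    have e : dt (v j - (v k + μ * (v (k + 1) - v k))) (q j - (q k + μ * (q (k + 1) - q k))) =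
        (1 - μ) * dt (v j - v k) (q j - q k) + μ * dt (v j - v (k + 1)) (q j - q (k + 1)) -
          μ * (1 - μ) * dt (v (k + 1) - v k) (q (k + 1) - q k) := by
      simp [dt]
      ring
    rw [e, hz]
    linarith
  have hsym : ∀ a b x y : ℂ, dt (a - b) (x - y) = dt (b - a) (y - x) := by
    intro a b x y
    simp [dt]
    ring
  refine ⟨fun m hm => ?_, fun i hi j hj => ?_, fun m hm e => ?_, ?_⟩
  · have : old_Frz k m < n := by
      unfold old_Frz
      split_ifs <;> omega
    rw [ins_link_Frz, ins_link_Frz, a1 _ this]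
    ring
  · by_cases ei : i = k + 1
    · by_cases ej : j = k + 1
      · rw [ei, ej]
        simp [dt]
      · rw [ei, ins_new_Frz, ins_new_Frz, ins_old_Frz k μ v ej, ins_old_Frz k μ q ej]
        exact hnew _ (ole j hj)
    · by_cases ej : j = k + 1
      · rw [ej, ins_new_Frz, ins_new_Frz, ins_old_Frz k μ v ei, ins_old_Frz k μ q ei, hsym]
        exact hnew _ (ole i hi)
      · rw [ins_old_Frz k μ v ei, ins_old_Frz k μ q ei, ins_old_Frz k μ v ej,
          ins_old_Frz k μ q ej]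
        exact a2 _ (ole i hi) _ (ole j hj)
  · by_cases em : m = k
    · subst em
      simp [old_Frz]
    · have : old_Frz k m + 2 ≤ n := by
        unfold old_Frz
        split_ifs <;> omega
      show c (old_Frz k m) = c (old_Frz k (m + 1))
      rw [old_succ_Frz em]
      exact a3 _ this ((cr_ins_Frz k h0 h1 q em).1 e)
  · by_cases hlt : m0 < k
    · refine ⟨m0, by omega, ?_⟩
      have e : old_Frz k m0 = m0 := if_pos hlt.le
      show c (old_Frz k m0) ≠ c (old_Frz k (m0 + 1))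
      rwa [old_succ_Frz hlt.ne, e]
    · refine ⟨m0 + 1, by omega, ?_⟩
      have e : old_Frz k (m0 + 1) = m0 := if_neg (by omega)
      show c (old_Frz k (m0 + 1)) ≠ c (old_Frz k (m0 + 1 + 1))
      rwa [old_succ_Frz (m := m0 + 1) (by omega), e]

theorem s_frz (h1 : SSep) (h2 : SDel) : SFrz := by
  intro n
  induction n with
  | zero => exact fun p _ ⟨m, hm, _⟩ => absurd hm (by omega)
  | succ n ih =>
    intro p hs ⟨m, hm, hb⟩
    by_cases hno : ∀ m, m + 2 ≤ n + 1 → cr (p (m + 1) - p m) (p (m + 2) - p (m + 1)) ≠ 0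
    · exact free_Frz h1 _ p hs ⟨m, hm⟩ hno
    push Not at hno
    obtain ⟨k, hk, hc⟩ := hno
    obtain ⟨hq, μ, h0, h1', e⟩ := h2 n p k hs (by omega) hc
    have hp : ins_Frz k μ (del k p) = p := by
      funext j
      by_cases ej : j = k + 1
      · rw [ej, ins_new_Frz, e]
        simp [del]
      · rw [ins_old_Frz k μ _ ej]
        unfold del old_Frz
        by_cases hj : j ≤ k
        · simp [hj]
        · rw [if_neg hj, if_neg (by omega)]
          congr 1
          omega
    have hmk : m ≠ k := fun e => hb (e ▸ hc)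
    have hm' : old_Frz k m + 2 ≤ n := by
      unfold old_Frz
      split_ifs <;> omega
    obtain ⟨v, c, h⟩ := ih (del k p) hq ⟨old_Frz k m, hm', fun e' => hb (by
      have := (cr_ins_Frz k h0 h1' (del k p) hmk).2 e'
      rwa [hp] at this)⟩
    have := expa_ins_Frz h0 h1' (show k + 1 ≤ n by omega) h
    rw [hp] at this
    exact ⟨_, _, this⟩

end Pool.Agent.MP_7e0f10_lc.R

end

section

/-! One expansive step, and the path made of such steps. -/

namespace Pool.Agent.MP_7e0f10_lc.R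

open Finset

theorem link_Step (l φ : ℕ → ℝ) (i : ℕ) (h : 0 < l i) : ‖pos l φ (i + 1) - pos l φ i‖ = l i := by
  simp [pos, sum_range_succ, Complex.norm_exp_ofReal_mul_I, abs_of_pos h]

theorem abs_Step {a b t : ℝ} (h : b * a ≤ 0) (h1 : t * |b| ≤ |a|) :
    |a + t * b| = |a| - t * |b| := by
  rcases lt_trichotomy b 0 with hb | rfl | hb
  · have ha : 0 ≤ a := by nlinarith
    rw [abs_of_neg hb, abs_of_nonneg ha] at *
    rw [abs_of_nonneg (by linarith)]; ring
  · simp
  · have ha : a ≤ 0 := by nlinarith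
    rw [abs_of_pos hb, abs_of_nonpos ha] at *
    rw [abs_of_nonpos (by linarith)]; ring

theorem sepm_Step {n : ℕ} {p : ℕ → ℂ} {E E' : ℝ} (h : Sep n p E) (h' : E' ≤ E) : Sep n p E' :=
  fun v hv i hi a b => h'.trans (h v hv i hi a b)

theorem pot0_Step (n : ℕ) (φ : ℕ → ℝ) : 0 ≤ pot n φ := sum_nonneg fun _ _ => abs_nonneg _

theorem s_step (h1 : SDir) (h2 : SDist) (h3 : SStay) : SStep := by
  classical
  intro n l φ E s hl hS hT hE hs hs1 hEs hp
  obtain ⟨v, c, hx, hc, hc1, hsg⟩ := h1 n l φ hl hS hT hp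
  set S := ∑ m ∈ range n, l m with hSd
  have S0 : 0 ≤ S := sum_nonneg fun m hm => (hl m (mem_range.1 hm)).le
  have hA : ((range (n - 1)).filter fun m => tau c m ≠ 0).Nonempty := by
    by_contra h
    rw [not_nonempty_iff_eq_empty, filter_eq_empty_iff] at h
    have : pot n c = 0 := sum_eq_zero fun m hm => by simpa using h hm
    rw [hc1] at this
    exact one_ne_zero this
  obtain ⟨m0, hm0, hmin⟩ := exists_min_image _ (fun m => |tau φ m| / |tau c m|) hA
  obtain ⟨hm1, hm2⟩ := mem_filter.1 hm0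
  have hr : ∀ m ∈ range (n - 1), m + 2 ≤ n := fun m hm => by have := mem_range.1 hm; omega
  have hm3 : tau φ m0 ≠ 0 := fun e => hm2 ((hsg m0 (hr m0 hm1)).2 e)
  set ρ := |tau φ m0| / |tau c m0| with hρ
  have ρ0 : 0 < ρ := div_pos (abs_pos.2 hm3) (abs_pos.2 hm2)
  set t := min s ρ with ht
  have t0 : 0 < t := lt_min hs ρ0
  have ts : t ≤ s := min_le_left _ _
  have htau : ∀ m, tau (fun m => φ m + t * c m) m = tau φ m + t * tau c m := fun m => by
    simp only [tau]; ring
  have habs : ∀ m ∈ range (n - 1),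
      |tau (fun m => φ m + t * c m) m| = |tau φ m| - t * |tau c m| := by
    intro m hm
    rw [htau]
    refine abs_Step (hsg m (hr m hm)).1 ?_
    by_cases e : tau c m = 0
    · simp [e]
    · exact (le_div_iff₀ (abs_pos.2 e)).1
        ((min_le_right _ _).trans (hmin m (mem_filter.2 ⟨hm, e⟩)))
  have hsep : ∀ r, 0 ≤ r → r ≤ 1 → Sep n (pos l fun m => φ m + r * c m) (E - 2 * S * r ^ 2) := by
    intro r r0 r1 w hw i hi a b
    have e1 := h2 n l φ c v r hl hx hc r0 r1 i hi.le w hw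
    have e2 := h2 n l φ c v r hl hx hc r0 r1 (i + 1) hi w hw
    have e3 := hE w hw i hi a b
    rw [link_Step _ _ _ (hl i hi)] at e3 ⊢
    linarith
  have hsub : ((range (n - 1)).filter fun m => tau (fun m => φ m + t * c m) m ≠ 0) ⊆
      (range (n - 1)).filter fun m => tau φ m ≠ 0 := by
    intro m hm
    obtain ⟨a, b⟩ := mem_filter.1 hm
    refine mem_filter.2 ⟨a, fun e => b ?_⟩
    rw [htau, e, (hsg m (hr m a)).2 e]; simp
  refine ⟨fun m => φ m + t * c m, t, t0, ts, ?_, ?_, ?_, ?_, hsep t t0.le (ts.trans hs1), ?_, ?_⟩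
  · have hmix : ∀ r, mix φ (fun m => φ m + t * c m) r = fun m => φ m + (r * t) * c m := fun r => by
      funext m; simp only [mix]; ring
    refine h3 n (fun r => pos l (mix φ (fun m => φ m + t * c m) r)) (fun k => ?_) ?_ ?_
    · simp only [hmix, pos]
      fun_prop
    · simpa [hmix] using hS
    · intro r hr'
      simp only [hmix]
      refine ⟨fun i hi e => ?_, fun w hw i hi a b hm => ?_⟩
      · have := link_Step l (fun m => φ m + (r * t) * c m) i (hl i hi)
        rw [e, sub_self, norm_zero] at this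
        exact (hl i hi).ne this
      · have q0 : 0 ≤ r * t := mul_nonneg hr'.1 t0.le
        have q1 : r * t ≤ s := (mul_le_of_le_one_left t0.le hr'.2).trans ts
        have e1 := hsep (r * t) q0 (q1.trans hs1) w hw i hi a b
        have e2 := dist_add_dist_of_mem_segment hm
        rw [dist_comm, dist_eq_norm, dist_eq_norm, dist_comm, dist_eq_norm] at e2
        have e3 : S * (r * t) ^ 2 ≤ S * s ^ 2 := by gcongr
        linarith
  · intro m hm
    have h4 := habs m (mem_range.2 (by omega))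
    have h5 := hT m hm
    have h6 : 0 ≤ t * |tau c m| := by positivity
    linarith
  · rw [pot, sum_congr rfl habs, sum_sub_distrib, ← mul_sum]
    change pot n φ - t * pot n c = _
    rw [hc1, mul_one]
  · have : ∀ m ∈ range (n - 1), |tau φ m - tau (fun m => φ m + t * c m) m| = t * |tau c m| :=
      fun m _ => by rw [htau, sub_add_cancel_left, abs_neg, abs_mul, abs_of_pos t0]
    rw [dst, sum_congr rfl this, ← mul_sum]
    change t * pot n c = _
    rw [hc1, mul_one]
  · unfold bent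
    convert card_le_card hsub
  · rcases min_choice s ρ with e | e
    · exact Or.inl e
    · right
      unfold bent
      have h4 := habs m0 hm1
      have h5 : t * |tau c m0| = |tau φ m0| := by
        rw [ht, e, hρ, div_mul_cancel₀ _ (abs_pos.2 hm2).ne']
      rw [h5, sub_self, abs_eq_zero] at h4
      convert card_lt_card ((ssubset_iff_of_subset hsub).2
        ⟨m0, mem_filter.2 ⟨hm1, hm3⟩, fun hm => (mem_filter.1 hm).2 h4⟩)

theorem dst_Step (n : ℕ) (φ ψ χ : ℕ → ℝ) : dst n φ χ ≤ dst n φ ψ + dst n ψ χ := by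
  unfold dst
  rw [← sum_add_distrib]
  exact sum_le_sum fun m _ => abs_sub_le _ _ _

theorem s_path (h : SStep) : SPath := by
  intro n l φ E s hl hS hT hE hs hs1 hEs hp
  set S := ∑ m ∈ range n, l m with hSd
  have S0 : 0 ≤ S := sum_nonneg fun m hm => (hl m (mem_range.1 hm)).le
  have key : ∀ (N : ℕ) (φ : ℕ → ℝ), pot n φ / s + bent n φ < N → Simp n (pos l φ) → Tame n φ →
      Sep n (pos l φ) (E / 2 + 2 * S * s * pot n φ) →
      ∃ (M : ℕ) (Φ : ℕ → ℕ → ℝ), Φ 0 = φ ∧ (M : ℝ) ≤ pot n φ / s + bent n φ ∧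
        (∀ k < M, Seg n l (Φ k) (Φ (k + 1))) ∧
        (∀ k ≤ M, Simp n (pos l (Φ k)) ∧ Sep n (pos l (Φ k)) (E / 2)) ∧ pot n (Φ M) = 0 ∧
        ∀ k k', k ≤ k' → k' ≤ M → dst n (Φ k) (Φ k') ≤ pot n (Φ k) - pot n (Φ k') := by
    intro N
    induction N with
    | zero =>
      intro φ hN
      have := pot0_Step n φ
      exact absurd hN (not_lt.2 (by rw [Nat.cast_zero]; positivity))
    | succ N ih =>
      intro φ hN hS hT hE
      have p0 := pot0_Step n φ
      have q0 : 0 ≤ 2 * S * s * pot n φ := by positivity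
      by_cases hp : pot n φ = 0
      · exact ⟨0, fun _ => φ, rfl, by rw [Nat.cast_zero]; positivity, fun k hk => absurd hk (by omega),
          fun _ _ => ⟨hS, sepm_Step hE (by linarith)⟩, hp, fun _ _ _ _ => by simp [dst]⟩
      obtain ⟨ψ, t, t0, ts, a1, a2, a3, a4, a5, a6, a7⟩ :=
        h n l φ _ s hl hS hT hE hs hs1 (by rw [← hSd]; linarith) hp
      rw [← hSd] at a5
      have b1 : pot n ψ / s + bent n ψ + 1 ≤ pot n φ / s + bent n φ := by
        rw [a3, sub_div]
        rcases a7 with e | e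
        · have : (bent n ψ : ℝ) ≤ bent n φ := by exact_mod_cast a6
          rw [e, div_self hs.ne']
          linarith
        · have : (bent n ψ : ℝ) + 1 ≤ bent n φ := by exact_mod_cast e
          have := div_pos t0 hs
          linarith
      have b2 : Simp n (pos l ψ) := by
        have := a1 1 ⟨zero_le_one, le_rfl⟩
        rwa [show mix φ ψ 1 = ψ from funext fun m => by simp [mix]] at this
      have b3 : S * (t * t) ≤ S * (s * t) := by gcongr
      obtain ⟨M, Φ, c1, c2, c3, c4, c5, c6⟩ := ih ψ (by push_cast at hN; linarith) b2 a2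
        (sepm_Step a5 (by rw [a3]; nlinarith))
      refine ⟨M + 1, fun k => Nat.casesOn k φ Φ, rfl, by push_cast; linarith, ?_, ?_, c5, ?_⟩
      · rintro (_ | k) hk
        · change Seg n l φ (Φ 0)
          rw [c1]; exact a1
        · exact c3 k (by omega)
      · rintro (_ | k) hk
        · exact ⟨hS, sepm_Step hE (by linarith)⟩
        · exact c4 k (by omega)
      · rintro (_ | k) (_ | k') h1 h2
        · simp [dst]
        · have d1 := c6 0 k' (by omega) (by omega)
          have d2 := dst_Step n φ ψ (Φ k')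
          rw [c1] at d1
          change dst n φ (Φ k') ≤ pot n φ - pot n (Φ k')
          linarith
        · omega
        · exact c6 k k' (by omega) (by omega)
  obtain ⟨N, hN⟩ := exists_nat_gt (pot n φ / s + bent n φ)
  obtain ⟨M, Φ, c1, c2, c3⟩ := key N φ hN hS hT (sepm_Step hE (by linarith))
  refine ⟨M, Φ, c1, c2.trans ?_, c3⟩
  have : bent n φ ≤ n := by
    unfold bent
    exact (card_filter_le _ _).trans (by simp)
  have : (bent n φ : ℝ) ≤ n := by exact_mod_cast this
  linarith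

end Pool.Agent.MP_7e0f10_lc.R

end

section

/-! The upper bounds. -/

namespace Pool.Agent.MP_7e0f10_lc.R

open Finset

theorem frz_all : SFrz :=
  s_frz (s_sep (s_no s_ind s_kink (s_lip s_ind) s_max s_bar s_conv s_inj s_hull)) s_del

theorem path_all : SPath := s_path (s_step (s_dir frz_all) s_dist s_stay)

theorem up_all : SUp := s_up path_all s_side (s_chord s_stay)

lemma small_straight {n : ℕ} (hn : n ≤ 1) (p : Fin (n + 1) → ℂ) : StraightensIn p 0 := by
  refine ⟨fun _ => p, rfl, fun k hk => absurd hk (Nat.not_lt_zero _), fun i j hij => ?_⟩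
  have := j.2
  omega

lemma half_le {n : ℕ} (hn : 2 ≤ n) {p : Fin (n + 1) → ℂ} {R : ℝ} (hp : IsSimple p)
    (hR : RatioLe p R) : 1 / 2 ≤ R := by
  have h := hR ⟨1, by omega⟩ ⟨2, by omega⟩ ⟨0, by omega⟩ (by simp [Fin.ext_iff])
    (by simp [Fin.ext_iff])
  have h0 := hp.1 ⟨1, by omega⟩
  unfold ellDist linkLength at h
  unfold linkLength at h0
  have e0 : (⟨0, by omega⟩ : Fin n).succ = (⟨1, by omega⟩ : Fin n).castSucc := rfl
  have e1 : (⟨1, by omega⟩ : Fin n).succ = (⟨2, by omega⟩ : Fin (n + 1)) := rfl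
  rw [e0] at h
  rw [e1] at h h0
  set a := p (⟨0, by omega⟩ : Fin n).castSucc
  set b := p (⟨1, by omega⟩ : Fin n).castSucc
  set c := p (⟨2, by omega⟩ : Fin (n + 1))
  have t1 := dist_triangle c b a
  have t2 := dist_triangle a c b
  rw [dist_comm b a] at t1
  rw [dist_comm a c] at t2
  rw [dist_comm b c] at h h0
  by_contra hc
  push Not at hc
  rcases le_total R 0 with q | q
  · nlinarith [mul_nonneg (neg_nonneg.2 q) (by linarith : 0 ≤ dist c a + dist c b - dist a b)]
  · nlinarith [mul_le_mul_of_nonneg_left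
      (by linarith : dist c a + dist c b - dist a b ≤ 2 * dist c b) q]

lemma reduce {n : ℕ} (hn : 2 ≤ n) {p : Fin (n + 1) → ℂ} {R : ℝ} (hp : IsSimple p)
    (hR : RatioLe p R) : ∃ (l φ : ℕ → ℝ) (L : ℝ), 0 < L ∧ (∀ m < n, 0 < l m ∧ l m ≤ L) ∧
      Simp n (pos l φ) ∧ Tame n φ ∧ Sep n (pos l φ) (L / R) ∧
      ∀ (m : ℕ) (Ψ : ℕ → ℕ → ℝ), Ψ 0 = φ → (∀ k < m, Seg n l (Ψ k) (Ψ (k + 1))) →
        pot n (Ψ m) = 0 → StraightensIn p m := by
  obtain ⟨l, φ, hl, ht, hs, hk⟩ := s_finA n p hp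
  have R0 : 0 < R := lt_of_lt_of_le (by norm_num) (half_le hn hp hR)
  obtain ⟨j, -, hj⟩ := Finset.exists_max_image (univ : Finset (Fin n)) (linkLength p)
    ⟨⟨0, by omega⟩, mem_univ _⟩
  have lpos : ∀ m < n, 0 < l m := fun m hm => by
    have := hl ⟨m, hm⟩
    simp only at this
    rw [this]; exact hp.1 _
  refine ⟨l, φ, linkLength p j, hp.1 j, fun m hm => ⟨lpos m hm, ?_⟩, hs, ht, ?_, ?_⟩
  · have := hl ⟨m, hm⟩
    simp only at this
    rw [this]; exact hj _ (mem_univ _)
  · intro v hv i hi h1 h2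
    have h := hR j ⟨v, by omega⟩ ⟨i, hi⟩ (by simpa [Fin.ext_iff] using h1)
      (by simpa [Fin.ext_iff] using h2)
    rw [div_le_iff₀ R0, mul_comm]
    refine h.trans (le_of_eq ?_)
    congr 1
    unfold ellDist linkLength
    rw [hk ⟨v, by omega⟩, hk (Fin.castSucc ⟨i, hi⟩), hk (Fin.succ ⟨i, hi⟩), dist_add_left,
      dist_add_left, dist_add_left, dist_eq_norm, dist_eq_norm, dist_comm, dist_eq_norm]
    rfl
  · intro m Ψ h0 h1 h2
    obtain ⟨f1, f2⟩ := s_finB n l (p 0) lpos
    refine ⟨fun k => fun i : Fin (n + 1) => p 0 + pos l (Ψ k) i, ?_, fun k hk => f1 _ _ (h1 k hk),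
      f2 _ h2⟩
    funext i
    show p 0 + pos l (Ψ 0) i = p i
    rw [h0]; exact (hk i).symm

theorem upper_sqrt (n : ℕ) : ∃ C : ℝ, ∀ (R : ℝ) (p : Fin (n + 1) → ℂ), IsSimple p → RatioLe p R →
    ∃ m : ℕ, (m : ℝ) ≤ C * √R ∧ StraightensIn p m := by
  obtain ⟨C, C0, hC⟩ := up_all n
  refine ⟨3 * C, fun R p hp hR => ?_⟩
  rcases le_or_gt n 1 with hn | hn
  · exact ⟨0, by rw [Nat.cast_zero]; positivity, small_straight hn p⟩
  have h2 := half_le hn hp hR
  have R0 : 0 < R := lt_of_lt_of_le (by norm_num) h2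
  obtain ⟨l, φ, L, L0, hl, hs, ht, hE, fin⟩ := reduce hn hp hR
  obtain ⟨m, Ψ, hm, a, b, c⟩ := hC l φ (L / R) L hl hs ht (div_pos L0 R0) hE
  refine ⟨m, hm.trans ?_, fin m Ψ a b c⟩
  have e : L / (L / R) = R := by field_simp
  have : 1 / 2 ≤ √R := Real.le_sqrt_of_sq_le (by linarith)
  rw [e]
  nlinarith

lemma pot_le {n : ℕ} {φ : ℕ → ℝ} (h : Tame n φ) : pot n φ ≤ n * Real.pi := by
  unfold pot
  have h1 : ∑ m ∈ range (n - 1), |tau φ m| ≤ ∑ _m ∈ range (n - 1), Real.pi :=
    sum_le_sum fun m hm => (h m (by have := mem_range.1 hm; omega)).le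
  rw [sum_const, card_range, nsmul_eq_mul] at h1
  have h2 : ((n - 1 : ℕ) : ℝ) ≤ n := by exact_mod_cast Nat.sub_le n 1
  exact h1.trans (mul_le_mul_of_nonneg_right h2 Real.pi_pos.le)

theorem upper_poly (n : ℕ) (R : ℝ) (hR0 : 0 ≤ R) (p : Fin (n + 1) → ℂ) (hp : IsSimple p)
    (hR : RatioLe p R) : ∃ m : ℕ, (m : ℝ) ≤ 41 * (n : ℝ) ^ 3 * R ∧ StraightensIn p m := by
  rcases le_or_gt n 1 with hn | hn
  · exact ⟨0, by rw [Nat.cast_zero]; positivity, small_straight hn p⟩
  have h2 := half_le hn hp hR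
  have R0 : 0 < R := lt_of_lt_of_le (by norm_num) h2
  obtain ⟨l, φ, L, L0, hl, hs, ht, hE, fin⟩ := reduce hn hp hR
  have n2 : (2 : ℝ) ≤ n := by exact_mod_cast hn
  have p3 := Real.pi_gt_three
  have p4 := Real.pi_lt_d2
  have hS : ∑ m ∈ range n, l m ≤ n * L := by
    have := sum_le_sum (s := range n) (f := l) (g := fun _ => L) fun m hm => (hl m (mem_range.1 hm)).2
    rwa [sum_const, card_range, nsmul_eq_mul] at this
  have S0 : 0 ≤ ∑ m ∈ range n, l m := sum_nonneg fun m hm => (hl m (mem_range.1 hm)).1.le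
  have P0 : 0 ≤ pot n φ := sum_nonneg fun _ _ => abs_nonneg _
  have P1 := pot_le ht
  obtain ⟨K, hK⟩ : ∃ K, K = (n : ℝ) * Real.pi := ⟨_, rfl⟩
  have K1 : 6 ≤ K := by rw [hK]; nlinarith
  rw [← hK] at P1
  obtain ⟨s, hs'⟩ : ∃ s, s = 1 / (4 * n * K * R) := ⟨_, rfl⟩
  have D1 : 2 ≤ 4 * n * K * R := by
    have := mul_le_mul (mul_le_mul n2 K1 (by norm_num) (by linarith)) h2 (by norm_num)
      (by positivity)
    linarith
  have s0 : 0 < s := by rw [hs']; exact div_pos one_pos (by linarith)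
  have s1 : s ≤ 1 := by rw [hs', div_le_one (by linarith)]; linarith
  have key : 4 * (n * L) * s * K = L / R := by
    have : K ≠ 0 := by linarith
    have : (n : ℝ) ≠ 0 := by linarith
    rw [hs']; field_simp
  have b1 : 4 * (∑ m ∈ range n, l m) * s ≤ 4 * (n * L) * s := by gcongr
  have b0 : 0 < 4 * (n * L) * s := by positivity
  obtain ⟨M, Φ, a, hM, b, -, c, -⟩ := path_all n l φ (L / R) s (fun m hm => (hl m hm).1) hs ht hE
    s0 s1 (by rw [← key]; nlinarith) (by rw [← key]; gcongr)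
  refine ⟨M, hM.trans ?_, fin M Φ a b c⟩
  have e : pot n φ / s = pot n φ * (4 * n * K * R) := by rw [hs']; field_simp
  have e1 : pot n φ * (4 * n * K * R) ≤ K * (4 * n * K * R) := by gcongr
  have e2 : K * (4 * n * K * R) = 4 * Real.pi ^ 2 * ((n : ℝ) ^ 3 * R) := by rw [hK]; ring
  have e3 : 4 * Real.pi ^ 2 ≤ 40 := by nlinarith
  have e4 : (n : ℝ) ≤ (n : ℝ) ^ 3 * R := by
    have : 2 ≤ (n : ℝ) ^ 2 * R := by nlinarith
    nlinarith
  have e5 : 4 * Real.pi ^ 2 * ((n : ℝ) ^ 3 * R) ≤ 40 * ((n : ℝ) ^ 3 * R) := by gcongr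
  linarith

end Pool.Agent.MP_7e0f10_lc.R

end
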